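import Pool.Agent.H695R3.PP.Stmts

/-!
# Simple properties of averages (TaskAvg)
-/

set_option autoImplicit false

open scoped BigOperators ENNReal
open MeasureTheory

namespace Q235.PP

open Pool.Agent.H695R3.PP

/-- Jensen for a probability measure. -/
theorem lintegral_sq_le {α : Type*} [MeasurableSpace α] (μ : Measure α) [IsProbabilityMeasure μ]
    {f : α → ℝ≥0∞} (hf : AEMeasurable f μ) : (∫⁻ x, f x ∂μ) ^ 2 ≤ ∫⁻ x, f x ^ 2 ∂μ := by
  have h := ENNReal.lintegral_mul_le_Lp_mul_Lq μ (p := 2) (q := 2)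
    (by rw [Real.holderConjugate_iff]; norm_num) hf (aemeasurable_const (b := (1 : ℝ≥0∞)))
  have h1 : ∫⁻ a, (f * (fun _ : α => (1 : ℝ≥0∞))) a ∂μ = ∫⁻ a, f a ∂μ := by
    refine lintegral_congr fun a => by simp
  rw [h1] at h
  have h2 : (∫⁻ _ : α, (1 : ℝ≥0∞) ^ (2 : ℝ) ∂μ) ^ (1 / (2 : ℝ)) = 1 := by simp
  rw [h2, mul_one] at h
  have h3 : ∫⁻ a, f a ^ (2 : ℝ) ∂μ = ∫⁻ a, f a ^ 2 ∂μ := by
    refine lintegral_congr fun a => by rw [← ENNReal.rpow_natCast]; norm_num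
  rw [h3] at h
  calc (∫⁻ x, f x ∂μ) ^ 2 ≤ ((∫⁻ a, f a ^ 2 ∂μ) ^ (1 / (2 : ℝ))) ^ 2 := by gcongr
    _ = ∫⁻ x, f x ^ 2 ∂μ := by
        rw [← ENNReal.rpow_natCast, ← ENNReal.rpow_mul]; norm_num

theorem measurable_shift {g : ℝ → ℝ≥0∞} (hg : Measurable g) (ε : ℝ) :
    Measurable fun p : ℝ × ℝ => g (p.1 + ε * p.2) :=
  hg.comp (measurable_fst.add (measurable_const.mul measurable_snd))

theorem measurable_avg {g : ℝ → ℝ≥0∞} (hg : Measurable g) (ε : ℝ) : Measurable (avg ε g) :=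
  (measurable_shift hg ε).lintegral_prod_right'

theorem avg_sq_le {g : ℝ → ℝ≥0∞} (hg : Measurable g) (ε x : ℝ) :
    avg ε g x ^ 2 ≤ ∫⁻ s, g (x + ε * s) ^ 2 ∂U :=
  lintegral_sq_le U (hg.comp (measurable_const.add (measurable_const.mul measurable_id))).aemeasurable

theorem nsqL_avg_le {g : ℝ → ℝ≥0∞} (hg : Measurable g) (ε : ℝ) : nsqL (avg ε g) ≤ nsqL g := by
  unfold nsqL
  calc ∫⁻ x, avg ε g x ^ 2 ≤ ∫⁻ x, ∫⁻ s, g (x + ε * s) ^ 2 ∂U :=
        lintegral_mono fun x => avg_sq_le hg ε x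
    _ = ∫⁻ s, (∫⁻ x, g (x + ε * s) ^ 2) ∂U :=
        lintegral_lintegral_swap ((measurable_shift hg ε).pow_const 2).aemeasurable
    _ = ∫⁻ _ : ℝ, (∫⁻ x, g x ^ 2) ∂U := by
        refine lintegral_congr fun s => ?_
        exact lintegral_add_right_eq_self (fun x => g x ^ 2) (ε * s)
    _ = ∫⁻ x, g x ^ 2 := by simp

theorem U_apply (f : ℝ → ℝ≥0∞) :
    ∫⁻ s, f s ∂U = ENNReal.ofReal (1 / 2) * ∫⁻ s in Set.Icc (-1 : ℝ) 1, f s := by
  unfold U
  rw [lintegral_smul_measure, smul_eq_mul]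

theorem U_compl : ∀ᵐ s ∂U, s ∈ Set.Icc (-1 : ℝ) 1 := by
  unfold U
  refine Measure.ae_smul_measure ?_ _
  exact ae_restrict_mem measurableSet_Icc

theorem lintegral_scale (f : ℝ → ℝ≥0∞) {ε : ℝ} (hε : 0 < ε) (x : ℝ) (hf : Measurable f) :
    ∫⁻ s, f (x + ε * s) = ENNReal.ofReal (1 / ε) * ∫⁻ y, f y := by
  have h1 : ∫⁻ s, f (x + ε * s) = ∫⁻ y, f (x + y) ∂(Measure.map (fun s => ε * s) volume) := by
    rw [lintegral_map (f := fun y => f (x + y)) (hf.comp (measurable_const_add x))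
      (measurable_const_mul ε)]
  rw [h1, Real.map_volume_mul_left hε.ne', lintegral_smul_measure, smul_eq_mul,
    lintegral_add_left_eq_self, abs_of_pos (inv_pos.2 hε), one_div]

theorem taskAvg : TaskAvg := by
  intro ε g hε hε1 hg
  refine ⟨measurable_avg hg ε, nsqL_avg_le hg ε, fun c => ?_, fun x => ?_⟩
  · set g' : ℝ → ℝ≥0∞ := (Set.Icc (c - 2) (c + 2)).indicator g with hg'
    have hgm : Measurable g' := hg.indicator measurableSet_Icc
    have h1 : ∀ y ∈ Set.Icc (c - 1) (c + 1), avg ε g y = avg ε g' y := by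
      intro y hy
      unfold avg
      refine lintegral_congr_ae ?_
      filter_upwards [U_compl] with s hs
      have hs1 : |ε * s| ≤ 1 := by
        rw [abs_mul, abs_of_pos hε]
        have : |s| ≤ 1 := abs_le.2 hs
        nlinarith [abs_nonneg s]
      rw [abs_le] at hs1
      rw [hg', Set.indicator_of_mem]
      constructor <;> [linarith [hy.1, hs1.1]; linarith [hy.2, hs1.2]]
    calc ∫⁻ y in Set.Icc (c - 1) (c + 1), avg ε g y ^ 2
        = ∫⁻ y in Set.Icc (c - 1) (c + 1), avg ε g' y ^ 2 := by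
          refine setLIntegral_congr_fun measurableSet_Icc fun y hy => ?_
          rw [h1 y hy]
      _ ≤ ∫⁻ y, avg ε g' y ^ 2 := setLIntegral_le_lintegral _ _
      _ ≤ ∫⁻ y, g' y ^ 2 := nsqL_avg_le hgm ε
      _ = ∫⁻ y in Set.Icc (c - 2) (c + 2), g y ^ 2 := by
          rw [← lintegral_indicator measurableSet_Icc]
          refine lintegral_congr fun y => ?_
          rw [hg']
          by_cases hy : y ∈ Set.Icc (c - 2) (c + 2)
          · simp [hy]
          · simp [hy]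
  · have h1 : avg ε g x ^ 2 ≤ ENNReal.ofReal (1 / ε) * nsqL g := by
      calc avg ε g x ^ 2 ≤ ∫⁻ s, g (x + ε * s) ^ 2 ∂U := avg_sq_le hg ε x
        _ = ENNReal.ofReal (1 / 2) * ∫⁻ s in Set.Icc (-1 : ℝ) 1, g (x + ε * s) ^ 2 := U_apply _
        _ ≤ 1 * ∫⁻ s, g (x + ε * s) ^ 2 := by
            gcongr
            · rw [ENNReal.ofReal_le_one]; norm_num
            · exact Measure.restrict_le_self
        _ = ENNReal.ofReal (1 / ε) * nsqL g := by
            rw [one_mul, lintegral_scale (fun y => g y ^ 2) hε x (hg.pow_const 2)]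
            rfl
    have h2 : avg ε g x = (avg ε g x ^ 2) ^ (1 / 2 : ℝ) := by
      rw [← ENNReal.rpow_natCast, ← ENNReal.rpow_mul]; norm_num
    rw [h2]
    calc (avg ε g x ^ 2) ^ (1 / 2 : ℝ) ≤ (ENNReal.ofReal (1 / ε) * nsqL g) ^ (1 / 2 : ℝ) :=
          ENNReal.rpow_le_rpow h1 (by norm_num)
      _ = ENNReal.ofReal (1 / Real.sqrt ε) * nsqL g ^ (1 / 2 : ℝ) := by
          rw [ENNReal.mul_rpow_of_nonneg _ _ (by norm_num)]
          congr 1
          rw [ENNReal.ofReal_rpow_of_nonneg (by positivity) (by norm_num)]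
          congr 1
          rw [← Real.sqrt_eq_rpow, Real.sqrt_div zero_le_one, Real.sqrt_one]

end Q235.PP
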