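import Pool.Agent.Q235.PP.SA

/-!
# The eigenvectors of a box (TaskApprox, TaskCard, TaskCompl, TaskStep)
-/

set_option autoImplicit false

open scoped BigOperators ENNReal
open MeasureTheory

namespace Q235.PP

open Pool.Agent.H695R3.PP

/-- The scalar product on `[a, b]`. -/
noncomputable def ip (a b : ℤ) (f g : ℤ → ℝ) : ℝ := ∑ n ∈ Finset.Icc a b, f n * g n

/-- The sites of the box. -/
abbrev Bx (a b : ℤ) := {n : ℤ // n ∈ Finset.Icc a b}

/-- Extension by zero. -/
noncomputable def extd (a b : ℤ) (f : EuclideanSpace ℝ (Bx a b)) (n : ℤ) : ℝ :=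
  if h : n ∈ Finset.Icc a b then f ⟨n, h⟩ else 0

theorem extd_zero {a b : ℤ} (f : EuclideanSpace ℝ (Bx a b)) (n : ℤ) (h : n < a ∨ b < n) :
    extd a b f n = 0 := by
  unfold extd
  rw [dif_neg]
  rw [Finset.mem_Icc]
  omega

theorem extd_mem {a b : ℤ} (f : EuclideanSpace ℝ (Bx a b)) (i : Bx a b) :
    extd a b f i = f i := by
  unfold extd
  rw [dif_pos i.2]

/-- Restriction to the box. -/
noncomputable def rst (a b : ℤ) (f : ℤ → ℝ) : EuclideanSpace ℝ (Bx a b) :=
  WithLp.toLp 2 fun i => f i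

theorem extd_rst {a b : ℤ} {f : ℤ → ℝ} (hf : ∀ n, n < a ∨ b < n → f n = 0) :
    extd a b (rst a b f) = f := by
  funext n
  unfold extd rst
  by_cases h : n ∈ Finset.Icc a b
  · rw [dif_pos h]
  · rw [dif_neg h]
    rw [Finset.mem_Icc] at h
    exact (hf n (by omega)).symm

theorem inner_eq {a b : ℤ} (f g : EuclideanSpace ℝ (Bx a b)) :
    inner ℝ f g = ip a b (extd a b f) (extd a b g) := by
  rw [PiLp.inner_apply]
  unfold ip
  rw [← Finset.sum_coe_sort (Finset.Icc a b)]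
  refine Finset.sum_congr rfl fun i _ => ?_
  rw [extd_mem, extd_mem]
  simp [mul_comm]

theorem norm_sq_eq {a b : ℤ} (f : EuclideanSpace ℝ (Bx a b)) :
    ‖f‖ ^ 2 = nsq a b (extd a b f) := by
  rw [← real_inner_self_eq_norm_sq, inner_eq]
  unfold ip nsq
  refine Finset.sum_congr rfl fun i _ => ?_
  ring

/-- The operator on the box. -/
noncomputable def TT (V : ℤ → ℝ) (a b : ℤ) :
    EuclideanSpace ℝ (Bx a b) →ₗ[ℝ] EuclideanSpace ℝ (Bx a b) where
  toFun f := WithLp.toLp 2 fun i =>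
    extd a b f (i + 1) + extd a b f (i - 1) + V i * extd a b f i
  map_add' f g := by
    ext i
    simp only [extd, PiLp.add_apply]
    split_ifs <;> ring
  map_smul' c f := by
    ext i
    simp only [extd, PiLp.smul_apply, smul_eq_mul, RingHom.id_apply]
    split_ifs <;> ring

theorem extd_TT {V : ℤ → ℝ} {a b : ℤ} (f : EuclideanSpace ℝ (Bx a b)) (n : ℤ)
    (hn : n ∈ Finset.Icc a b) : extd a b (TT V a b f) n =
      extd a b f (n + 1) + extd a b f (n - 1) + V n * extd a b f n := by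
  have := extd_mem (TT V a b f) ⟨n, hn⟩
  exact this

theorem TT_symm (V : ℤ → ℝ) (a b : ℤ) : (TT V a b).IsSymmetric := by
  intro f g
  rw [inner_eq, inner_eq]
  unfold ip
  have h := green (extd_zero f) (extd_zero g)
  have e1 : ∑ n ∈ Finset.Icc a b, extd a b (TT V a b f) n * extd a b g n =
      ∑ n ∈ Finset.Icc a b, extd a b g n * (extd a b f (n + 1) + extd a b f (n - 1)) +
        ∑ n ∈ Finset.Icc a b, V n * (extd a b f n * extd a b g n) := by
    rw [← Finset.sum_add_distrib]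
    refine Finset.sum_congr rfl fun n hn => ?_
    rw [extd_TT f n hn]
    ring
  have e2 : ∑ n ∈ Finset.Icc a b, extd a b f n * extd a b (TT V a b g) n =
      ∑ n ∈ Finset.Icc a b, extd a b f n * (extd a b g (n + 1) + extd a b g (n - 1)) +
        ∑ n ∈ Finset.Icc a b, V n * (extd a b f n * extd a b g n) := by
    rw [← Finset.sum_add_distrib]
    refine Finset.sum_congr rfl fun n hn => ?_
    rw [extd_TT g n hn]
    ring
  rw [e1, e2, h]

/-- The spectral theorem for the box. -/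
theorem box_basis (V : ℤ → ℝ) (a b : ℤ) (N : ℕ) (hN : (Finset.Icc a b).card = N) :
    ∃ (e : Fin N → ℝ) (φ : Fin N → ℤ → ℝ), (∀ j, IsEig V a b (e j) (φ j)) ∧
      (∀ i j, ip a b (φ i) (φ j) = if i = j then 1 else 0) ∧
      ∀ f : ℤ → ℝ, (∀ n, n < a ∨ b < n → f n = 0) →
        (∀ n, f n = ∑ j, ip a b (φ j) f * φ j n) ∧ nsq a b f = ∑ j, ip a b (φ j) f ^ 2 := by
  have hfr : Module.finrank ℝ (EuclideanSpace ℝ (Bx a b)) = N := by
    rw [finrank_euclideanSpace, Fintype.card_coe, hN]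
  set β := (TT_symm V a b).eigenvectorBasis hfr with hβ
  set e := (TT_symm V a b).eigenvalues hfr with he
  refine ⟨e, fun j => extd a b (β j), fun j => ⟨extd_zero _, ?_, ?_⟩, fun i j => ?_,
    fun f hf => ⟨fun n => ?_, ?_⟩⟩
  · rw [← norm_sq_eq, β.orthonormal.1 j, one_pow]
  · intro n hn1 hn2
    have hn : n ∈ Finset.Icc a b := Finset.mem_Icc.2 ⟨hn1, hn2⟩
    rw [← extd_TT (V := V) (β j) n hn]
    have := (TT_symm V a b).apply_eigenvectorBasis hfr j
    rw [← hβ] at this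
    rw [this]
    have h1 := extd_mem (((e j : ℝ) : ℝ) • β j) ⟨n, hn⟩
    have h2 := extd_mem (β j) ⟨n, hn⟩
    have h3 : extd a b (e j • β j) n = e j * extd a b (β j) n := by
      simp only at h1 h2
      rw [h2, h1]
      rfl
    exact h3
  · rw [← inner_eq]
    exact orthonormal_iff_ite.1 β.orthonormal i j
  · have h1 := β.sum_repr' (rst a b f)
    have h2 : ∀ j, inner ℝ (β j) (rst a b f) = ip a b (extd a b (β j)) f := by
      intro j
      rw [inner_eq, extd_rst hf]
    by_cases hn : n ∈ Finset.Icc a b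
    · have h3 : f n = (rst a b f) ⟨n, hn⟩ := rfl
      rw [h3, ← h1]
      rw [WithLp.ofLp_sum, Finset.sum_apply]
      refine Finset.sum_congr rfl fun j _ => ?_
      rw [PiLp.smul_apply, smul_eq_mul, h2]
      congr 1
      exact (extd_mem (β j) ⟨n, hn⟩).symm
    · rw [Finset.mem_Icc] at hn
      rw [hf n (by omega)]
      symm
      refine Finset.sum_eq_zero fun j _ => ?_
      have h4 : extd a b (β j) n = 0 := extd_zero _ n (by omega)
      simp only [h4, mul_zero]
  · have h1 := β.sum_sq_norm_inner_right (rst a b f)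
    rw [norm_sq_eq, extd_rst hf] at h1
    rw [← h1]
    refine Finset.sum_congr rfl fun j _ => ?_
    rw [inner_eq, extd_rst hf, Real.norm_eq_abs, sq_abs]

theorem ip_comm (a b : ℤ) (f g : ℤ → ℝ) : ip a b f g = ip a b g f := by
  unfold ip
  exact Finset.sum_congr rfl fun n _ => mul_comm _ _

/-- The coefficients of `(H - E) f`. -/
theorem ip_defect {V : ℤ → ℝ} {a b : ℤ} {E e : ℝ} {φ f g : ℤ → ℝ} (hφ : IsEig V a b e φ)
    (hf : ∀ n, n < a ∨ b < n → f n = 0)
    (hg : ∀ n ∈ Finset.Icc a b, g n = f (n + 1) + f (n - 1) + V n * f n - E * f n) :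
    ip a b φ g = (e - E) * ip a b φ f := by
  have h := green hf hφ.1
  unfold ip
  have e1 : ∑ n ∈ Finset.Icc a b, φ n * g n =
      ∑ n ∈ Finset.Icc a b, φ n * (f (n + 1) + f (n - 1)) +
        ∑ n ∈ Finset.Icc a b, (V n - E) * (φ n * f n) := by
    rw [← Finset.sum_add_distrib]
    refine Finset.sum_congr rfl fun n hn => ?_
    rw [hg n hn]
    ring
  rw [e1, h, ← Finset.sum_add_distrib, Finset.mul_sum]
  refine Finset.sum_congr rfl fun n hn => ?_
  rw [Finset.mem_Icc] at hn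
  have := hφ.2.2 n hn.1 hn.2
  linear_combination f n * this

/-- Cut off outside the box. -/
noncomputable def cut (a b : ℤ) (g : ℤ → ℝ) (n : ℤ) : ℝ := if n ∈ Finset.Icc a b then g n else 0

theorem cut_zero (a b : ℤ) (g : ℤ → ℝ) (n : ℤ) (h : n < a ∨ b < n) : cut a b g n = 0 := by
  unfold cut
  rw [if_neg]
  rw [Finset.mem_Icc]
  omega

theorem cut_mem (a b : ℤ) (g : ℤ → ℝ) (n : ℤ) (h : n ∈ Finset.Icc a b) : cut a b g n = g n := by
  unfold cut
  rw [if_pos h]

theorem nsq_cut (a b : ℤ) (g : ℤ → ℝ) : nsq a b (cut a b g) = nsq a b g := by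
  unfold nsq
  refine Finset.sum_congr rfl fun n hn => ?_
  rw [cut_mem a b g n hn]

theorem taskApprox : TaskApprox := by
  intro V a b E δ f hδ hf hpos hle
  obtain ⟨e, φ, h1, -, h3⟩ := box_basis V a b _ rfl
  set g : ℤ → ℝ := cut a b fun n => f (n + 1) + f (n - 1) + V n * f n - E * f n with hg
  have hgz := cut_zero a b fun n => f (n + 1) + f (n - 1) + V n * f n - E * f n
  have hgn : nsq a b g ≤ δ ^ 2 * nsq a b f := by
    rw [hg, nsq_cut]
    exact hle
  have h4 := (h3 g hgz).2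
  have h5 := (h3 f hf).2
  have h6 : ∀ j, ip a b (φ j) g = (e j - E) * ip a b (φ j) f := fun j =>
    ip_defect (h1 j) hf fun n hn => cut_mem _ _ _ _ hn
  simp only [h6, mul_pow] at h4
  by_contra hcon
  push Not at hcon
  have h7 : ∀ j, δ < |e j - E| := fun j => hcon (e j) (φ j) (h1 j)
  have h8 : ∃ j, 0 < ip a b (φ j) f ^ 2 := by
    by_contra hn
    push Not at hn
    have : nsq a b f ≤ 0 := by
      rw [h5]
      exact Finset.sum_nonpos fun j _ => hn j
    linarith
  obtain ⟨j0, hj0⟩ := h8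
  have h9 : ∀ j, δ ^ 2 < (e j - E) ^ 2 := by
    intro j
    rw [← sq_abs (e j - E)]
    exact pow_lt_pow_left₀ (h7 j) hδ two_ne_zero
  have h10 : δ ^ 2 * nsq a b f < nsq a b g := by
    rw [h4, h5, Finset.mul_sum]
    refine Finset.sum_lt_sum (fun j _ => ?_) ⟨j0, Finset.mem_univ _, ?_⟩
    · exact mul_le_mul_of_nonneg_right (h9 j).le (sq_nonneg _)
    · exact mul_lt_mul_of_pos_right (h9 j0) hj0
  linarith

theorem taskCard : TaskCard := by
  intro V a b hab
  obtain ⟨e, φ, h1, -, h3⟩ := box_basis V a b _ rfl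
  refine ⟨Finset.univ.image e, ?_, ?_⟩
  · have h4 : (Finset.univ.image e).card ≤ (Finset.Icc a b).card := by
      refine Finset.card_image_le.trans ?_
      rw [Finset.card_univ, Fintype.card_fin]
    have h5 : (Finset.Icc a b).card = (b + 1 - a).toNat := Int.card_Icc a b
    omega
  · intro E ψ h
    have h5 := (h3 ψ h.1).2
    rw [h.2.1] at h5
    obtain ⟨j, hj⟩ : ∃ j, ip a b (φ j) ψ ≠ 0 := by
      by_contra hn
      push Not at hn
      simp [hn] at h5
    have h6 := ip_defect (V := V) (E := E) (g := fun _ => 0) (h1 j) h.1 (fun n hn => by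
      rw [Finset.mem_Icc] at hn
      have := h.2.2 n hn.1 hn.2
      linarith)
    have h7 : ip a b (φ j) (fun _ => 0) = 0 := by simp [ip]
    rw [h7] at h6
    have h8 : e j - E = 0 := by
      rcases mul_eq_zero.1 h6.symm with h | h
      · exact h
      · exact absurd h hj
    rw [Finset.mem_image]
    exact ⟨j, Finset.mem_univ _, by linarith⟩

theorem sum_sq_comb {a b : ℤ} {N : ℕ} {φ : Fin N → ℤ → ℝ}
    (h : ∀ i j, ip a b (φ i) (φ j) = if i = j then 1 else 0) (c : Fin N → ℝ) :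
    ∑ n ∈ Finset.Icc a b, (∑ j, c j * φ j n) ^ 2 = ∑ j, c j ^ 2 := by
  have e1 : ∀ n, (∑ j, c j * φ j n) ^ 2 = ∑ i, ∑ j, c i * c j * (φ i n * φ j n) := by
    intro n
    rw [sq, Finset.sum_mul_sum]
    refine Finset.sum_congr rfl fun i _ => Finset.sum_congr rfl fun j _ => ?_
    ring
  simp only [e1]
  rw [Finset.sum_comm]
  refine Finset.sum_congr rfl fun i _ => ?_
  rw [Finset.sum_comm]
  have e2 : ∀ j, ∑ n ∈ Finset.Icc a b, c i * c j * (φ i n * φ j n) =
      c i * c j * (if i = j then 1 else 0) := by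
    intro j
    rw [← Finset.mul_sum, ← h i j]
    rfl
  simp only [e2]
  rw [Finset.sum_eq_single i]
  · rw [if_pos rfl]; ring
  · intro j _ hj
    rw [if_neg (Ne.symm hj), mul_zero]
  · intro hi; exact absurd (Finset.mem_univ i) hi

theorem taskCompl : TaskCompl := by
  intro V L
  obtain ⟨e, φ, h1, h2, h3⟩ := box_basis V (-(L : ℤ)) L (2 * L + 1) (by
    rw [Int.card_Icc]; omega)
  refine ⟨e, φ, h1, fun n => ?_, sum_sq_comb h2⟩
  set f : ℤ → ℝ := fun n => if n = 0 then (1 : ℝ) else 0 with hf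
  have hfz : ∀ n, n < -(L : ℤ) ∨ (L : ℤ) < n → f n = 0 := by
    intro n hn
    rw [hf]
    simp only
    rw [if_neg (by omega)]
  have h4 := (h3 f hfz).1 n
  have h5 : ∀ j, ip (-(L : ℤ)) L (φ j) f = φ j 0 := by
    intro j
    unfold ip
    rw [Finset.sum_eq_single (0 : ℤ)]
    · simp [hf]
    · intro k _ hk
      simp [hf, hk]
    · intro h0
      exfalso
      apply h0
      rw [Finset.mem_Icc]
      omega
  simp only [h5] at h4
  exact h4

theorem taskStep : TaskStep := by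
  intro V L L' E τ d ψ hLL hτ hτd hbad hψ h1 h2
  obtain ⟨e, φ, hφ, horth, hex⟩ := box_basis V (-(L' : ℤ)) L' _ rfl
  have hψz : ∀ n, n < -(L' : ℤ) ∨ (L' : ℤ) < n → ψ n = 0 := fun n hn => hψ.1 n (by omega)
  set g : ℤ → ℝ := cut (-(L' : ℤ)) L' fun n => ψ (n + 1) + ψ (n - 1) + V n * ψ n - E * ψ n with hg
  have hgz := cut_zero (-(L' : ℤ)) L' fun n => ψ (n + 1) + ψ (n - 1) + V n * ψ n - E * ψ n
  have hnψ : nsq (-(L' : ℤ)) L' ψ = 1 := by
    rw [← hψ.2.1]
    unfold nsq
    symm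
    refine Finset.sum_subset ?_ ?_
    · intro n hn
      rw [Finset.mem_Icc] at hn ⊢
      omega
    · intro n _ hn
      rw [Finset.mem_Icc] at hn
      rw [hψ.1 n (by omega)]
      norm_num
  -- the defect
  have hgn : nsq (-(L' : ℤ)) L' g ≤ 2 * τ ^ 2 := by
    rw [hg, nsq_cut]
    unfold nsq
    have hz : ∀ n ∈ Finset.Icc (-(L' : ℤ)) L', n ∉ ({(L : ℤ) + 1, -(L : ℤ) - 1} : Finset ℤ) →
        (ψ (n + 1) + ψ (n - 1) + V n * ψ n - E * ψ n) ^ 2 = 0 := by
      intro n _ hn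
      simp only [Finset.mem_insert, Finset.mem_singleton, not_or] at hn
      by_cases hin : -(L : ℤ) ≤ n ∧ n ≤ L
      · have := hψ.2.2 n hin.1 hin.2
        rw [this]; ring
      · rw [hψ.1 (n + 1) (by omega), hψ.1 (n - 1) (by omega), hψ.1 n (by omega)]
        ring
    have hsub : ({(L : ℤ) + 1, -(L : ℤ) - 1} : Finset ℤ) ⊆ Finset.Icc (-(L' : ℤ)) L' := by
      intro n hn
      simp only [Finset.mem_insert, Finset.mem_singleton] at hn
      rw [Finset.mem_Icc]
      omega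
    rw [← Finset.sum_subset hsub hz, Finset.sum_pair (by omega)]
    have e1 : ψ ((L : ℤ) + 1 + 1) = 0 := hψ.1 _ (by omega)
    have e2 : ψ ((L : ℤ) + 1) = 0 := hψ.1 _ (by omega)
    have e3 : ψ (-(L : ℤ) - 1 - 1) = 0 := hψ.1 _ (by omega)
    have e4 : ψ (-(L : ℤ) - 1) = 0 := hψ.1 _ (by omega)
    have e5 : (L : ℤ) + 1 - 1 = L := by ring
    have e6 : -(L : ℤ) - 1 + 1 = -(L : ℤ) := by ring
    rw [e1, e2, e3, e4, e5, e6]
    have h1' : ψ L ^ 2 ≤ τ ^ 2 := by
      rw [← sq_abs]; exact pow_le_pow_left₀ (abs_nonneg _) h1 2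
    have h2' : ψ (-(L : ℤ)) ^ 2 ≤ τ ^ 2 := by
      rw [← sq_abs]; exact pow_le_pow_left₀ (abs_nonneg _) h2 2
    nlinarith
  obtain ⟨c, hc⟩ : ∃ c : Fin (Finset.Icc (-(L' : ℤ)) L').card → ℝ,
      c = fun j => ip (-(L' : ℤ)) L' (φ j) ψ := ⟨_, rfl⟩
  have hsum : ∑ j, c j ^ 2 = 1 := by
    rw [hc, ← (hex ψ hψz).2, hnψ]
  have hdef : ∑ j, (e j - E) ^ 2 * c j ^ 2 ≤ 2 * τ ^ 2 := by
    refine le_trans (le_of_eq ?_) hgn
    rw [(hex g hgz).2]
    refine Finset.sum_congr rfl fun j _ => ?_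
    rw [ip_defect (hφ j) hψz fun n hn => cut_mem _ _ _ _ hn, mul_pow, hc]
  -- a close eigenvalue
  obtain ⟨j0, hj0⟩ : ∃ j, |e j - E| ≤ 2 * τ := by
    by_contra hn
    push Not at hn
    have h3 : ∀ j, (2 * τ) ^ 2 * c j ^ 2 ≤ (e j - E) ^ 2 * c j ^ 2 := by
      intro j
      have : (2 * τ) ^ 2 ≤ (e j - E) ^ 2 := by
        rw [← sq_abs (e j - E)]
        exact pow_le_pow_left₀ (by positivity) (hn j).le 2
      exact mul_le_mul_of_nonneg_right this (sq_nonneg _)
    have h4 := Finset.sum_le_sum fun j (_ : j ∈ Finset.univ) => h3 j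
    rw [← Finset.mul_sum, hsum, mul_one] at h4
    nlinarith [sq_pos_of_pos hτ]
  set J : Finset (Fin (Finset.Icc (-(L' : ℤ)) L').card) :=
    Finset.univ.filter fun j => e j = e j0 with hJ
  obtain ⟨p, hp⟩ : ∃ p : ℝ, p = ∑ j ∈ J, c j ^ 2 := ⟨_, rfl⟩
  have hfar : ∀ j, j ∉ J → (d / 2) ^ 2 ≤ (e j - E) ^ 2 := by
    intro j hj
    have hne : e j ≠ e j0 := by
      intro h
      exact hj (by rw [hJ, Finset.mem_filter]; exact ⟨Finset.mem_univ _, h⟩)
    have h3 : d < |e j - e j0| := by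
      by_contra hle
      exact hbad ⟨e j, φ j, e j0, φ j0, hφ j, hφ j0, hne, not_lt.1 hle⟩
    have h4 : d / 2 ≤ |e j - E| := by
      have : |e j - e j0| ≤ |e j - E| + |e j0 - E| := by
        rw [abs_sub_comm (e j0) E]
        exact abs_sub_le _ _ _
      linarith
    rw [← sq_abs (e j - E)]
    exact pow_le_pow_left₀ (by linarith) h4 2
  have hd : 0 < d := by linarith
  have hsplit : p + ∑ j ∈ Finset.univ \ J, c j ^ 2 = 1 := by
    rw [hp, ← hsum, add_comm]
    exact Finset.sum_sdiff (Finset.subset_univ J)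
  have htail : (d / 2) ^ 2 * (1 - p) ≤ 2 * τ ^ 2 := by
    have h3 : 1 - p = ∑ j ∈ Finset.univ \ J, c j ^ 2 := by linarith
    rw [h3, Finset.mul_sum]
    refine le_trans (Finset.sum_le_sum fun j hj => ?_) ((Finset.sum_le_sum_of_subset_of_nonneg
      (Finset.sdiff_subset) fun j _ _ => by positivity).trans hdef)
    rw [Finset.mem_sdiff] at hj
    exact mul_le_mul_of_nonneg_right (hfar j hj.2) (sq_nonneg _)
  have hp1 : 1 / 2 ≤ p := by
    have : 2 * τ ^ 2 ≤ (d / 2) ^ 2 * (1 / 2) := by nlinarith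
    have h3 : (d / 2) ^ 2 * (1 - p) ≤ (d / 2) ^ 2 * (1 / 2) := htail.trans this
    have h4 : 0 < (d / 2) ^ 2 := by positivity
    have := le_of_mul_le_mul_left h3 h4
    linarith
  have hp2 : p ≤ 1 := by
    have : 0 ≤ ∑ j ∈ Finset.univ \ J, c j ^ 2 := Finset.sum_nonneg fun j _ => sq_nonneg _
    linarith
  set r := Real.sqrt p with hr
  have hr2 : r ^ 2 = p := Real.sq_sqrt (by linarith)
  have hr0 : 0 < r := Real.sqrt_pos.2 (by linarith)
  -- the eigenvector
  set cc : Fin (Finset.Icc (-(L' : ℤ)) L').card → ℝ := fun j => if j ∈ J then c j / r else 0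
    with hcc
  set χ : ℤ → ℝ := fun n => ∑ j, cc j * φ j n with hχ
  have hccs : ∑ j, cc j ^ 2 = 1 := by
    have : ∑ j, cc j ^ 2 = ∑ j ∈ J, (c j / r) ^ 2 := by
      rw [← Finset.sum_subset (Finset.subset_univ J)]
      · refine Finset.sum_congr rfl fun j hj => ?_
        rw [hcc]; simp only; rw [if_pos hj]
      · intro j _ hj
        rw [hcc]; simp only; rw [if_neg hj]; norm_num
    rw [this]
    simp only [div_pow]
    rw [← Finset.sum_div, ← hp, hr2, div_self (by linarith)]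
  refine ⟨e j0, χ, ⟨?_, ?_, ?_⟩, hj0, ?_⟩
  · intro n hn
    rw [hχ]
    refine Finset.sum_eq_zero fun j _ => ?_
    rw [(hφ j).1 n hn, mul_zero]
  · unfold nsq
    rw [hχ, sum_sq_comb horth, hccs]
  · intro n hn1 hn2
    rw [hχ]
    simp only
    rw [← Finset.sum_add_distrib, Finset.mul_sum, ← Finset.sum_add_distrib, Finset.mul_sum]
    refine Finset.sum_congr rfl fun j _ => ?_
    by_cases hj : j ∈ J
    · have h3 := (hφ j).2.2 n hn1 hn2
      rw [hJ, Finset.mem_filter] at hj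
      rw [hj.2] at h3
      linear_combination cc j * h3
    · have : cc j = 0 := by rw [hcc]; simp only; rw [if_neg hj]
      rw [this]; ring
  · have h3 : ∀ n, ψ n - χ n = ∑ j, (c j - cc j) * φ j n := by
      intro n
      rw [(hex ψ hψz).1 n, hχ, hc]
      simp only
      rw [← Finset.sum_sub_distrib]
      refine Finset.sum_congr rfl fun j _ => ?_
      ring
    simp only [h3]
    rw [sum_sq_comb horth]
    have h4 : ∑ j, c j * cc j = r := by
      have : ∑ j, c j * cc j = ∑ j ∈ J, c j ^ 2 / r := by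
        rw [← Finset.sum_subset (Finset.subset_univ J)]
        · refine Finset.sum_congr rfl fun j hj => ?_
          rw [hcc]; simp only; rw [if_pos hj]; ring
        · intro j _ hj
          rw [hcc]; simp only; rw [if_neg hj]; norm_num
      rw [this, ← Finset.sum_div, ← hp, ← hr2]
      field_simp
    have h5 : ∑ j, (c j - cc j) ^ 2 = 2 - 2 * r := by
      have : ∀ j, (c j - cc j) ^ 2 = c j ^ 2 + cc j ^ 2 - 2 * (c j * cc j) := fun j => by ring
      simp only [this]
      rw [Finset.sum_sub_distrib, Finset.sum_add_distrib, ← Finset.mul_sum, hsum, hccs, h4]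
      ring
    rw [h5]
    have h6 : 1 - p ≤ 8 * τ ^ 2 / d ^ 2 := by
      rw [le_div_iff₀ (by positivity)]
      nlinarith
    have h7 : (4 * τ / d) ^ 2 = 2 * (8 * τ ^ 2 / d ^ 2) := by ring
    have h8 : 1 - r ≤ 1 - p := by
      have hr1 : r ≤ 1 := Real.sqrt_le_one.2 hp2
      nlinarith
    rw [h7]
    linarith

end Q235.PP
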