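import Pool.Agent.Q235.PP.Box

/-!
# The limit of a chain of eigenvectors (TaskChain)
-/

set_option autoImplicit false

open scoped BigOperators ENNReal
open MeasureTheory

namespace Q235.PP

open Pool.Agent.H695R3.PP

/-- Square summable real sequences. -/
abbrev LR := lp (fun _ : ℤ => ℝ) 2

theorem two_toReal : (2 : ℝ≥0∞).toReal = 2 := by simp

theorem summable_sq_LR (f : LR) : Summable fun n => f n ^ 2 := by
  have h := (lp.hasSum_norm (p := 2) (by simp) f).summable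
  refine h.congr fun n => ?_
  simp

theorem norm_sq_LR (f : LR) : ‖f‖ ^ 2 = ∑' n, f n ^ 2 := by
  have h := lp.norm_rpow_eq_tsum (p := 2) (by simp) f
  simp only [two_toReal] at h
  rw [← Real.rpow_natCast]
  push_cast
  rw [h]
  refine tsum_congr fun n => ?_
  simp

/-- Elements of `ℓ²` from sequences. -/
noncomputable def mkLR (f : ℤ → ℝ) (h : Summable fun n => f n ^ 2) : LR :=
  ⟨f, by
    refine (memℓp_gen_iff (by simp)).2 (h.congr fun n => ?_)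
    simp⟩

theorem summable_of_supp {a b : ℤ} {f : ℤ → ℝ} (h : ∀ n, n < a ∨ b < n → f n = 0) :
    Summable fun n => f n ^ 2 := by
  refine summable_of_ne_finset_zero (s := Finset.Icc a b) fun n hn => ?_
  rw [Finset.mem_Icc] at hn
  rw [h n (by omega)]
  norm_num

theorem tsum_of_supp {a b : ℤ} {f : ℤ → ℝ} (h : ∀ n, n < a ∨ b < n → f n = 0) :
    ∑' n, f n ^ 2 = ∑ n ∈ Finset.Icc a b, f n ^ 2 := by
  refine tsum_eq_sum (s := Finset.Icc a b) fun n hn => ?_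
  rw [Finset.mem_Icc] at hn
  rw [h n (by omega)]
  norm_num

theorem chain_step {V : ℤ → ℝ} {L : ℕ → ℕ} {a τ d : ℕ → ℝ} {k : ℕ} (hL : StrictMono L)
    (hpos : ∀ k, 0 < a k ∧ 0 < τ k ∧ 0 < d k) (hb1 : ¬ Bad1 (L k) (a k) (τ k) V)
    (hb2 : ¬ Bad2 (L (k + 1)) (d (k + 1)) V) (h4 : 4 * τ k ≤ d (k + 1))
    (ha : a (k + 1) + 4 * τ k / d (k + 1) ≤ a k) {E : ℝ} {ψ : ℤ → ℝ}
    (hψ : IsEig V (-(L k : ℤ)) (L k) E ψ) (h0 : a k ≤ |ψ 0|) :
    ∃ (E' : ℝ) (ψ' : ℤ → ℝ), IsEig V (-(L (k + 1) : ℤ)) (L (k + 1)) E' ψ' ∧ a (k + 1) ≤ |ψ' 0| ∧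
      |E' - E| ≤ 2 * τ k ∧
      ∑' n, (ψ n - ψ' n) ^ 2 ≤ (4 * τ k / d (k + 1)) ^ 2 := by
  have hLL : L k < L (k + 1) := hL (Nat.lt_succ_self k)
  have e1 : |ψ (L k)| ≤ τ k := by
    by_contra hn
    exact hb1 ⟨E, ψ, hψ, h0, Or.inl (not_le.1 hn).le⟩
  have e2 : |ψ (-(L k : ℤ))| ≤ τ k := by
    by_contra hn
    exact hb1 ⟨E, ψ, hψ, h0, Or.inr (not_le.1 hn).le⟩
  obtain ⟨E', ψ', h1, h2, h3⟩ := taskStep V (L k) (L (k + 1)) E (τ k) (d (k + 1)) ψ hLL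
    (hpos k).2.1 h4 hb2 hψ e1 e2
  have hz : ∀ n, n < -(L (k + 1) : ℤ) ∨ (L (k + 1) : ℤ) < n → ψ n - ψ' n = 0 := by
    intro n hn
    rw [hψ.1 n (by omega), h1.1 n hn, sub_zero]
  refine ⟨E', ψ', h1, ?_, h2, ?_⟩
  · have h5 : (ψ 0 - ψ' 0) ^ 2 ≤ (4 * τ k / d (k + 1)) ^ 2 := by
      refine le_trans ?_ h3
      refine Finset.single_le_sum (f := fun n => (ψ n - ψ' n) ^ 2) (fun i _ => sq_nonneg _) ?_
      rw [Finset.mem_Icc]; omega
    have hq : 0 ≤ 4 * τ k / d (k + 1) := by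
      have := (hpos k).2.1
      have := (hpos (k + 1)).2.2
      positivity
    have h6 : |ψ 0 - ψ' 0| ≤ 4 * τ k / d (k + 1) := abs_le_of_sq_le_sq h5 hq
    have h7 := abs_sub_abs_le_abs_sub (ψ 0) (ψ' 0)
    linarith
  · rw [tsum_of_supp hz]
    exact h3

theorem taskChain : TaskChain := by
  intro V L a τ d k₀ hL hpos hb1 hb2 h4 ha hs1 hs2 E ψ hψ h0
  -- the sequence
  let Good : ℕ → ℝ × (ℤ → ℝ) → Prop := fun j q =>
    IsEig V (-(L (k₀ + j) : ℤ)) (L (k₀ + j)) q.1 q.2 ∧ a (k₀ + j) ≤ |q.2 0|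
  have hstep : ∀ (j : ℕ) (q : {q : ℝ × (ℤ → ℝ) // Good j q}),
      ∃ q' : {q : ℝ × (ℤ → ℝ) // Good (j + 1) q}, |q'.1.1 - q.1.1| ≤ 2 * τ (k₀ + j) ∧
        ∑' n, (q.1.2 n - q'.1.2 n) ^ 2 ≤ (4 * τ (k₀ + j) / d (k₀ + j + 1)) ^ 2 := by
    rintro j ⟨⟨E, ψ⟩, h1, h2⟩
    obtain ⟨E', ψ', g1, g2, g3, g4⟩ := chain_step hL hpos (hb1 (k₀ + j) (by omega))
      (hb2 (k₀ + j) (by omega)) (h4 _ (by omega)) (ha _ (by omega)) h1 h2
    exact ⟨⟨(E', ψ'), g1, g2⟩, g3, g4⟩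
  choose nxt hn1 hn2 using hstep
  let u : (j : ℕ) → {q : ℝ × (ℤ → ℝ) // Good j q} :=
    fun j => Nat.rec ⟨(E, ψ), hψ, h0⟩ (fun j q => nxt j q) j
  have hu0 : (u 0).1 = (E, ψ) := rfl
  have hus : ∀ j, u (j + 1) = nxt j (u j) := fun j => rfl
  set e : ℕ → ℝ := fun j => (u j).1.1 with he
  set f : ℕ → ℤ → ℝ := fun j => (u j).1.2 with hf
  have hsupp : ∀ j n, n < -(L (k₀ + j) : ℤ) ∨ (L (k₀ + j) : ℤ) < n → f j n = 0 :=
    fun j n hn => (u j).2.1.1 n hn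
  have hed : ∀ j, |e (j + 1) - e j| ≤ 2 * τ (k₀ + j) := fun j => by
    have := hn1 j (u j)
    rw [← hus] at this
    exact this
  have hfd : ∀ j, ∑' n, (f j n - f (j + 1) n) ^ 2 ≤ (4 * τ (k₀ + j) / d (k₀ + j + 1)) ^ 2 :=
    fun j => by
      have := hn2 j (u j)
      rw [← hus] at this
      exact this
  set Ψ : ℕ → LR := fun j => mkLR (f j) (summable_of_supp (hsupp j)) with hΨ
  set s : ℕ → ℝ := fun j => 4 * (τ (k₀ + j) / d (k₀ + j + 1)) with hsd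
  have hs0 : ∀ j, 0 ≤ s j := by
    intro j
    have := (hpos (k₀ + j)).2.1
    have := (hpos (k₀ + j + 1)).2.2
    rw [hsd]
    positivity
  have hdist : ∀ j, dist (Ψ j) (Ψ j.succ) ≤ s j := by
    intro j
    rw [dist_eq_norm]
    refine abs_le_of_sq_le_sq' ?_ (hs0 j) |>.2
    rw [norm_sq_LR]
    have : s j = 4 * τ (k₀ + j) / d (k₀ + j + 1) := by rw [hsd]; ring
    rw [this]
    exact hfd j
  have hsum1 : Summable fun j => τ (k₀ + j) / d (k₀ + j + 1) := by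
    have := (summable_nat_add_iff k₀).2 hs1
    refine this.congr fun j => ?_
    rw [add_comm j k₀]
  have hsum : Summable s := hsum1.mul_left 4
  have hcau : CauchySeq Ψ := cauchySeq_of_dist_le_of_summable s hdist hsum
  obtain ⟨Φ, hΦ⟩ := cauchySeq_tendsto_of_complete hcau
  have hde : ∀ j, dist (e j) (e j.succ) ≤ 2 * τ (k₀ + j) := by
    intro j
    rw [Real.dist_eq, abs_sub_comm]
    exact hed j
  have hsum2 : Summable fun j => 2 * τ (k₀ + j) := by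
    have := (summable_nat_add_iff k₀).2 hs2
    refine (this.congr fun j => ?_).mul_left 2
    rw [add_comm j k₀]
  obtain ⟨e', he'⟩ := cauchySeq_tendsto_of_complete (cauchySeq_of_dist_le_of_summable _ hde hsum2)
  have hpt : ∀ n : ℤ, Filter.Tendsto (fun j => f j n) Filter.atTop (nhds (Φ n)) := by
    intro n
    rw [tendsto_iff_dist_tendsto_zero] at hΦ ⊢
    refine squeeze_zero (fun _ => dist_nonneg) (fun j => ?_) hΦ
    rw [dist_eq_norm, dist_eq_norm]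
    exact lp.norm_apply_le_norm (by simp) (Ψ j - Φ) n
  refine ⟨e', fun n => Φ n, summable_sq_LR Φ, fun n => ?_, ?_, ?_⟩
  · have h5 : Filter.Tendsto (fun j => f j (n + 1) + f j (n - 1) + V n * f j n) Filter.atTop
        (nhds (Φ (n + 1) + Φ (n - 1) + V n * Φ n)) :=
      ((hpt _).add (hpt _)).add ((hpt n).const_mul _)
    have h6 : Filter.Tendsto (fun j => e j * f j n) Filter.atTop (nhds (e' * Φ n)) :=
      he'.mul (hpt n)
    refine tendsto_nhds_unique_of_eventuallyEq h5 h6 ?_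
    obtain ⟨j0, hj0⟩ : ∃ j0 : ℕ, |n| ≤ j0 := ⟨n.natAbs, by simp⟩
    filter_upwards [Filter.eventually_ge_atTop j0] with j hj
    have h7 : k₀ + j ≤ L (k₀ + j) := hL.id_le (k₀ + j)
    have h8 := abs_le.1 hj0
    exact (u j).2.1.2.2 n (by omega) (by omega)
  · have := summable_sq_LR (Ψ 0 - Φ)
    exact this
  · have h5 : dist (Ψ 0) Φ ≤ tsum s := dist_le_tsum_of_dist_le_of_tendsto₀ s hdist hsum hΦ
    have h6 : tsum s = 4 * ∑' j, τ (k₀ + j) / d (k₀ + j + 1) := tsum_mul_left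
    have h7 : ‖Ψ 0 - Φ‖ ^ 2 ≤ (4 * ∑' j, τ (k₀ + j) / d (k₀ + j + 1)) ^ 2 := by
      rw [← h6, ← dist_eq_norm]
      exact pow_le_pow_left₀ dist_nonneg h5 2
    rw [norm_sq_LR] at h7
    exact h7

end Q235.PP
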