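import Pool.Agent.H695R3.PP.Stmts

/-!
# Closedness and measurability of spectral conditions (TaskClosed, TaskClosed2, TaskMeas)
-/

set_option autoImplicit false

open scoped BigOperators ENNReal
open MeasureTheory

namespace Q235.PP

open Pool.Agent.H695R3.PP

theorem eig_le_one {V : ℤ → ℝ} {a b : ℤ} {E : ℝ} {ψ : ℤ → ℝ} (h : IsEig V a b E ψ) (n : ℤ) :
    ψ n ^ 2 ≤ 1 := by
  by_cases hn : n ∈ Finset.Icc a b
  · have h1 := h.2.1
    unfold nsq at h1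
    rw [← h1]
    exact Finset.single_le_sum (f := fun n => ψ n ^ 2) (fun i _ => sq_nonneg _) hn
  · rw [Finset.mem_Icc] at hn
    have : ψ n = 0 := h.1 n (by omega)
    rw [this]; norm_num

theorem eig_abs_le_one {V : ℤ → ℝ} {a b : ℤ} {E : ℝ} {ψ : ℤ → ℝ} (h : IsEig V a b E ψ) (n : ℤ) :
    |ψ n| ≤ 1 := by
  have := eig_le_one h n
  exact abs_le_one_iff_mul_self_le_one.2 (by rw [← sq]; exact this)

/-- The compact set of candidates. -/
def KK (R : ℝ) : Set (ℝ × (ℤ → ℝ)) :=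
  Set.Icc (-R) R ×ˢ Set.pi Set.univ (fun _ : ℤ => Set.Icc (-1 : ℝ) 1)

theorem isCompact_KK (R : ℝ) : IsCompact (KK R) :=
  isCompact_Icc.prod (isCompact_univ_pi fun _ => isCompact_Icc)

theorem mem_KK {V : ℤ → ℝ} {a b : ℤ} {E R : ℝ} {ψ : ℤ → ℝ} (hE : |E| ≤ R)
    (h : IsEig V a b E ψ) : (E, ψ) ∈ KK R := by
  refine ⟨abs_le.1 hE, ?_⟩
  intro n _
  exact abs_le.1 (eig_abs_le_one h n)

theorem isClosed_proj {X Y : Type*} [TopologicalSpace X] [TopologicalSpace Y] {K : Set X}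
    (hK : IsCompact K) {S : Set (X × Y)} (hS : IsClosed S) :
    IsClosed {y : Y | ∃ x ∈ K, (x, y) ∈ S} := by
  haveI : CompactSpace K := isCompact_iff_compactSpace.1 hK
  have h1 : Continuous fun p : K × Y => ((p.1 : X), p.2) :=
    (continuous_subtype_val.comp continuous_fst).prodMk continuous_snd
  have h2 : IsClosed ((fun p : K × Y => ((p.1 : X), p.2)) ⁻¹' S) := hS.preimage h1
  have h3 := isClosedMap_snd_of_compactSpace (X := K) (Y := Y) _ h2
  convert h3 using 1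
  ext y
  constructor
  · rintro ⟨x, hx, hxy⟩
    exact ⟨(⟨x, hx⟩, y), hxy, rfl⟩
  · rintro ⟨⟨x, y'⟩, hxy, rfl⟩
    exact ⟨x, x.2, hxy⟩

theorem isClosed_isEig (a b : ℤ) {Z : Type*} [TopologicalSpace Z] {V ψ : Z → ℤ → ℝ} {E : Z → ℝ}
    (hV : Continuous V) (hψ : Continuous ψ) (hE : Continuous E) :
    IsClosed {z : Z | IsEig (V z) a b (E z) (ψ z)} := by
  have hψ' : ∀ n, Continuous fun z => ψ z n := fun n => (continuous_apply n).comp hψ
  have hV' : ∀ n, Continuous fun z => V z n := fun n => (continuous_apply n).comp hV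
  unfold IsEig nsq
  refine IsClosed.inter ?_ (IsClosed.inter ?_ ?_)
  · have : {z : Z | ∀ n, n < a ∨ b < n → ψ z n = 0} =
        ⋂ n : ℤ, ⋂ _ : n < a ∨ b < n, {z | ψ z n = 0} := by
      ext z; simp
    rw [show (fun z => ∀ n, n < a ∨ b < n → ψ z n = 0) =
      {z : Z | ∀ n, n < a ∨ b < n → ψ z n = 0} from rfl, this]
    exact isClosed_iInter fun n => isClosed_iInter fun _ => isClosed_eq (hψ' n) continuous_const
  · exact isClosed_eq (continuous_finset_sum _ fun n _ => (hψ' n).pow 2) continuous_const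
  · have : {z : Z | ∀ n, a ≤ n → n ≤ b → ψ z (n + 1) + ψ z (n - 1) + V z n * ψ z n =
        E z * ψ z n} = ⋂ n : ℤ, ⋂ _ : a ≤ n, ⋂ _ : n ≤ b,
          {z | ψ z (n + 1) + ψ z (n - 1) + V z n * ψ z n = E z * ψ z n} := by
      ext z; simp
    rw [show (fun z => ∀ n, a ≤ n → n ≤ b → ψ z (n + 1) + ψ z (n - 1) + V z n * ψ z n =
        E z * ψ z n) = {z : Z | ∀ n, a ≤ n → n ≤ b → ψ z (n + 1) + ψ z (n - 1) + V z n * ψ z n =
        E z * ψ z n} from rfl, this]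
    exact isClosed_iInter fun n => isClosed_iInter fun _ => isClosed_iInter fun _ =>
      isClosed_eq (((hψ' _).add (hψ' _)).add ((hV' n).mul (hψ' n))) (hE.mul (hψ' n))

theorem taskClosed : TaskClosed := by
  intro a b R C hC
  set S : Set ((ℝ × (ℤ → ℝ)) × (ℤ → ℝ)) := {q | IsEig q.2 a b q.1.1 q.1.2} ∩ C with hS
  have hSc : IsClosed S := (isClosed_isEig a b continuous_snd
    (continuous_snd.comp continuous_fst) (continuous_fst.comp continuous_fst)).inter hC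
  have := isClosed_proj (isCompact_KK R) hSc
  convert this using 1
  ext V
  constructor
  · rintro ⟨E, ψ, hE, h, hC'⟩
    exact ⟨(E, ψ), mem_KK hE h, h, hC'⟩
  · rintro ⟨⟨E, ψ⟩, hK, h, hC'⟩
    exact ⟨E, ψ, abs_le.2 hK.1, h, hC'⟩

theorem taskClosed2 : TaskClosed2 := by
  intro a b a' b' R C hC
  set S : Set (((ℝ × (ℤ → ℝ)) × (ℝ × (ℤ → ℝ))) × (ℤ → ℝ)) :=
    ({q | IsEig q.2 a b q.1.1.1 q.1.1.2} ∩ {q | IsEig q.2 a' b' q.1.2.1 q.1.2.2}) ∩
      {q | q.1 ∈ C} with hS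
  have hSc : IsClosed S := by
    refine (IsClosed.inter ?_ ?_).inter (hC.preimage continuous_fst)
    · exact isClosed_isEig a b continuous_snd (by fun_prop) (by fun_prop)
    · exact isClosed_isEig a' b' continuous_snd (by fun_prop) (by fun_prop)
  have := isClosed_proj ((isCompact_KK R).prod (isCompact_KK R)) hSc
  convert this using 1
  ext V
  constructor
  · rintro ⟨E, ψ, E', ψ', hE, hE', h, h', hC'⟩
    exact ⟨((E, ψ), (E', ψ')), ⟨mem_KK hE h, mem_KK hE' h'⟩, ⟨h, h'⟩, hC'⟩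
  · rintro ⟨⟨⟨E, ψ⟩, ⟨E', ψ'⟩⟩, hK, ⟨h, h'⟩, hC'⟩
    exact ⟨E, ψ, E', ψ', abs_le.2 hK.1.1, abs_le.2 hK.2.1, h, h', hC'⟩

theorem taskMeas : TaskMeas := by
  constructor
  · intro L a τ
    have : {V : ℤ → ℝ | Bad1 L a τ V} = ⋃ R : ℕ, {V : ℤ → ℝ | ∃ E ψ, |E| ≤ (R : ℝ) ∧
        IsEig V (-(L : ℤ)) L E ψ ∧ ((E, ψ), V) ∈ {q : (ℝ × (ℤ → ℝ)) × (ℤ → ℝ) |
          a ≤ |q.1.2 0| ∧ (τ ≤ |q.1.2 L| ∨ τ ≤ |q.1.2 (-(L : ℤ))|)}} := by
      ext V
      simp only [Set.mem_iUnion, Set.mem_ofPred_eq]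
      constructor
      · rintro ⟨E, ψ, h1, h2, h3⟩
        obtain ⟨R, hR⟩ := exists_nat_ge |E|
        exact ⟨R, E, ψ, hR, h1, h2, h3⟩
      · rintro ⟨R, E, ψ, -, h1, h2, h3⟩
        exact ⟨E, ψ, h1, h2, h3⟩
    rw [this]
    refine MeasurableSet.iUnion fun R => (taskClosed _ _ _ _ ?_).measurableSet
    have hc : ∀ n : ℤ, Continuous fun q : (ℝ × (ℤ → ℝ)) × (ℤ → ℝ) => |q.1.2 n| := fun n =>
      ((continuous_apply n).comp (continuous_snd.comp continuous_fst)).abs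
    exact (isClosed_le continuous_const (hc 0)).inter
      ((isClosed_le continuous_const (hc L)).union (isClosed_le continuous_const (hc (-(L : ℤ)))))
  · intro L d
    have : {V : ℤ → ℝ | Bad2 L d V} = ⋃ R : ℕ, ⋃ n : ℕ, {V : ℤ → ℝ | ∃ E ψ E' ψ',
        |E| ≤ (R : ℝ) ∧ |E'| ≤ (R : ℝ) ∧ IsEig V (-(L : ℤ)) L E ψ ∧ IsEig V (-(L : ℤ)) L E' ψ' ∧
        ((E, ψ), (E', ψ')) ∈ {q : (ℝ × (ℤ → ℝ)) × (ℝ × (ℤ → ℝ)) |
          1 / ((n : ℝ) + 1) ≤ |q.1.1 - q.2.1| ∧ |q.1.1 - q.2.1| ≤ d}} := by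
      ext V
      simp only [Set.mem_iUnion, Set.mem_ofPred_eq]
      constructor
      · rintro ⟨E, ψ, E', ψ', h1, h2, h3, h4⟩
        obtain ⟨R, hR⟩ := exists_nat_ge (max |E| |E'|)
        obtain ⟨n, hn⟩ := exists_nat_one_div_lt (abs_pos.2 (sub_ne_zero.2 h3))
        exact ⟨R, n, E, ψ, E', ψ', (le_max_left _ _).trans hR, (le_max_right _ _).trans hR,
          h1, h2, hn.le, h4⟩
      · rintro ⟨R, n, E, ψ, E', ψ', -, -, h1, h2, h3, h4⟩
        refine ⟨E, ψ, E', ψ', h1, h2, ?_, h4⟩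
        rintro rfl
        rw [sub_self, abs_zero] at h3
        have : (0 : ℝ) < 1 / ((n : ℝ) + 1) := by positivity
        linarith
    rw [this]
    refine MeasurableSet.iUnion fun R => MeasurableSet.iUnion fun n =>
      (taskClosed2 _ _ _ _ _ _ ?_).measurableSet
    have hc : Continuous fun q : (ℝ × (ℤ → ℝ)) × (ℝ × (ℤ → ℝ)) => |q.1.1 - q.2.1| := by
      fun_prop
    exact (isClosed_le continuous_const hc).inter (isClosed_le hc continuous_const)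

end Q235.PP
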