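import Pool.Agent.H695R3.PP.Stmts

/-!
# Inversion is an isometry (TaskIso)
-/

set_option autoImplicit false

open scoped BigOperators ENNReal
open MeasureTheory

namespace Q235.PP

open Pool.Agent.H695R3.PP

theorem sq_factor (z : ℝ) (x : ℝ≥0∞) :
    (ENNReal.ofReal |z|⁻¹ * x) ^ 2 = ENNReal.ofReal |(z ^ 2)⁻¹| * x ^ 2 := by
  rw [mul_pow, ← ENNReal.ofReal_pow (by positivity)]
  congr 2
  rw [abs_inv, abs_pow, inv_pow]

theorem inv_map_deriv (c : ℝ) (s : Set ℝ) (hs : ∀ z ∈ s, z ≠ 0) :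
    ∀ z ∈ s, HasDerivWithinAt (fun z : ℝ => c - z⁻¹) ((z ^ 2)⁻¹) s z := by
  intro z hz
  have h := ((hasDerivAt_inv (hs z hz)).const_sub c).hasDerivWithinAt (s := s)
  simpa using h

theorem inv_map_inj (c : ℝ) (s : Set ℝ) : Set.InjOn (fun z : ℝ => c - z⁻¹) s := by
  intro z _ w _ h
  have : z⁻¹ = w⁻¹ := by simpa using h
  exact inv_injective this

theorem taskIso : TaskIso := by
  intro c g _
  have key : ∀ s : Set ℝ, MeasurableSet s → (∀ z ∈ s, z ≠ 0) →
      ∫⁻ z in s, UR c g z ^ 2 = ∫⁻ y in (fun z : ℝ => c - z⁻¹) '' s, g y ^ 2 := by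
    intro s hs h0
    rw [lintegral_image_eq_lintegral_abs_deriv_mul hs (inv_map_deriv c s h0) (inv_map_inj c s)]
    refine lintegral_congr fun z => ?_
    unfold UR
    rw [sq_factor]
  constructor
  · unfold nsqL
    have h1 : ∫⁻ z in ({0} : Set ℝ)ᶜ, UR c g z ^ 2 = ∫⁻ z, UR c g z ^ 2 := by
      rw [restrict_compl_singleton]
    have h2 : (fun z : ℝ => c - z⁻¹) '' ({0} : Set ℝ)ᶜ = ({c} : Set ℝ)ᶜ := by
      ext y
      simp only [Set.mem_image, Set.mem_compl_iff, Set.mem_singleton_iff]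
      constructor
      · rintro ⟨z, hz, rfl⟩ h
        apply hz
        have : z⁻¹ = 0 := by linarith
        exact inv_eq_zero.1 this
      · intro h
        refine ⟨(c - y)⁻¹, ?_, by rw [inv_inv]; ring⟩
        intro h0
        have := inv_eq_zero.1 h0
        apply h; linarith
    have h3 : ∫⁻ y in ({c} : Set ℝ)ᶜ, g y ^ 2 = ∫⁻ y, g y ^ 2 := by
      rw [restrict_compl_singleton]
    rw [← h1, ← h3, ← h2]
    exact key _ (measurableSet_singleton _).compl (fun z hz => hz)
  · have hs : MeasurableSet {z : ℝ | 1 < |z|} := measurableSet_lt measurable_const measurable_id.abs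
    rw [key _ hs (fun z hz => by rintro rfl; simp at hz; linarith)]
    refine lintegral_mono_set ?_
    rintro _ ⟨z, hz, rfl⟩
    have hz1 : 1 < |z| := hz
    have h2 : |z⁻¹| ≤ 1 := by
      rw [abs_inv]
      exact inv_le_one_of_one_le₀ hz1.le
    have := abs_le.1 h2
    constructor <;> simp only <;> linarith

end Q235.PP
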