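import Pool.Agent.Q235.PP.Dich
import Pool.Agent.Q235.PP.Iso

/-!
# The contraction (TaskContr)
-/

set_option autoImplicit false

open scoped BigOperators ENNReal
open MeasureTheory

namespace Q235.PP

open Pool.Agent.H695R3.PP

theorem measurable_UR {g : ℝ → ℝ≥0∞} (hg : Measurable g) (c : ℝ) : Measurable (UR c g) := by
  unfold UR
  refine Measurable.mul ?_ (hg.comp (measurable_const.sub measurable_inv))
  exact (measurable_id.abs.inv).ennreal_ofReal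

theorem taskContr : TaskContr := by
  obtain ⟨C, hC1, hC⟩ := taskDich
  refine ⟨3 / (4 * (1 + C)), by positivity, ?_, ?_⟩
  · rw [div_le_iff₀ (by positivity)]
    linarith
  intro ε c₁ g hε hε1 hg
  have hcs : 3 / (4 * (1 + C)) * ε ^ 2 < 1 := by
    have h1 : 3 / (4 * (1 + C)) < 1 := by
      rw [div_lt_one (by positivity)]
      linarith
    have h2 : ε ^ 2 ≤ 1 := pow_le_one₀ hε.le hε1
    have h3 : 0 < 3 / (4 * (1 + C)) := by positivity
    nlinarith [sq_nonneg ε]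
  by_cases hfin : nsqL g = ⊤
  · rw [hfin, ENNReal.mul_top]
    · exact le_top
    · rw [Ne, ENNReal.ofReal_eq_zero, not_le]
      linarith
  obtain ⟨hm, hle, hmass, -⟩ := taskAvg ε g hε hε1 hg
  set h := avg ε g with hh
  set k := UR c₁ h with hk
  have hkm : Measurable k := measurable_UR hm c₁
  obtain ⟨hiso, hmk⟩ := taskIso c₁ h hm
  have hak : nsqL (avg ε k) ≤ nsqL k := nsqL_avg_le hkm ε
  have hkh : nsqL k = nsqL h := hiso
  have D1 := hC ε k (-2) hε hε1 hkm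
  have D2 := hC ε g (c₁ - 2) hε hε1 hg
  have e1 : Set.Icc (-2 : ℝ) (-2 + 4) = Set.Icc (-2) 2 := by norm_num
  have e2 : Set.Icc (c₁ - 2) (c₁ - 2 + 4) = Set.Icc (c₁ - 2) (c₁ + 2) := by
    congr 1; ring
  rw [e1] at D1
  rw [e2] at D2
  have hsum : nsqL k ≤ (∫⁻ z in Set.Icc (-2 : ℝ) 2, k z ^ 2) + ∫⁻ z in {z : ℝ | 1 < |z|}, k z ^ 2 := by
    unfold nsqL
    have hu : (Set.univ : Set ℝ) = Set.Icc (-2 : ℝ) 2 ∪ {z : ℝ | 1 < |z|} := by
      symm
      rw [Set.eq_univ_iff_forall]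
      intro z
      by_cases hz : 1 < |z|
      · right; exact hz
      · left
        have := abs_le.1 (not_lt.1 hz)
        exact ⟨by linarith [this.1], by linarith [this.2]⟩
    calc ∫⁻ x, k x ^ 2 = ∫⁻ x in Set.univ, k x ^ 2 := by rw [Measure.restrict_univ]
      _ ≤ _ := by
        rw [hu]
        exact lintegral_union_le _ _ _
  have hm2 : ∫⁻ z in {z : ℝ | 1 < |z|}, k z ^ 2 ≤ ∫⁻ y in Set.Icc (c₁ - 2) (c₁ + 2), g y ^ 2 :=
    hmk.trans (hmass c₁)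
  -- pass to real numbers
  have fN : nsqL g ≠ ⊤ := hfin
  have fh : nsqL h ≠ ⊤ := ne_top_of_le_ne_top fN hle
  have fk : nsqL k ≠ ⊤ := hkh ▸ fh
  have fa : nsqL (avg ε k) ≠ ⊤ := ne_top_of_le_ne_top fk hak
  have fm1 : ∫⁻ z in Set.Icc (-2 : ℝ) 2, k z ^ 2 ≠ ⊤ :=
    ne_top_of_le_ne_top fk (setLIntegral_le_lintegral _ _)
  have fmg : ∫⁻ y in Set.Icc (c₁ - 2) (c₁ + 2), g y ^ 2 ≠ ⊤ :=
    ne_top_of_le_ne_top fN (setLIntegral_le_lintegral _ _)
  obtain ⟨n, hn⟩ : ∃ n : ℝ, n = (nsqL g).toReal := ⟨_, rfl⟩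
  obtain ⟨b, hb⟩ : ∃ b : ℝ, b = (nsqL k).toReal := ⟨_, rfl⟩
  obtain ⟨a, ha⟩ : ∃ a : ℝ, a = (nsqL (avg ε k)).toReal := ⟨_, rfl⟩
  obtain ⟨m1, hm1⟩ : ∃ m1 : ℝ, m1 = (∫⁻ z in Set.Icc (-2 : ℝ) 2, k z ^ 2).toReal := ⟨_, rfl⟩
  obtain ⟨mg, hmg⟩ : ∃ mg : ℝ, mg = (∫⁻ y in Set.Icc (c₁ - 2) (c₁ + 2), g y ^ 2).toReal := ⟨_, rfl⟩
  have en : nsqL g = ENNReal.ofReal n := by rw [hn, ENNReal.ofReal_toReal fN]
  have eb : nsqL k = ENNReal.ofReal b := by rw [hb, ENNReal.ofReal_toReal fk]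
  have ea : nsqL (avg ε k) = ENNReal.ofReal a := by rw [ha, ENNReal.ofReal_toReal fa]
  have em1 : ∫⁻ z in Set.Icc (-2 : ℝ) 2, k z ^ 2 = ENNReal.ofReal m1 := by
    rw [hm1, ENNReal.ofReal_toReal fm1]
  have emg : ∫⁻ y in Set.Icc (c₁ - 2) (c₁ + 2), g y ^ 2 = ENNReal.ofReal mg := by
    rw [hmg, ENNReal.ofReal_toReal fmg]
  have n0 : 0 ≤ n := by rw [hn]; exact ENNReal.toReal_nonneg
  have b0 : 0 ≤ b := by rw [hb]; exact ENNReal.toReal_nonneg
  have a0 : 0 ≤ a := by rw [ha]; exact ENNReal.toReal_nonneg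
  have m10 : 0 ≤ m1 := by rw [hm1]; exact ENNReal.toReal_nonneg
  have mg0 : 0 ≤ mg := by rw [hmg]; exact ENNReal.toReal_nonneg
  have hK : 0 ≤ C / ε ^ 2 := by positivity
  have r1 : m1 + C / ε ^ 2 * a ≤ 1 / 8 * b + C / ε ^ 2 * b := by
    rw [em1, ea, eb, ← ENNReal.ofReal_mul hK, ← ENNReal.ofReal_mul hK,
      ← ENNReal.ofReal_mul (by norm_num), ← ENNReal.ofReal_add m10 (by positivity),
      ← ENNReal.ofReal_add (by positivity) (by positivity)] at D1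
    exact (ENNReal.ofReal_le_ofReal_iff (by positivity)).1 D1
  have r2 : mg + C / ε ^ 2 * b ≤ 1 / 8 * n + C / ε ^ 2 * n := by
    rw [emg, ← hkh, eb, en, ← ENNReal.ofReal_mul hK, ← ENNReal.ofReal_mul hK,
      ← ENNReal.ofReal_mul (by norm_num), ← ENNReal.ofReal_add mg0 (by positivity),
      ← ENNReal.ofReal_add (by positivity) (by positivity)] at D2
    exact (ENNReal.ofReal_le_ofReal_iff (by positivity)).1 D2
  have r3 : b ≤ m1 + mg := by
    have := hsum.trans (add_le_add le_rfl hm2)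
    rw [eb, em1, emg, ← ENNReal.ofReal_add m10 mg0] at this
    exact (ENNReal.ofReal_le_ofReal_iff (by positivity)).1 this
  have r4 : a ≤ b := by
    rw [ea, eb] at hak
    exact (ENNReal.ofReal_le_ofReal_iff b0).1 hak
  have r5 : b ≤ n := by
    rw [← hkh, eb, en] at hle
    exact (ENNReal.ofReal_le_ofReal_iff n0).1 hle
  rw [ea, en, ← ENNReal.ofReal_mul (by linarith)]
  refine ENNReal.ofReal_le_ofReal ?_
  -- a (1 + K) ≤ n (1/4 + K)
  set K := C / ε ^ 2 with hKd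
  have r6 : a * (1 + K) ≤ n * (1 / 4 + K) := by nlinarith
  have hKe : 1 + K ≤ (1 + C) / ε ^ 2 := by
    rw [hKd, add_div]
    have : 1 ≤ 1 / ε ^ 2 := by
      rw [le_div_iff₀ (by positivity)]
      have : ε ^ 2 ≤ 1 := pow_le_one₀ hε.le hε1
      linarith
    linarith
  have h1K : 0 < 1 + K := by positivity
  have r7 : 3 / (4 * (1 + C)) * ε ^ 2 * (1 + K) ≤ 3 / 4 := by
    calc 3 / (4 * (1 + C)) * ε ^ 2 * (1 + K) ≤ 3 / (4 * (1 + C)) * ε ^ 2 * ((1 + C) / ε ^ 2) := by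
          gcongr
      _ = 3 / 4 := by
          field_simp
  have r8 : a * (1 + K) ≤ (1 - 3 / (4 * (1 + C)) * ε ^ 2) * n * (1 + K) := by
    have : n * (1 / 4 + K) = n * (1 + K) - 3 / 4 * n := by ring
    nlinarith
  exact le_of_mul_le_mul_right r8 h1K

end Q235.PP
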