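import Pool.Agent.Q235.PP.Chain

/-!
# `δ₀` is in the closed span of the eigenvectors (TaskDelta) and the shift (TaskTop)
-/

set_option autoImplicit false

open scoped BigOperators ENNReal
open MeasureTheory

namespace Q235.PP

open Pool.Agent.H695R3.PP

/-- Square summable complex sequences. -/
noncomputable abbrev LC := lp (fun _ : ℤ => ℂ) 2

theorem norm_sq_LC (f : LC) : ‖f‖ ^ 2 = ∑' n, ‖f n‖ ^ 2 := by
  have h := lp.norm_rpow_eq_tsum (p := 2) (by simp) f
  simp only [two_toReal] at h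
  rw [← Real.rpow_natCast]
  push_cast
  rw [h]
  refine tsum_congr fun n => ?_
  simp

/-- Elements of `ℓ²` from real sequences. -/
noncomputable def mkLC (f : ℤ → ℝ) (h : Summable fun n => f n ^ 2) : LC :=
  ⟨fun n => (f n : ℂ), by
    refine (memℓp_gen_iff (by simp)).2 (h.congr fun n => ?_)
    simp⟩

theorem norm_sq_mkLC (f : ℤ → ℝ) (h : Summable fun n => f n ^ 2) :
    ‖mkLC f h‖ ^ 2 = ∑' n, f n ^ 2 := by
  rw [norm_sq_LC]
  refine tsum_congr fun n => ?_
  simp [mkLC]

theorem mkLC_apply (f : ℤ → ℝ) (h : Summable fun n => f n ^ 2) (n : ℤ) :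
    mkLC f h n = (f n : ℂ) := rfl

/-- Evaluation at a site. -/
noncomputable def ev (n : ℤ) : LC →ₗ[ℂ] ℂ where
  toFun f := f n
  map_add' f g := by simp
  map_smul' c f := by simp

theorem ev_apply (n : ℤ) (f : LC) : ev n f = f n := rfl

theorem ev_mk (n : ℤ) (f : ℤ → ℝ) (h : Summable fun n => f n ^ 2) :
    ev n (mkLC f h) = (f n : ℂ) := rfl

theorem ev_ext {f g : LC} (h : ∀ n, ev n f = ev n g) : f = g := by
  ext n
  exact h n

theorem taskDelta : TaskDelta := by
  intro V L a τ d hL hpos hb1 hb2 h4 ha hs1 hs2 hA hB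
  rw [← SetLike.mem_coe, Submodule.topologicalClosure_coe, Metric.mem_closure_iff]
  intro η hη
  have hA' : Filter.Tendsto (fun k => Real.sqrt ((2 * (L k : ℝ) + 1) * a k ^ 2)) Filter.atTop
      (nhds 0) := by
    have := (Real.continuous_sqrt.tendsto 0).comp hA
    rw [Real.sqrt_zero] at this
    exact this
  have hlim : Filter.Tendsto (fun k => Real.sqrt ((2 * (L k : ℝ) + 1) * a k ^ 2) +
      4 * ((2 * (L k : ℝ) + 1) * ∑' j, τ (k + j) / d (k + j + 1))) Filter.atTop (nhds 0) := by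
    have := hA'.add (hB.const_mul 4)
    simpa using this
  obtain ⟨K1, hK1⟩ := Filter.eventually_atTop.1 hb1
  obtain ⟨K2, hK2⟩ := Filter.eventually_atTop.1 hb2
  obtain ⟨K3, hK3⟩ := Filter.eventually_atTop.1 h4
  obtain ⟨K4, hK4⟩ := Filter.eventually_atTop.1 ha
  have hev := (hlim.eventually (gt_mem_nhds hη)).and (Filter.eventually_ge_atTop
    (max (max K1 K2) (max K3 K4)))
  obtain ⟨k, hk, hkK⟩ := hev.exists
  have hk1 : K1 ≤ k := by omega
  have hk2 : K2 ≤ k := by omega
  have hk3 : K3 ≤ k := by omega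
  have hk4 : K4 ≤ k := by omega
  set t : ℝ := ∑' j, τ (k + j) / d (k + j + 1) with ht
  obtain ⟨e, ψ, h1, h2, h3⟩ := taskCompl V (L k)
  set J : Finset (Fin (2 * L k + 1)) := Finset.univ.filter fun j => a k ≤ |ψ j 0| with hJ
  have hch : ∀ j : Fin (2 * L k + 1), ∃ (e' : ℝ) (φ : ℤ → ℝ), j ∈ J →
      Summable (fun n => φ n ^ 2) ∧
        (∀ n, φ (n + 1) + φ (n - 1) + V n * φ n = e' * φ n) ∧
        Summable (fun n => (ψ j n - φ n) ^ 2) ∧
        ∑' n, (ψ j n - φ n) ^ 2 ≤ (4 * t) ^ 2 := by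
    intro j
    by_cases hj : j ∈ J
    · rw [hJ, Finset.mem_filter] at hj
      obtain ⟨e', φ, g⟩ := taskChain V L a τ d k hL hpos (fun m hm => hK1 m (by omega))
        (fun m hm => hK2 m (by omega)) (fun m hm => hK3 m (by omega))
        (fun m hm => hK4 m (by omega)) hs1 hs2 (e j) (ψ j) (h1 j) hj.2
      exact ⟨e', φ, fun _ => g⟩
    · exact ⟨0, 0, fun h => absurd h hj⟩
  choose e' φ hφ using hch
  have hψs : ∀ j, Summable fun n => ψ j n ^ 2 := fun j => summable_of_supp (h1 j).1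
  -- everything in ℓ²
  let F : Fin (2 * L k + 1) → LC := fun j => if h : j ∈ J then mkLC (φ j) (hφ j h).1 else 0
  have hF : ∀ j ∈ J, F j ∈ EigSpan V := by
    intro j hj
    have : F j = mkLC (φ j) (hφ j hj).1 := dif_pos hj
    rw [this]
    refine Submodule.subset_span ⟨e' j, fun n => ?_⟩
    have := (hφ j hj).2.1 n
    have h5 : (((φ j (n + 1) + φ j (n - 1) + V n * φ j n : ℝ)) : ℂ) =
        ((e' j * φ j n : ℝ) : ℂ) := by rw [this]
    push_cast at h5
    exact h5
  let v : LC := ∑ j ∈ J, ((ψ j 0 : ℝ) : ℂ) • F j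
  have hv : v ∈ EigSpan V := Submodule.sum_mem _ fun j hj => Submodule.smul_mem _ _ (hF j hj)
  refine ⟨v, hv, ?_⟩
  let c : Fin (2 * L k + 1) → ℝ := fun j => if j ∈ J then 0 else ψ j 0
  let g : ℤ → ℝ := fun n => ∑ j, c j * ψ j n
  have hgz : ∀ n, n < -(L k : ℤ) ∨ (L k : ℤ) < n → g n = 0 := by
    intro n hn
    refine Finset.sum_eq_zero fun j _ => ?_
    rw [(h1 j).1 n hn, mul_zero]
  let D : Fin (2 * L k + 1) → LC := fun j => if h : j ∈ J then
    mkLC (fun n => ψ j n - φ j n) (hφ j h).2.2.1 else 0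
  have hdec : lp.single 2 (0 : ℤ) (1 : ℂ) - v = mkLC g (summable_of_supp hgz) +
      ∑ j ∈ J, ((ψ j 0 : ℝ) : ℂ) • D j := by
    refine ev_ext fun n => ?_
    rw [map_sub, map_add, ev_mk]
    have e1 : ev n (lp.single 2 (0 : ℤ) (1 : ℂ)) = ((if n = 0 then (1 : ℝ) else 0 : ℝ) : ℂ) := by
      rw [ev_apply, lp.single_apply]
      by_cases hn : n = 0
      · subst hn; simp
      · rw [if_neg hn]; simp [hn]
    have e2 : ev n v = ((∑ j ∈ J, ψ j 0 * φ j n : ℝ) : ℂ) := by
      have : ev n v = ∑ j ∈ J, ev n (((ψ j 0 : ℝ) : ℂ) • F j) := map_sum _ _ _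
      rw [this]
      push_cast
      refine Finset.sum_congr rfl fun j hj => ?_
      rw [map_smul, smul_eq_mul]
      congr 1
      have : F j = mkLC (φ j) (hφ j hj).1 := dif_pos hj
      rw [this, ev_mk]
    have e3 : ev n (∑ j ∈ J, ((ψ j 0 : ℝ) : ℂ) • D j) =
        ((∑ j ∈ J, ψ j 0 * (ψ j n - φ j n) : ℝ) : ℂ) := by
      rw [map_sum]
      push_cast
      refine Finset.sum_congr rfl fun j hj => ?_
      rw [map_smul, smul_eq_mul]
      congr 1
      have : D j = mkLC (fun n => ψ j n - φ j n) (hφ j hj).2.2.1 := dif_pos hj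
      rw [this, ev_mk]
      push_cast
      rfl
    rw [e1, e2, e3, h2 n]
    have e4 : g n = ∑ j, ψ j 0 * ψ j n - ∑ j ∈ J, ψ j 0 * ψ j n := by
      have h5 : ∑ j ∈ Finset.univ \ J, ψ j 0 * ψ j n + ∑ j ∈ J, ψ j 0 * ψ j n =
          ∑ j, ψ j 0 * ψ j n := Finset.sum_sdiff (Finset.subset_univ J)
      have h6 : g n = ∑ j ∈ Finset.univ \ J, ψ j 0 * ψ j n := by
        have h7 : ∑ j ∈ Finset.univ \ J, c j * ψ j n = ∑ j, c j * ψ j n :=
          Finset.sum_subset (Finset.sdiff_subset) (by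
            intro j _ hj
            have hjJ : j ∈ J := by
              by_contra hc
              exact hj (Finset.mem_sdiff.2 ⟨Finset.mem_univ _, hc⟩)
            have : c j = 0 := if_pos hjJ
            rw [this, zero_mul])
        have h8 : g n = ∑ j ∈ Finset.univ \ J, c j * ψ j n := h7.symm
        rw [h8]
        refine Finset.sum_congr rfl fun j hj => ?_
        have : c j = ψ j 0 := if_neg (Finset.mem_sdiff.1 hj).2
        rw [this]
      rw [h6, ← h5]
      ring
    rw [e4]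
    have e5 : ∑ j ∈ J, ψ j 0 * (ψ j n - φ j n) = ∑ j ∈ J, ψ j 0 * ψ j n -
        ∑ j ∈ J, ψ j 0 * φ j n := by
      rw [← Finset.sum_sub_distrib]
      exact Finset.sum_congr rfl fun j _ => by ring
    rw [e5]
    push_cast
    ring
  have hn1 : ‖mkLC g (summable_of_supp hgz)‖ ≤ Real.sqrt ((2 * (L k : ℝ) + 1) * a k ^ 2) := by
    refine Real.le_sqrt_of_sq_le ?_
    rw [norm_sq_mkLC, tsum_of_supp hgz, h3 c]
    have h5 : ∀ j, c j ^ 2 ≤ a k ^ 2 := by
      intro j
      by_cases hj : j ∈ J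
      · have : c j = 0 := if_pos hj
        rw [this]
        nlinarith [sq_nonneg (a k)]
      · have h6 : c j = ψ j 0 := if_neg hj
        rw [h6, ← sq_abs]
        rw [hJ, Finset.mem_filter, not_and] at hj
        exact pow_le_pow_left₀ (abs_nonneg _) (not_le.1 (hj (Finset.mem_univ _))).le 2
    calc ∑ j, c j ^ 2 ≤ ∑ _j : Fin (2 * L k + 1), a k ^ 2 := Finset.sum_le_sum fun j _ => h5 j
      _ = (2 * (L k : ℝ) + 1) * a k ^ 2 := by
          rw [Finset.sum_const, Finset.card_univ, Fintype.card_fin, nsmul_eq_mul]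
          push_cast; ring
  have ht0 : 0 ≤ t := by
    rw [ht]
    refine tsum_nonneg fun j => ?_
    have h5 := (hpos (k + j)).2.1
    have h6 := (hpos (k + j + 1)).2.2
    positivity
  have hn2 : ∀ j ∈ J, ‖((ψ j 0 : ℝ) : ℂ) • D j‖ ≤ 4 * t := by
    intro j hj
    have h5 : D j = mkLC (fun n => ψ j n - φ j n) (hφ j hj).2.2.1 := dif_pos hj
    have h6 : ‖D j‖ ≤ 4 * t := by
      rw [h5]
      refine abs_le_of_sq_le_sq' ?_ (by positivity) |>.2
      rw [norm_sq_mkLC]
      exact (hφ j hj).2.2.2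
    rw [norm_smul]
    have h7 : ‖((ψ j 0 : ℝ) : ℂ)‖ ≤ 1 := by
      rw [Complex.norm_real, Real.norm_eq_abs]
      have h8 : ψ j 0 ^ 2 ≤ 1 := by
        have h9 := (h1 j).2.1
        unfold nsq at h9
        rw [← h9]
        refine Finset.single_le_sum (f := fun n => ψ j n ^ 2) (fun i _ => sq_nonneg _) ?_
        rw [Finset.mem_Icc]; omega
      exact abs_le_one_iff_mul_self_le_one.2 (by rw [← sq]; exact h8)
    calc ‖((ψ j 0 : ℝ) : ℂ)‖ * ‖D j‖ ≤ 1 * (4 * t) :=
          mul_le_mul h7 h6 (norm_nonneg _) zero_le_one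
      _ = 4 * t := one_mul _
  rw [dist_eq_norm, hdec]
  refine lt_of_le_of_lt ?_ hk
  refine (norm_add_le _ _).trans (add_le_add hn1 ?_)
  refine (norm_sum_le _ _).trans ((Finset.sum_le_sum hn2).trans ?_)
  rw [Finset.sum_const, nsmul_eq_mul]
  have hcard : (J.card : ℝ) ≤ 2 * (L k : ℝ) + 1 := by
    have : J.card ≤ 2 * L k + 1 := by
      refine (Finset.card_le_univ J).trans ?_
      rw [Fintype.card_fin]
    exact_mod_cast this
  calc (J.card : ℝ) * (4 * t) ≤ (2 * (L k : ℝ) + 1) * (4 * t) := by gcongr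
    _ = _ := by ring

/-- The shift by `m`. -/
noncomputable def shiftLC (m : ℤ) : LC →ₗᵢ[ℂ] LC where
  toFun f := ⟨fun n => f (n - m), by
    refine (memℓp_gen_iff (by simp)).2 ?_
    have h := (lp.hasSum_norm (p := 2) (by simp) f).summable
    exact (Equiv.subRight m).summable_iff.2 h⟩
  map_add' f g := by
    refine ev_ext fun n => ?_
    rw [map_add]
    exact (map_add (ev (n - m)) f g)
  map_smul' c f := by
    refine ev_ext fun n => ?_
    rw [RingHom.id_apply, map_smul]
    exact (map_smul (ev (n - m)) c f)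
  norm_map' f := by
    refine (sq_eq_sq₀ (norm_nonneg _) (norm_nonneg _)).1 ?_
    rw [norm_sq_LC, norm_sq_LC]
    exact (Equiv.subRight m).tsum_eq fun n => ‖f n‖ ^ 2

theorem shiftLC_apply (m : ℤ) (f : LC) (n : ℤ) : shiftLC m f n = f (n - m) := rfl

theorem taskTop : TaskTop := by
  intro V h
  have hspan : ∀ (m : ℤ) (f : LC), f ∈ (EigSpan fun n => V (m + n)).topologicalClosure →
      shiftLC m f ∈ (EigSpan V).topologicalClosure := by
    intro m f hf
    have h1 : (EigSpan fun n => V (m + n)) ≤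
        (EigSpan V).comap (shiftLC m).toLinearMap := by
      unfold EigSpan
      rw [Submodule.span_le]
      rintro ψ ⟨E, hE⟩
      refine Submodule.subset_span ⟨E, fun n => ?_⟩
      have h3 := hE (n - m)
      have e1 : n - m + 1 = n + 1 - m := by ring
      have e2 : n - m - 1 = n - 1 - m := by ring
      have e3 : m + (n - m) = n := by ring
      simp only [e1, e2, e3] at h3
      exact h3
    rw [← SetLike.mem_coe, Submodule.topologicalClosure_coe] at hf ⊢
    exact map_mem_closure (shiftLC m).continuous hf fun x hx => h1 hx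
  have hsingle : ∀ (m : ℤ) (c : ℂ), (lp.single 2 m c : LC) ∈ (EigSpan V).topologicalClosure := by
    intro m c
    have h1 := hspan m _ (h m)
    have h2 : shiftLC m (lp.single 2 (0 : ℤ) (1 : ℂ)) = lp.single 2 m (1 : ℂ) := by
      ext n
      rw [shiftLC_apply, lp.single_apply, lp.single_apply]
      by_cases hn : n = m
      · subst hn; simp
      · have : n - m ≠ 0 := sub_ne_zero.2 hn
        rw [Pi.single_eq_of_ne this, Pi.single_eq_of_ne hn]
    rw [h2] at h1
    have h3 := Submodule.smul_mem _ c h1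
    rw [← lp.single_smul] at h3
    simpa using h3
  rw [eq_top_iff]
  intro f _
  have h1 := lp.hasSum_single (p := 2) (by simp) f
  refine (Submodule.isClosed_topologicalClosure (EigSpan V)).mem_of_tendsto h1
    (Filter.Eventually.of_forall fun s => ?_)
  exact Submodule.sum_mem _ fun m _ => hsingle m (f m)

end Q235.PP
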