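import Pool.Agent.Q235.PP.Avg

/-!
# Averaging loses a part of the norm unless the function is spread out (TaskDich)
-/

set_option autoImplicit false

open scoped BigOperators ENNReal
open MeasureTheory

namespace Q235.PP

open Pool.Agent.H695R3.PP

/-- The squared norm of the difference of a translate and the function. -/
noncomputable def rho (G : ℝ → ℝ) (t : ℝ) : ℝ≥0∞ :=
  ∫⁻ x, ENNReal.ofReal ((G (x + t) - G x) ^ 2)

theorem rho_shift (G : ℝ → ℝ) (a b : ℝ) :
    ∫⁻ x, ENNReal.ofReal ((G (x + a) - G (x + b)) ^ 2) = rho G (a - b) := by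
  unfold rho
  rw [← lintegral_add_right_eq_self (fun x => ENNReal.ofReal ((G (x + (a - b)) - G x) ^ 2)) b]
  refine lintegral_congr fun x => ?_
  congr 4
  ring

theorem rho_nsmul {G : ℝ → ℝ} (hG : Measurable G) (n : ℕ) (u : ℝ) :
    rho G (n * u) ≤ (n : ℝ≥0∞) ^ 2 * rho G u := by
  have hp : ∀ x : ℝ, ENNReal.ofReal ((G (x + n * u) - G x) ^ 2) ≤
      ∑ i ∈ Finset.range n, (n : ℝ≥0∞) *
        ENNReal.ofReal ((G (x + ((i : ℝ) + 1) * u) - G (x + (i : ℝ) * u)) ^ 2) := by
    intro x
    have h1 : G (x + n * u) - G x =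
        ∑ i ∈ Finset.range n, (G (x + ((i : ℝ) + 1) * u) - G (x + (i : ℝ) * u)) := by
      have := Finset.sum_range_sub (fun i : ℕ => G (x + (i : ℝ) * u)) n
      simp only [Nat.cast_add, Nat.cast_one, Nat.cast_zero, zero_mul, add_zero] at this
      exact this.symm
    have h2 : (G (x + n * u) - G x) ^ 2 ≤
        n * ∑ i ∈ Finset.range n, (G (x + ((i : ℝ) + 1) * u) - G (x + (i : ℝ) * u)) ^ 2 := by
      rw [h1]
      have := sq_sum_le_card_mul_sum_sq (s := Finset.range n)
        (f := fun i : ℕ => G (x + ((i : ℝ) + 1) * u) - G (x + (i : ℝ) * u))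
      simpa using this
    calc ENNReal.ofReal ((G (x + n * u) - G x) ^ 2)
        ≤ ENNReal.ofReal (n * ∑ i ∈ Finset.range n,
          (G (x + ((i : ℝ) + 1) * u) - G (x + (i : ℝ) * u)) ^ 2) := ENNReal.ofReal_le_ofReal h2
      _ = _ := by
          rw [ENNReal.ofReal_mul (Nat.cast_nonneg n), ENNReal.ofReal_natCast,
            ENNReal.ofReal_sum_of_nonneg (fun i _ => sq_nonneg _), Finset.mul_sum]
  have hm : ∀ i : ℕ, Measurable fun x : ℝ =>
      ENNReal.ofReal ((G (x + ((i : ℝ) + 1) * u) - G (x + (i : ℝ) * u)) ^ 2) := fun i =>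
    (((hG.comp (measurable_add_const _)).sub (hG.comp (measurable_add_const _))).pow_const
      2).ennreal_ofReal
  calc rho G (n * u) ≤ ∫⁻ x, ∑ i ∈ Finset.range n, (n : ℝ≥0∞) *
        ENNReal.ofReal ((G (x + ((i : ℝ) + 1) * u) - G (x + (i : ℝ) * u)) ^ 2) :=
        lintegral_mono hp
    _ = ∑ i ∈ Finset.range n, (n : ℝ≥0∞) * rho G u := by
        rw [lintegral_finsetSum _ (fun i _ => (hm i).const_mul _)]
        refine Finset.sum_congr rfl fun i _ => ?_
        rw [lintegral_const_mul _ (hm i), rho_shift]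
        congr 2
        ring
    _ = (n : ℝ≥0∞) ^ 2 * rho G u := by
        rw [Finset.sum_const, Finset.card_range, nsmul_eq_mul]
        ring

theorem rho_tri {G : ℝ → ℝ} (hG : Measurable G) (u v : ℝ) :
    rho G u ≤ 2 * rho G v + 2 * rho G (u - v) := by
  have hm : ∀ a b : ℝ, Measurable fun x : ℝ =>
      ENNReal.ofReal ((G (x + a) - G (x + b)) ^ 2) := fun a b =>
    (((hG.comp (measurable_add_const _)).sub (hG.comp (measurable_add_const _))).pow_const
      2).ennreal_ofReal
  have h0 : rho G v = ∫⁻ x, ENNReal.ofReal ((G (x + v) - G (x + 0)) ^ 2) := by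
    rw [rho_shift, sub_zero]
  rw [h0, ← rho_shift G u v, ← lintegral_const_mul _ (hm _ _), ← lintegral_const_mul _ (hm _ _),
    ← lintegral_add_left ((hm _ _).const_mul _)]
  unfold rho
  refine lintegral_mono fun x => ?_
  have h2 : (2 : ℝ≥0∞) = ENNReal.ofReal 2 := by simp
  rw [h2, ← ENNReal.ofReal_mul (by norm_num), ← ENNReal.ofReal_mul (by norm_num),
    ← ENNReal.ofReal_add (by positivity) (by positivity)]
  refine ENNReal.ofReal_le_ofReal ?_
  rw [add_zero]
  nlinarith [sq_nonneg ((G (x + v) - G x) - (G (x + u) - G (x + v)))]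

/-- The double average of `rho`. -/
noncomputable def dd (ε : ℝ) (G : ℝ → ℝ) : ℝ≥0∞ := ∫⁻ s, (∫⁻ s', rho G (ε * s - ε * s') ∂U) ∂U

theorem measurable_rho {G : ℝ → ℝ} (hG : Measurable G) : Measurable (rho G) := by
  unfold rho
  have : Measurable fun p : ℝ × ℝ => ENNReal.ofReal ((G (p.2 + p.1) - G p.2) ^ 2) :=
    (((hG.comp (measurable_snd.add measurable_fst)).sub (hG.comp measurable_snd)).pow_const
      2).ennreal_ofReal
  exact this.lintegral_prod_right'

theorem var_id {G : ℝ → ℝ} (hG : Measurable G) (h0 : ∀ x, 0 ≤ G x) (ε : ℝ) :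
    dd ε G + 2 * nsqL (avg ε fun x => ENNReal.ofReal (G x)) =
      2 * nsqL (fun x => ENNReal.ofReal (G x)) := by
  set H : ℝ → ℝ≥0∞ := fun x => ENNReal.ofReal (G x) with hH
  have hHm : Measurable H := hG.ennreal_ofReal
  have hm3 : Measurable fun q : ℝ × ℝ × ℝ =>
      ENNReal.ofReal ((G (q.1 + ε * q.2.1) - G (q.1 + ε * q.2.2)) ^ 2) := by
    refine (((hG.comp ?_).sub (hG.comp ?_)).pow_const 2).ennreal_ofReal
    · exact measurable_fst.add (measurable_const.mul (measurable_fst.comp measurable_snd))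
    · exact measurable_fst.add (measurable_const.mul (measurable_snd.comp measurable_snd))
  have h1 : dd ε G = ∫⁻ x, (∫⁻ s, (∫⁻ s',
      ENNReal.ofReal ((G (x + ε * s) - G (x + ε * s')) ^ 2) ∂U) ∂U) := by
    unfold dd
    have e1 : ∀ s : ℝ, ∫⁻ s', rho G (ε * s - ε * s') ∂U =
        ∫⁻ x, (∫⁻ s', ENNReal.ofReal ((G (x + ε * s) - G (x + ε * s')) ^ 2) ∂U) := by
      intro s
      rw [lintegral_lintegral_swap]
      · exact lintegral_congr fun s' => (rho_shift G _ _).symm
      · have : Measurable fun q : ℝ × ℝ => (q.1, s, q.2) :=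
          measurable_fst.prodMk (measurable_const.prodMk measurable_snd)
        exact (hm3.comp this).aemeasurable
    rw [lintegral_congr e1, lintegral_lintegral_swap]
    have e2 : Measurable fun q : (ℝ × ℝ) × ℝ =>
        ENNReal.ofReal ((G (q.1.2 + ε * q.1.1) - G (q.1.2 + ε * q.2)) ^ 2) := by
      have : Measurable fun q : (ℝ × ℝ) × ℝ => (q.1.2, q.1.1, q.2) :=
        (measurable_snd.comp measurable_fst).prodMk
          ((measurable_fst.comp measurable_fst).prodMk measurable_snd)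
      exact hm3.comp this
    exact (e2.lintegral_prod_right').aemeasurable
  have h2 : nsqL (avg ε H) = ∫⁻ x, (∫⁻ s, (∫⁻ s', H (x + ε * s) * H (x + ε * s') ∂U) ∂U) := by
    unfold nsqL
    refine lintegral_congr fun x => ?_
    have hx : Measurable fun s => H (x + ε * s) :=
      hHm.comp (measurable_const.add (measurable_const.mul measurable_id))
    have : ∀ s, ∫⁻ s', H (x + ε * s) * H (x + ε * s') ∂U = H (x + ε * s) * avg ε H x := by
      intro s
      rw [lintegral_const_mul _ hx]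
      rfl
    rw [lintegral_congr this, lintegral_mul_const _ hx, sq]
    rfl
  have h3 : nsqL H = ∫⁻ x, (∫⁻ s, H (x + ε * s) ^ 2 ∂U) := by
    rw [lintegral_lintegral_swap ((measurable_shift hHm ε).pow_const 2).aemeasurable]
    have : ∀ s : ℝ, ∫⁻ x, H (x + ε * s) ^ 2 = nsqL H := fun s =>
      lintegral_add_right_eq_self (fun x => H x ^ 2) (ε * s)
    rw [lintegral_congr this]
    simp
  have hm1 : Measurable fun q : ℝ × ℝ × ℝ => H (q.1 + ε * q.2.1) * H (q.1 + ε * q.2.2) := by
    refine (hHm.comp ?_).mul (hHm.comp ?_)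
    · exact measurable_fst.add (measurable_const.mul (measurable_fst.comp measurable_snd))
    · exact measurable_fst.add (measurable_const.mul (measurable_snd.comp measurable_snd))
  have key : ∀ x : ℝ, (∫⁻ s, (∫⁻ s',
      ENNReal.ofReal ((G (x + ε * s) - G (x + ε * s')) ^ 2) ∂U) ∂U) +
      2 * (∫⁻ s, (∫⁻ s', H (x + ε * s) * H (x + ε * s') ∂U) ∂U) =
      2 * (∫⁻ s, H (x + ε * s) ^ 2 ∂U) := by
    intro x
    have hx : Measurable fun s => H (x + ε * s) :=
      hHm.comp (measurable_const.add (measurable_const.mul measurable_id))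
    have a1 : ∀ s s' : ℝ, ENNReal.ofReal ((G (x + ε * s) - G (x + ε * s')) ^ 2) +
        2 * (H (x + ε * s) * H (x + ε * s')) = H (x + ε * s) ^ 2 + H (x + ε * s') ^ 2 := by
      intro s s'
      have h2 : (2 : ℝ≥0∞) = ENNReal.ofReal 2 := by simp
      simp only [hH]
      rw [h2, ← ENNReal.ofReal_mul (h0 _), ← ENNReal.ofReal_mul (by norm_num),
        ← ENNReal.ofReal_add (by positivity) (by have := h0 (x + ε * s); have := h0 (x + ε * s'); positivity),
        ← ENNReal.ofReal_pow (h0 _), ← ENNReal.ofReal_pow (h0 _),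
        ← ENNReal.ofReal_add (by positivity) (by positivity)]
      congr 1
      ring
    have mD : ∀ s, Measurable fun s' =>
        ENNReal.ofReal ((G (x + ε * s) - G (x + ε * s')) ^ 2) := fun s => by
      have : Measurable fun s' : ℝ => ((x, s, s') : ℝ × ℝ × ℝ) :=
        measurable_const.prodMk (measurable_const.prodMk measurable_id)
      exact hm3.comp this
    have mD2 : Measurable fun s => ∫⁻ s',
        ENNReal.ofReal ((G (x + ε * s) - G (x + ε * s')) ^ 2) ∂U := by
      have : Measurable fun q : ℝ × ℝ => ((x, q.1, q.2) : ℝ × ℝ × ℝ) :=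
        measurable_const.prodMk (measurable_fst.prodMk measurable_snd)
      exact (hm3.comp this).lintegral_prod_right'
    have mP : ∀ s, Measurable fun s' => H (x + ε * s) * H (x + ε * s') := fun s =>
      hx.const_mul _
    have mP2 : Measurable fun s => ∫⁻ s', H (x + ε * s) * H (x + ε * s') ∂U := by
      have : Measurable fun q : ℝ × ℝ => ((x, q.1, q.2) : ℝ × ℝ × ℝ) :=
        measurable_const.prodMk (measurable_fst.prodMk measurable_snd)
      exact (hm1.comp this).lintegral_prod_right'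
    rw [← lintegral_const_mul _ mP2, ← lintegral_add_left mD2]
    have a2 : ∀ s, (∫⁻ s', ENNReal.ofReal ((G (x + ε * s) - G (x + ε * s')) ^ 2) ∂U) +
        2 * (∫⁻ s', H (x + ε * s) * H (x + ε * s') ∂U) =
        H (x + ε * s) ^ 2 + ∫⁻ s', H (x + ε * s') ^ 2 ∂U := by
      intro s
      rw [← lintegral_const_mul _ (mP s), ← lintegral_add_left (mD s), lintegral_congr (a1 s),
        lintegral_add_left measurable_const]
      simp
    rw [lintegral_congr a2, lintegral_add_left (hx.pow_const 2)]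
    simp only [lintegral_const, measure_univ, mul_one]
    rw [two_mul]
  have hq : Measurable fun q : (ℝ × ℝ) × ℝ => ((q.1.1, q.1.2, q.2) : ℝ × ℝ × ℝ) :=
    (measurable_fst.comp measurable_fst).prodMk
      ((measurable_snd.comp measurable_fst).prodMk measurable_snd)
  have mA : Measurable fun x => ∫⁻ s, (∫⁻ s',
      ENNReal.ofReal ((G (x + ε * s) - G (x + ε * s')) ^ 2) ∂U) ∂U := by
    have h1 : Measurable fun q : (ℝ × ℝ) × ℝ =>
      ENNReal.ofReal ((G (q.1.1 + ε * q.1.2) - G (q.1.1 + ε * q.2)) ^ 2) := hm3.comp hq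
    have h2 : Measurable fun p : ℝ × ℝ => ∫⁻ s',
      ENNReal.ofReal ((G (p.1 + ε * p.2) - G (p.1 + ε * s')) ^ 2) ∂U := h1.lintegral_prod_right'
    exact h2.lintegral_prod_right'
  have mB : Measurable fun x => ∫⁻ s, (∫⁻ s', H (x + ε * s) * H (x + ε * s') ∂U) ∂U := by
    have h1 : Measurable fun q : (ℝ × ℝ) × ℝ => H (q.1.1 + ε * q.1.2) * H (q.1.1 + ε * q.2) :=
      hm1.comp hq
    have h2 : Measurable fun p : ℝ × ℝ => ∫⁻ s', H (p.1 + ε * p.2) * H (p.1 + ε * s') ∂U :=
      h1.lintegral_prod_right'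
    exact h2.lintegral_prod_right'
  have mC : Measurable fun x => ∫⁻ s, H (x + ε * s) ^ 2 ∂U :=
    ((measurable_shift hHm ε).pow_const 2).lintegral_prod_right'
  rw [h1, h2, h3, ← lintegral_const_mul _ mB, ← lintegral_const_mul _ mC, ← lintegral_add_left mA]
  exact lintegral_congr key

theorem rho_neg (G : ℝ → ℝ) (t : ℝ) : rho G (-t) = rho G t := by
  have h1 : rho G (-t) = ∫⁻ x, ENNReal.ofReal ((G (x + 0) - G (x + t)) ^ 2) := by
    rw [rho_shift, zero_sub]
  have h2 : rho G t = ∫⁻ x, ENNReal.ofReal ((G (x + t) - G (x + 0)) ^ 2) := by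
    rw [rho_shift, sub_zero]
  rw [h1, h2]
  refine lintegral_congr fun x => ?_
  congr 1
  ring

theorem shift_le (f : ℝ → ℝ≥0∞) {w : ℝ} (h0 : 0 ≤ w) (h1 : w ≤ 1) :
    ∫⁻ s in Set.Icc (-1 : ℝ) 0, f (s + w) ≤ ∫⁻ s in Set.Icc (-1 : ℝ) 1, f s := by
  rw [← lintegral_indicator measurableSet_Icc, ← lintegral_indicator measurableSet_Icc,
    ← lintegral_add_right_eq_self ((Set.Icc (-1 : ℝ) 1).indicator f) w]
  refine lintegral_mono fun s => ?_
  by_cases hs : s ∈ Set.Icc (-1 : ℝ) 0
  · rw [Set.indicator_of_mem hs, Set.indicator_of_mem]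
    exact ⟨by linarith [hs.1], by linarith [hs.2]⟩
  · rw [Set.indicator_of_notMem hs]
    exact bot_le

theorem rho_le_dd {G : ℝ → ℝ} (hG : Measurable G) (ε : ℝ) {w : ℝ} (h0 : 0 ≤ w) (h1 : w ≤ 1) :
    rho G (ε * w) ≤ 8 * dd ε G := by
  have hr := measurable_rho hG
  have key : ∀ s : ℝ, rho G (ε * w) ≤ 8 * ∫⁻ s', rho G (ε * s - ε * s') ∂U := by
    intro s
    have hm1 : Measurable fun s' : ℝ => rho G (ε * s - ε * s') :=
      hr.comp (measurable_const.sub (measurable_const.mul measurable_id))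
    have hm2 : Measurable fun s' : ℝ => rho G (ε * s' - ε * s) :=
      hr.comp ((measurable_const.mul measurable_id).sub measurable_const)
    have hm3 : Measurable fun s' : ℝ => rho G (ε * (s' + w) - ε * s) :=
      hm2.comp (measurable_add_const w)
    have hv : volume (Set.Icc (-1 : ℝ) 0) = 1 := by
      rw [Real.volume_Icc]; simp
    have e2 : ∫⁻ s' in Set.Icc (-1 : ℝ) 1, rho G (ε * s' - ε * s) =
        ∫⁻ s' in Set.Icc (-1 : ℝ) 1, rho G (ε * s - ε * s') := by
      refine lintegral_congr fun s' => ?_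
      rw [← rho_neg]
      congr 1
      ring
    calc rho G (ε * w) = ∫⁻ _ in Set.Icc (-1 : ℝ) 0, rho G (ε * w) := by
          rw [lintegral_const, Measure.restrict_apply MeasurableSet.univ, Set.univ_inter, hv,
            mul_one]
      _ ≤ ∫⁻ s' in Set.Icc (-1 : ℝ) 0, (2 * rho G (ε * s - ε * s') +
            2 * rho G (ε * (s' + w) - ε * s)) := by
          refine lintegral_mono fun s' => ?_
          have := rho_tri hG (ε * w) (ε * s - ε * s')
          have e : ε * w - (ε * s - ε * s') = ε * (s' + w) - ε * s := by ring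
          rw [e] at this
          exact this
      _ = 2 * (∫⁻ s' in Set.Icc (-1 : ℝ) 0, rho G (ε * s - ε * s')) +
            2 * (∫⁻ s' in Set.Icc (-1 : ℝ) 0, rho G (ε * (s' + w) - ε * s)) := by
          rw [lintegral_add_left (hm1.const_mul _), lintegral_const_mul _ hm1,
            lintegral_const_mul _ hm3]
      _ ≤ 2 * (∫⁻ s' in Set.Icc (-1 : ℝ) 1, rho G (ε * s - ε * s')) +
            2 * (∫⁻ s' in Set.Icc (-1 : ℝ) 1, rho G (ε * s' - ε * s)) := by
          refine add_le_add (mul_le_mul_right ?_ 2) (mul_le_mul_right ?_ 2)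
          · exact lintegral_mono_set (Set.Icc_subset_Icc le_rfl zero_le_one)
          · exact shift_le (fun s' => rho G (ε * s' - ε * s)) h0 h1
      _ = 8 * ∫⁻ s', rho G (ε * s - ε * s') ∂U := by
          rw [e2, U_apply, ← mul_assoc]
          have : (8 : ℝ≥0∞) * ENNReal.ofReal (1 / 2) = 4 := by
            have h8 : (8 : ℝ≥0∞) = ENNReal.ofReal 8 := by simp
            have h4 : (4 : ℝ≥0∞) = ENNReal.ofReal 4 := by simp
            rw [h8, h4, ← ENNReal.ofReal_mul (by norm_num)]
            norm_num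
          rw [this, ← add_mul]
          norm_num
  have hm : Measurable fun s : ℝ => ∫⁻ s', rho G (ε * s - ε * s') ∂U := by
    have : Measurable fun q : ℝ × ℝ => rho G (ε * q.1 - ε * q.2) :=
      hr.comp ((measurable_const.mul measurable_fst).sub (measurable_const.mul measurable_snd))
    exact this.lintegral_prod_right'
  calc rho G (ε * w) = ∫⁻ _ : ℝ, rho G (ε * w) ∂U := by simp
    _ ≤ ∫⁻ s, 8 * (∫⁻ s', rho G (ε * s - ε * s') ∂U) ∂U := lintegral_mono fun s => key s
    _ = 8 * dd ε G := by rw [lintegral_const_mul _ hm]; rfl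

theorem mass_shift {G : ℝ → ℝ} (hG : Measurable G) (y t : ℝ) :
    ∫⁻ x in Set.Icc y (y + 4), ENNReal.ofReal (G x) ^ 2 ≤
      2 * (∫⁻ x in Set.Icc (y + t) (y + t + 4), ENNReal.ofReal (G x) ^ 2) + 2 * rho G t := by
  have e1 : ∫⁻ x in Set.Icc (y + t) (y + t + 4), ENNReal.ofReal (G x) ^ 2 =
      ∫⁻ x in Set.Icc y (y + 4), ENNReal.ofReal (G (x + t)) ^ 2 := by
    rw [← lintegral_indicator measurableSet_Icc, ← lintegral_indicator measurableSet_Icc,
      ← lintegral_add_right_eq_self _ t]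
    refine lintegral_congr fun x => ?_
    by_cases hx : x ∈ Set.Icc y (y + 4)
    · rw [Set.indicator_of_mem hx, Set.indicator_of_mem]
      exact ⟨by linarith [hx.1], by linarith [hx.2]⟩
    · rw [Set.indicator_of_notMem hx, Set.indicator_of_notMem]
      intro h
      exact hx ⟨by linarith [h.1], by linarith [h.2]⟩
  have hm1 : Measurable fun x => ENNReal.ofReal (G (x + t)) ^ 2 :=
    ((hG.comp (measurable_add_const t)).ennreal_ofReal).pow_const 2
  have hm2 : Measurable fun x => ENNReal.ofReal ((G (x + t) - G x) ^ 2) :=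
    (((hG.comp (measurable_add_const t)).sub hG).pow_const 2).ennreal_ofReal
  rw [e1]
  calc ∫⁻ x in Set.Icc y (y + 4), ENNReal.ofReal (G x) ^ 2
      ≤ ∫⁻ x in Set.Icc y (y + 4), (2 * ENNReal.ofReal (G (x + t)) ^ 2 +
          2 * ENNReal.ofReal ((G (x + t) - G x) ^ 2)) := by
        refine lintegral_mono fun x => ?_
        have h2 : (2 : ℝ≥0∞) = ENNReal.ofReal 2 := by simp
        have h3 : ∀ z : ℝ, ENNReal.ofReal z ^ 2 = ENNReal.ofReal ((max z 0) ^ 2) := by
          intro z
          rw [ENNReal.ofReal_pow (le_max_right _ _)]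
          congr 1
          rcases le_total z 0 with hz | hz
          · rw [max_eq_right hz, ENNReal.ofReal_of_nonpos hz, ENNReal.ofReal_zero]
          · rw [max_eq_left hz]
        simp only
        rw [h3, h3, h2, ← ENNReal.ofReal_mul (by norm_num), ← ENNReal.ofReal_mul (by norm_num),
          ← ENNReal.ofReal_add (by positivity) (by positivity)]
        refine ENNReal.ofReal_le_ofReal ?_
        have h4 : |max (G (x + t)) 0 - max (G x) 0| ≤ |G (x + t) - G x| :=
          abs_max_sub_max_le_abs _ _ _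
        have h5 : (max (G (x + t)) 0 - max (G x) 0) ^ 2 ≤ (G (x + t) - G x) ^ 2 :=
          sq_le_sq.2 h4
        nlinarith [sq_nonneg (2 * max (G (x + t)) 0 - max (G x) 0)]
    _ = 2 * (∫⁻ x in Set.Icc y (y + 4), ENNReal.ofReal (G (x + t)) ^ 2) +
          2 * ∫⁻ x in Set.Icc y (y + 4), ENNReal.ofReal ((G (x + t) - G x) ^ 2) := by
        rw [lintegral_add_left (hm1.const_mul _), lintegral_const_mul _ hm1,
          lintegral_const_mul _ hm2]
    _ ≤ _ := by
        gcongr
        exact setLIntegral_le_lintegral _ _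

theorem sum_mass (f : ℝ → ℝ≥0∞) (y : ℝ) :
    ∑ j ∈ Finset.range 16, ∫⁻ x in Set.Icc (y + 5 * (j : ℝ)) (y + 5 * (j : ℝ) + 4), f x ≤
      ∫⁻ x, f x := by
  have hd : Set.Pairwise (↑(Finset.range 16)) (Function.onFun Disjoint
      (fun j : ℕ => Set.Icc (y + 5 * (j : ℝ)) (y + 5 * (j : ℝ) + 4))) := by
    intro i _ j _ hij
    rw [Function.onFun, Set.disjoint_left]
    rintro x ⟨h1, h2⟩ ⟨h3, h4⟩
    have h5 : (i : ℝ) - j < 1 := by linarith
    have h6 : (j : ℝ) - i < 1 := by linarith
    apply hij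
    have h7 : (i : ℤ) - j < 1 := by exact_mod_cast h5
    have h8 : (j : ℤ) - i < 1 := by exact_mod_cast h6
    omega
  rw [← lintegral_biUnion_finset hd (fun _ _ => measurableSet_Icc)]
  exact setLIntegral_le_lintegral _ _

theorem dich_real {G : ℝ → ℝ} (hG : Measurable G) {ε : ℝ} (y : ℝ) (hε : 0 < ε)
    (hε1 : ε ≤ 1) : (∫⁻ x in Set.Icc y (y + 4), ENNReal.ofReal (G x) ^ 2) ≤
      ENNReal.ofReal (1 / 8) * nsqL (fun x => ENNReal.ofReal (G x)) +
        ENNReal.ofReal (129600 / ε ^ 2) * dd ε G := by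
  set n0 : ℕ := ⌈5 / ε⌉₊ with hn0
  have hn1 : (5 : ℝ) / ε ≤ n0 := Nat.le_ceil _
  have hn2 : (n0 : ℝ) < 5 / ε + 1 := Nat.ceil_lt_add_one (by positivity)
  have h5 : (5 : ℝ) ≤ 5 / ε := by rw [le_div_iff₀ hε]; nlinarith
  have hn3 : (n0 : ℝ) ≤ 6 / ε := by
    have : (1 : ℝ) ≤ 1 / ε := by rw [le_div_iff₀ hε]; linarith
    have e : (6 : ℝ) / ε = 5 / ε + 1 / ε := by ring
    linarith
  have hn0p : (0 : ℝ) < n0 := by linarith
  set w : ℝ := 5 / (n0 * ε) with hw
  have hw0 : 0 ≤ w := by positivity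
  have hw1 : w ≤ 1 := by
    rw [hw, div_le_one (by positivity)]
    rw [div_le_iff₀ hε] at hn1
    exact hn1
  have hwe : ∀ j : ℕ, (5 : ℝ) * j = ((j * n0 : ℕ) : ℝ) * (ε * w) := by
    intro j
    rw [hw]
    push_cast
    field_simp
  have hrho : ∀ j ∈ Finset.range 16, rho G (5 * (j : ℝ)) ≤
      ENNReal.ofReal (64800 / ε ^ 2) * dd ε G := by
    intro j hj
    rw [hwe j]
    refine (rho_nsmul hG _ _).trans ?_
    calc ((j * n0 : ℕ) : ℝ≥0∞) ^ 2 * rho G (ε * w)
        ≤ ((j * n0 : ℕ) : ℝ≥0∞) ^ 2 * (8 * dd ε G) := by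
          gcongr
          exact rho_le_dd hG ε hw0 hw1
      _ = (((j * n0 : ℕ) : ℝ≥0∞) ^ 2 * 8) * dd ε G := by ring
      _ ≤ ENNReal.ofReal (64800 / ε ^ 2) * dd ε G := by
          gcongr
          have h8 : (8 : ℝ≥0∞) = ENNReal.ofReal 8 := by simp
          rw [h8, ← ENNReal.ofReal_natCast, ← ENNReal.ofReal_pow (Nat.cast_nonneg _),
            ← ENNReal.ofReal_mul (by positivity)]
          refine ENNReal.ofReal_le_ofReal ?_
          have hj' : (j : ℝ) ≤ 15 := by
            have : j ≤ 15 := by have := Finset.mem_range.1 hj; omega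
            exact_mod_cast this
          have h1 : ((j * n0 : ℕ) : ℝ) ≤ 90 / ε := by
            push_cast
            calc (j : ℝ) * n0 ≤ 15 * (6 / ε) := by gcongr
              _ = 90 / ε := by ring
          calc ((j * n0 : ℕ) : ℝ) ^ 2 * 8 ≤ (90 / ε) ^ 2 * 8 := by gcongr
            _ = 64800 / ε ^ 2 := by ring
  set m0 := ∫⁻ x in Set.Icc y (y + 4), ENNReal.ofReal (G x) ^ 2 with hm0
  have h16 : (16 : ℝ≥0∞) * m0 ≤ 2 * nsqL (fun x => ENNReal.ofReal (G x)) +
      32 * (ENNReal.ofReal (64800 / ε ^ 2) * dd ε G) := by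
    calc (16 : ℝ≥0∞) * m0 = ∑ j ∈ Finset.range 16, m0 := by simp
      _ ≤ ∑ j ∈ Finset.range 16, (2 * (∫⁻ x in Set.Icc (y + 5 * (j : ℝ)) (y + 5 * (j : ℝ) + 4),
            ENNReal.ofReal (G x) ^ 2) + 2 * (ENNReal.ofReal (64800 / ε ^ 2) * dd ε G)) := by
          refine Finset.sum_le_sum fun j hj => ?_
          refine (mass_shift hG y (5 * (j : ℝ))).trans ?_
          gcongr
          exact hrho j hj
      _ = 2 * ∑ j ∈ Finset.range 16, (∫⁻ x in Set.Icc (y + 5 * (j : ℝ)) (y + 5 * (j : ℝ) + 4),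
            ENNReal.ofReal (G x) ^ 2) + 32 * (ENNReal.ofReal (64800 / ε ^ 2) * dd ε G) := by
          rw [Finset.sum_add_distrib, ← Finset.mul_sum, Finset.sum_const, Finset.card_range,
            nsmul_eq_mul]
          congr 1
          push_cast
          ring
      _ ≤ _ := by
          gcongr
          exact sum_mass _ y
  have h4 : m0 = ENNReal.ofReal (1 / 16) * (16 * m0) := by
    rw [← mul_assoc]
    have h16' : (16 : ℝ≥0∞) = ENNReal.ofReal 16 := by simp
    rw [h16', ← ENNReal.ofReal_mul (by norm_num)]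
    norm_num
  rw [h4]
  calc ENNReal.ofReal (1 / 16) * (16 * m0) ≤ ENNReal.ofReal (1 / 16) *
        (2 * nsqL (fun x => ENNReal.ofReal (G x)) +
          32 * (ENNReal.ofReal (64800 / ε ^ 2) * dd ε G)) := by gcongr
    _ = _ := by
        have h2 : (2 : ℝ≥0∞) = ENNReal.ofReal 2 := by simp
        have h32 : (32 : ℝ≥0∞) = ENNReal.ofReal 32 := by simp
        rw [mul_add, ← mul_assoc, ← mul_assoc, ← mul_assoc, h2, h32,
          ← ENNReal.ofReal_mul (by norm_num), ← ENNReal.ofReal_mul (by norm_num),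
          ← ENNReal.ofReal_mul (by norm_num)]
        congr 3
        · norm_num
        · ring

theorem avg_congr {g g' : ℝ → ℝ≥0∞} (h : g =ᵐ[volume] g') {ε : ℝ} (hε : 0 < ε) :
    avg ε g = avg ε g' := by
  funext x
  unfold avg
  refine lintegral_congr_ae ?_
  unfold U
  refine Measure.ae_smul_measure (ae_restrict_of_ae ?_) _
  have hq : Filter.Tendsto (fun s : ℝ => x + ε * s) (ae volume) (ae volume) := by
    have h1 : Filter.Tendsto (fun s : ℝ => ε * s) (ae volume) (ae volume) := by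
      have : Measure.QuasiMeasurePreserving (fun s : ℝ => ε * s) volume volume := by
        refine ⟨measurable_const_mul ε, ?_⟩
        rw [Real.map_volume_mul_left hε.ne']
        exact Measure.smul_absolutelyContinuous
      exact this.tendsto_ae
    have h2 : Filter.Tendsto (fun s : ℝ => x + s) (ae volume) (ae volume) :=
      (measurePreserving_add_left volume x).quasiMeasurePreserving.tendsto_ae
    exact h2.comp h1
  exact hq.eventually h

theorem taskDich : TaskDich := by
  refine ⟨259200, by norm_num, ?_⟩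
  intro ε g y hε hε1 hg
  by_cases hfin : nsqL g = ⊤
  · rw [hfin, ENNReal.mul_top (by simp), top_add]
    exact le_top
  set G : ℝ → ℝ := fun x => (g x).toReal with hGdef
  have hGm : Measurable G := hg.ennreal_toReal
  have hG0 : ∀ x, 0 ≤ G x := fun x => ENNReal.toReal_nonneg
  have hae : g =ᵐ[volume] fun x => ENNReal.ofReal (G x) := by
    have h1 : ∀ᵐ x ∂(volume : Measure ℝ), g x ^ 2 < ⊤ :=
      ae_lt_top (hg.pow_const 2) hfin
    filter_upwards [h1] with x hx
    have hx' : g x ≠ ⊤ := by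
      intro h
      rw [h] at hx
      simp at hx
    rw [hGdef]
    simp only
    rw [ENNReal.ofReal_toReal hx']
  have e1 : nsqL g = nsqL (fun x => ENNReal.ofReal (G x)) := by
    unfold nsqL
    refine lintegral_congr_ae ?_
    filter_upwards [hae] with x hx
    rw [hx]
  have e2 : avg ε g = avg ε (fun x => ENNReal.ofReal (G x)) := avg_congr hae hε
  have e3 : ∫⁻ x in Set.Icc y (y + 4), g x ^ 2 =
      ∫⁻ x in Set.Icc y (y + 4), ENNReal.ofReal (G x) ^ 2 := by
    refine lintegral_congr_ae (ae_restrict_of_ae ?_)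
    filter_upwards [hae] with x hx
    rw [hx]
  have hv := var_id hGm hG0 ε
  have hd := dich_real hGm y hε hε1
  rw [e1, e2, e3]
  set N := nsqL (fun x => ENNReal.ofReal (G x)) with hN
  set A := nsqL (avg ε fun x => ENNReal.ofReal (G x)) with hA
  have hc : ENNReal.ofReal (259200 / ε ^ 2) = ENNReal.ofReal (129600 / ε ^ 2) * 2 := by
    have h2 : (2 : ℝ≥0∞) = ENNReal.ofReal 2 := by simp
    rw [h2, ← ENNReal.ofReal_mul (by positivity)]
    congr 1
    ring
  rw [hc]
  calc _ ≤ (ENNReal.ofReal (1 / 8) * N + ENNReal.ofReal (129600 / ε ^ 2) * dd ε G) +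
        ENNReal.ofReal (129600 / ε ^ 2) * 2 * A := by gcongr
    _ = ENNReal.ofReal (1 / 8) * N + ENNReal.ofReal (129600 / ε ^ 2) * (dd ε G + 2 * A) := by
        ring
    _ = ENNReal.ofReal (1 / 8) * N + ENNReal.ofReal (129600 / ε ^ 2) * 2 * N := by
        rw [hv]
        ring

end Q235.PP
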