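import Pool.Agent.Q235.PP.JJ

/-!
# The fixed energy estimate (TaskFE)
-/

set_option autoImplicit false

open scoped BigOperators ENNReal
open MeasureTheory

namespace Q235.PP

open Pool.Agent.H695R3.PP Pool.Agent.H853R3.PP.Resample

theorem U_set (S : Set ℝ) (hS : MeasurableSet S) :
    U S = ENNReal.ofReal (1 / 2) * volume (S ∩ Set.Icc (-1) 1) := by
  unfold U
  rw [Measure.smul_apply, Measure.restrict_apply hS, smul_eq_mul]

theorem nrm_le (p q : ℝ) : nrm (p, q) ≤ |p| + |q| := by
  unfold nrm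
  rw [Real.sqrt_le_left (by positivity)]
  simp only
  nlinarith [sq_abs p, sq_abs q, abs_nonneg p, abs_nonneg q, mul_nonneg (abs_nonneg p) (abs_nonneg q)]

theorem nrm_pos {p q : ℝ} (h : (p, q) ≠ (0, 0)) : 0 < nrm (p, q) := by
  unfold nrm
  refine Real.sqrt_pos.2 ?_
  simp only
  by_contra h1
  have h2 : p ^ 2 + q ^ 2 ≤ 0 := not_lt.1 h1
  have hp : p = 0 := by nlinarith [sq_nonneg p, sq_nonneg q]
  have hq : q = 0 := by nlinarith [sq_nonneg p, sq_nonneg q]
  exact h (by rw [hp, hq])

theorem U_bound {p q e ε R t : ℝ} (h : (p, q) ≠ (0, 0)) (hR : 1 ≤ R) (he : |e| ≤ 2 * R)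
    (hε : 0 < ε) (hε1 : ε ≤ 1) (ht : 0 < t) :
    U {s : ℝ | |(e - ε * s) * p - q| ≤ t} ≤ ENNReal.ofReal (8 * R * t / ε * (1 / nrm (p, q))) := by
  have hS : MeasurableSet {s : ℝ | |(e - ε * s) * p - q| ≤ t} := by
    refine measurableSet_le ?_ measurable_const
    fun_prop
  have hn := nrm_pos h
  rcases le_or_gt |q| ((2 * R + 2) * |p|) with hA | hB
  · have hp : 0 < |p| := by
      rcases (abs_nonneg p).eq_or_lt with h0 | h0
      · exfalso
        rw [← h0, mul_zero] at hA
        have hq : q = 0 := abs_eq_zero.1 (le_antisymm hA (abs_nonneg q))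
        have hp : p = 0 := abs_eq_zero.1 h0.symm
        exact h (by rw [hp, hq])
      · exact h0
    have hp0 : p ≠ 0 := abs_pos.1 hp
    have hsub : {s : ℝ | |(e - ε * s) * p - q| ≤ t} ∩ Set.Icc (-1) 1 ⊆
        Metric.closedBall ((e - q / p) / ε) (t / (ε * |p|)) := by
      rintro s ⟨hs, -⟩
      rw [Metric.mem_closedBall, Real.dist_eq, le_div_iff₀ (by positivity)]
      have hs' : |(e - ε * s) * p - q| ≤ t := hs
      have : |s - (e - q / p) / ε| * (ε * |p|) = |(e - ε * s) * p - q| := by
        rw [← abs_of_pos hε, ← abs_mul, ← abs_mul, abs_of_pos hε, ← abs_neg]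
        congr 1
        field_simp
        ring
      rw [this]
      exact hs'
    rw [U_set _ hS]
    calc ENNReal.ofReal (1 / 2) * volume ({s : ℝ | |(e - ε * s) * p - q| ≤ t} ∩ Set.Icc (-1) 1)
        ≤ ENNReal.ofReal (1 / 2) * volume (Metric.closedBall ((e - q / p) / ε) (t / (ε * |p|))) := by
          gcongr
      _ = ENNReal.ofReal (t / (ε * |p|)) := by
          rw [Real.volume_closedBall, ← ENNReal.ofReal_mul (by norm_num)]
          congr 1
          ring
      _ ≤ _ := by
          refine ENNReal.ofReal_le_ofReal ?_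
          have h1 : nrm (p, q) ≤ 5 * R * |p| := by
            refine (nrm_le p q).trans ?_
            nlinarith
          rw [← div_div, div_eq_mul_one_div (t / ε)]
          have h2 : 1 / |p| ≤ 5 * R * (1 / nrm (p, q)) := by
            rw [mul_one_div, div_le_div_iff₀ hp hn, one_mul]
            linarith
          calc t / ε * (1 / |p|) ≤ t / ε * (5 * R * (1 / nrm (p, q))) := by gcongr
            _ ≤ t / ε * (8 * R * (1 / nrm (p, q))) := by gcongr; norm_num
            _ = _ := by ring
  · rcases ({s : ℝ | |(e - ε * s) * p - q| ≤ t} ∩ Set.Icc (-1) 1).eq_empty_or_nonempty with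
      h0 | ⟨s, hs, hs1⟩
    · rw [U_set _ hS, h0, measure_empty, mul_zero]
      exact bot_le
    · refine (prob_le_one (μ := U)).trans ?_
      rw [ENNReal.one_le_ofReal]
      have hs' : |(e - ε * s) * p - q| ≤ t := hs
      have h1 : |e - ε * s| ≤ 2 * R + 1 := by
        have : |ε * s| ≤ 1 := by
          rw [abs_mul, abs_of_pos hε]
          have : |s| ≤ 1 := abs_le.2 hs1
          nlinarith [abs_nonneg s]
        calc |e - ε * s| ≤ |e| + |ε * s| := abs_sub _ _
          _ ≤ _ := by linarith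
      have h2 : |q| ≤ (2 * R + 1) * |p| + t := by
        have h3 : |q| ≤ |(e - ε * s) * p| + |(e - ε * s) * p - q| := by
          have := abs_sub_abs_le_abs_sub q ((e - ε * s) * p)
          rw [abs_sub_comm q] at this
          linarith
        rw [abs_mul] at h3
        nlinarith [abs_nonneg p]
      have h4 : nrm (p, q) ≤ 2 * |q| := by
        refine (nrm_le p q).trans ?_
        nlinarith [abs_nonneg p, abs_nonneg q]
      have h5 : |q| ≤ 4 * R * t := by nlinarith [abs_nonneg p, abs_nonneg q]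
      rw [mul_one_div, le_div_iff₀ hn, le_div_iff₀ hε]
      nlinarith

theorem gsol_ne (V : ℤ → ℝ) (E : ℝ) (b : ℤ) (v : ℝ × ℝ) (hv : v ≠ (0, 0)) (j : ℕ) :
    gsol V E b v j ≠ (0, 0) := by
  induction j with
  | zero => exact hv
  | succ j ih =>
    intro h
    apply ih
    rw [gsol, step, Prod.mk.injEq] at h
    obtain ⟨h1, h2⟩ := h
    rw [h2, mul_zero, zero_sub, neg_eq_zero] at h1
    exact Prod.ext h2 h1

theorem taskFE : TaskFE := by
  obtain ⟨c, C, hc0, hc1, hC, hJ⟩ := taskJ
  refine ⟨c, 16 * C, hc0, hc1, by positivity, ?_⟩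
  intro ε R E t W L hε hε1 hR hE hW ht hL
  obtain ⟨L', rfl⟩ : ∃ L', L = L' + 1 := ⟨L - 1, by omega⟩
  have he2 : ε ^ 2 ≤ 1 := pow_le_one₀ hε.le hε1
  have he0 : 0 < ε ^ 2 := by positivity
  have hr : 1 / 2 ≤ 1 - c * ε ^ 2 := by nlinarith
  set b : ℤ := ((L' + 1 : ℕ) : ℤ) with hb
  set S : Set (ℤ → ℝ) := {x | |(rsol (fun n => W n + ε * x n) E b (L' + 1)).1| ≤ t} with hSdef
  have hcont : Continuous fun x : ℤ → ℝ => gsol (fun n => W n + ε * x n) E b (1, 0) (L' + 1) :=
    continuous_gsol' W ε E b (1, 0) (L' + 1)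
  have hS : MeasurableSet S := by
    have : S = {x | |(gsol (fun n => W n + ε * x n) E b (1, 0) (L' + 1)).1| ≤ t} := by
      rw [hSdef]
      ext x
      simp only [Set.mem_ofPred_eq]
      rw [rsol_eq]
    rw [this]
    exact measurableSet_le (continuous_fst.comp hcont).abs.measurable measurable_const
  have h1 : PZ S = ∫⁻ s, (∫⁻ x, S.indicator (fun _ => (1 : ℝ≥0∞)) (Function.update x 1 s) ∂PZ) ∂U := by
    rw [← resample_lintegral 1 (measurable_const.indicator hS), lintegral_indicator_const hS,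
      one_mul]
  have hup : Measurable fun q : ℝ × (ℤ → ℝ) =>
      S.indicator (fun _ => (1 : ℝ≥0∞)) (Function.update q.2 1 q.1) := by
    have h2 : Measurable (fun q : ℝ × (ℤ → ℝ) => Function.update q.2 (1 : ℤ) q.1) :=
      (measurable_upd (X := fun _ : ℤ => ℝ) 1).comp (measurable_snd.prodMk measurable_fst)
    exact (measurable_const.indicator hS).comp h2
  rw [h1, lintegral_lintegral_swap hup.aemeasurable]
  have h2 : ∀ x : ℤ → ℝ,
      ∫⁻ s, S.indicator (fun _ => (1 : ℝ≥0∞)) (Function.update x 1 s) ∂U ≤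
        ENNReal.ofReal (8 * R * t / ε) *
          ENNReal.ofReal (1 / rlen (fun n => W n + ε * x n) E b L') := by
    intro x
    obtain ⟨v, hv⟩ : ∃ v, v = gsol (fun n => W n + ε * x n) E b (1, 0) L' := ⟨_, rfl⟩
    have hv0 : v ≠ (0, 0) := by
      rw [hv]
      exact gsol_ne _ _ _ _ (by simp) _
    have hb1 : b - (L' : ℤ) = 1 := by rw [hb]; push_cast; ring
    have h3 : ∀ s : ℝ, Function.update x 1 s ∈ S ↔ |((E - W 1) - ε * s) * v.1 - v.2| ≤ t := by
      intro s
      rw [hSdef, Set.mem_ofPred_eq, rsol_eq, gsol]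
      have h4 : gsol (fun n => W n + ε * Function.update x 1 s n) E b (1, 0) L' = v := by
        rw [hv]
        refine gsol_congr _ _ _ _ fun n _ hn => ?_
        rw [Function.update_of_ne (by rw [hb1] at hn; omega)]
      rw [h4, hb1]
      simp only [step, Function.update_self]
      have : (E - (W 1 + ε * s)) = (E - W 1) - ε * s := by ring
      rw [this]
    have h5 : ∫⁻ s, S.indicator (fun _ => (1 : ℝ≥0∞)) (Function.update x 1 s) ∂U =
        U {s : ℝ | |((E - W 1) - ε * s) * v.1 - v.2| ≤ t} := by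
      have hm : MeasurableSet {s : ℝ | |((E - W 1) - ε * s) * v.1 - v.2| ≤ t} := by
        refine measurableSet_le ?_ measurable_const
        fun_prop
      rw [← one_mul (U _), ← lintegral_indicator_const hm]
      refine lintegral_congr fun s => ?_
      by_cases hs : Function.update x 1 s ∈ S
      · rw [Set.indicator_of_mem hs, Set.indicator_of_mem]
        exact (h3 s).1 hs
      · rw [Set.indicator_of_notMem hs, Set.indicator_of_notMem]
        intro h
        exact hs ((h3 s).2 h)
    rw [h5, ← ENNReal.ofReal_mul (by positivity), rlen_eq, ← hv]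
    have he : |E - W 1| ≤ 2 * R := by
      calc |E - W 1| ≤ |E| + |W 1| := abs_sub _ _
        _ ≤ 2 * R := by linarith [hW 1]
    exact U_bound (p := v.1) (q := v.2) hv0 hR he hε hε1 ht
  refine (lintegral_mono h2).trans ?_
  rw [lintegral_const_mul]
  · refine (mul_le_mul' le_rfl (hJ ε E W b L' hε hε1)).trans ?_
    rw [← ENNReal.ofReal_mul (by positivity)]
    refine ENNReal.ofReal_le_ofReal ?_
    have h9 : (1 - c * ε ^ 2) ^ L' ≤ 2 * (1 - c * ε ^ 2) ^ (L' + 1) := by
      rw [pow_succ (1 - c * ε ^ 2) L']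
      have : 0 ≤ (1 - c * ε ^ 2) ^ L' := by positivity
      nlinarith
    calc 8 * R * t / ε * (C / ε * (1 - c * ε ^ 2) ^ L')
        ≤ 8 * R * t / ε * (C / ε * (2 * (1 - c * ε ^ 2) ^ (L' + 1))) := by gcongr
      _ = _ := by field_simp; ring
  · have : Measurable fun x : ℤ → ℝ => ENNReal.ofReal
        (1 / nrm (gsol (fun n => W n + ε * x n) E b (1, 0) L')) :=
      measurable_inv_nrm.comp (continuous_gsol' W ε E b (1, 0) L').measurable
    simp only [rlen_eq]
    exact this

end Q235.PP
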