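import Pool.Agent.H695R3.PP.Stmts
import Pool.Agent.H853R3.PP.TaskResample

/-!
# Spectral averaging (TaskSA, TaskSAP)
-/

set_option autoImplicit false

open scoped BigOperators ENNReal
open MeasureTheory

namespace Q235.PP

open Pool.Agent.H695R3.PP Pool.Agent.H853R3.PP.Resample

theorem Icc_succ_right (a b : ℤ) (h : a - 1 ≤ b) :
    Finset.Icc a (b + 1) = insert (b + 1) (Finset.Icc a b) := by
  ext n
  simp only [Finset.mem_Icc, Finset.mem_insert]
  omega

theorem tele (w : ℤ → ℝ) (a b : ℤ) (h : a - 1 ≤ b) :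
    ∑ n ∈ Finset.Icc a b, (w n - w (n - 1)) = w b - w (a - 1) := by
  induction b, h using Int.le_induction with
  | base =>
    rw [Finset.Icc_eq_empty (by omega)]
    simp
  | succ b hb ih =>
    rw [Icc_succ_right a b hb, Finset.sum_insert (by simp), ih]
    rw [add_sub_cancel_right]
    ring

/-- The discrete Laplacian is symmetric on functions which vanish outside `[a, b]`. -/
theorem green {a b : ℤ} {f g : ℤ → ℝ} (hf : ∀ n, n < a ∨ b < n → f n = 0)
    (hg : ∀ n, n < a ∨ b < n → g n = 0) :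
    ∑ n ∈ Finset.Icc a b, g n * (f (n + 1) + f (n - 1)) =
      ∑ n ∈ Finset.Icc a b, f n * (g (n + 1) + g (n - 1)) := by
  rcases lt_or_ge b (a - 1) with h | h
  · rw [Finset.Icc_eq_empty (by omega)]
    simp
  · have ht := tele (fun n => g n * f (n + 1) - f n * g (n + 1)) a b h
    have h1 : f (b + 1) = 0 := hf _ (Or.inr (by omega))
    have h2 : g (b + 1) = 0 := hg _ (Or.inr (by omega))
    have h3 : f (a - 1) = 0 := hf _ (Or.inl (by omega))
    have h4 : g (a - 1) = 0 := hg _ (Or.inl (by omega))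
    simp only [h1, h2, h3, h4, mul_zero, zero_mul, sub_zero] at ht
    rw [← sub_eq_zero, ← Finset.sum_sub_distrib, ← ht]
    refine Finset.sum_congr rfl fun n _ => ?_
    have : n - 1 + 1 = n := by ring
    rw [this]
    ring

theorem green_eig {V V' : ℤ → ℝ} {a b : ℤ} {E E' : ℝ} {ψ ψ' : ℤ → ℝ} (h : IsEig V a b E ψ)
    (h' : IsEig V' a b E' ψ') :
    (E - E') * ∑ n ∈ Finset.Icc a b, ψ n * ψ' n =
      ∑ n ∈ Finset.Icc a b, (V n - V' n) * (ψ n * ψ' n) := by
  have hg := green h.1 h'.1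
  have e1 : ∀ n ∈ Finset.Icc a b, ψ' n * (ψ (n + 1) + ψ (n - 1)) =
      (E - V n) * (ψ n * ψ' n) := by
    intro n hn
    rw [Finset.mem_Icc] at hn
    have := h.2.2 n hn.1 hn.2
    linear_combination ψ' n * this
  have e2 : ∀ n ∈ Finset.Icc a b, ψ n * (ψ' (n + 1) + ψ' (n - 1)) =
      (E' - V' n) * (ψ n * ψ' n) := by
    intro n hn
    rw [Finset.mem_Icc] at hn
    have := h'.2.2 n hn.1 hn.2
    linear_combination ψ n * this
  rw [Finset.sum_congr rfl e1, Finset.sum_congr rfl e2, ← sub_eq_zero,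
    ← Finset.sum_sub_distrib] at hg
  rw [← sub_eq_zero, Finset.mul_sum, ← Finset.sum_sub_distrib, ← hg]
  refine Finset.sum_congr rfl fun n _ => ?_
  ring

theorem cs_le {a b : ℤ} {ψ ψ' : ℤ → ℝ} (h : nsq a b ψ = 1) (h' : nsq a b ψ' = 1) :
    |∑ n ∈ Finset.Icc a b, ψ n * ψ' n| ≤ 1 := by
  have := Finset.sum_mul_sq_le_sq_mul_sq (Finset.Icc a b) ψ ψ'
  unfold nsq at h h'
  rw [h, h', mul_one] at this
  exact abs_le_one_iff_mul_self_le_one.2 (by rw [← sq]; exact this)

theorem mem_of_ne {V : ℤ → ℝ} {a b m : ℤ} {E : ℝ} {ψ : ℤ → ℝ} (h : IsEig V a b E ψ)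
    (hm : ψ m ≠ 0) : m ∈ Finset.Icc a b := by
  rw [Finset.mem_Icc]
  by_contra hc
  apply hm
  apply h.1
  omega

theorem upd_sum {V : ℤ → ℝ} {a b m : ℤ} {t t' : ℝ} {f : ℤ → ℝ} (hm : m ∈ Finset.Icc a b) :
    ∑ n ∈ Finset.Icc a b, (Function.update V m t n - Function.update V m t' n) * f n =
      (t - t') * f m := by
  rw [Finset.sum_eq_single m]
  · simp
  · intro n _ hn
    rw [Function.update_of_ne hn, Function.update_of_ne hn, sub_self, zero_mul]
  · intro h; exact absurd hm h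

theorem taskSA : TaskSA := by
  intro V a b m A κ hκ
  set T : Set ℝ := {E ∈ A | ∃ t ψ, IsEig (Function.update V m t) a b E ψ ∧ κ ≤ ψ m ^ 2} with hT
  have hch : ∀ E : ℝ, ∃ t : ℝ, E ∈ T → ∃ ψ, IsEig (Function.update V m t) a b E ψ ∧
      κ ≤ ψ m ^ 2 := by
    intro E
    by_cases hE : E ∈ T
    · obtain ⟨-, t, ψ, h⟩ := hE
      exact ⟨t, fun _ => ⟨ψ, h⟩⟩
    · exact ⟨0, fun h => absurd h hE⟩
  choose τ hτ using hch
  have key : ∀ {t t' E E' : ℝ} {ψ ψ' : ℤ → ℝ}, IsEig (Function.update V m t) a b E ψ →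
      κ ≤ ψ m ^ 2 → IsEig (Function.update V m t') a b E' ψ' → κ ≤ ψ' m ^ 2 →
      |t - t'| ≤ 1 / κ * |E - E'| := by
    intro t t' E E' ψ ψ' h hk h' hk'
    have hm : m ∈ Finset.Icc a b := mem_of_ne h (by
      intro h0; rw [h0] at hk; norm_num at hk; linarith)
    have hg := green_eig h h'
    rw [upd_sum hm] at hg
    have h1 : κ ≤ |ψ m * ψ' m| := by
      rw [← abs_of_pos hκ]
      refine sq_le_sq.1 ?_
      rw [mul_pow, sq κ]
      exact mul_le_mul hk hk' hκ.le (sq_nonneg _)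
    have h2 : |t - t'| * |ψ m * ψ' m| ≤ |E - E'| := by
      rw [← abs_mul, ← hg, abs_mul]
      exact mul_le_of_le_one_right (abs_nonneg _) (cs_le h.2.1 h'.2.1)
    rw [one_div, ← div_eq_inv_mul, le_div_iff₀ hκ]
    exact (mul_le_mul_of_nonneg_left h1 (abs_nonneg _)).trans h2
  have hlip : LipschitzOnWith (Real.toNNReal (1 / κ)) τ T := by
    refine LipschitzOnWith.of_dist_le_mul fun E hE E' hE' => ?_
    obtain ⟨ψ, h1, h2⟩ := hτ E hE
    obtain ⟨ψ', h1', h2'⟩ := hτ E' hE'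
    rw [Real.dist_eq, Real.dist_eq, Real.coe_toNNReal _ (by positivity)]
    exact key h1 h2 h1' h2'
  have hsub : {t : ℝ | ∃ E ∈ A, ∃ ψ, IsEig (Function.update V m t) a b E ψ ∧ κ ≤ ψ m ^ 2} ⊆
      τ '' T := by
    rintro t ⟨E, hE, ψ, h1, h2⟩
    have hET : E ∈ T := ⟨hE, t, ψ, h1, h2⟩
    obtain ⟨ψ', h1', h2'⟩ := hτ E hET
    refine ⟨E, hET, ?_⟩
    have := key h1' h2' h1 h2
    rw [sub_self, abs_zero, mul_zero] at this
    exact sub_eq_zero.1 (abs_eq_zero.1 (le_antisymm this (abs_nonneg _)))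
  calc volume {t : ℝ | ∃ E ∈ A, ∃ ψ, IsEig (Function.update V m t) a b E ψ ∧ κ ≤ ψ m ^ 2}
      ≤ volume (τ '' T) := measure_mono hsub
    _ ≤ ENNReal.ofReal (1 / κ) * volume T := by
        have := hlip.hausdorffMeasure_image_le (d := 1) zero_le_one
        rw [hausdorffMeasure_real, ENNReal.rpow_one] at this
        exact this
    _ ≤ ENNReal.ofReal (1 / κ) * volume A := by
        gcongr
        exact fun E hE => hE.1

theorem U_le (S : Set ℝ) : U S ≤ ENNReal.ofReal (1 / 2) * volume S := by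
  unfold U
  rw [Measure.smul_apply, smul_eq_mul]
  gcongr
  exact Measure.restrict_le_self

theorem vol_affine (T : Set ℝ) (w ε : ℝ) (hε : 0 < ε) :
    volume {s : ℝ | w + ε * s ∈ T} = ENNReal.ofReal (1 / ε) * volume T := by
  have h1 : {s : ℝ | w + ε * s ∈ T} = (fun s => ε * s) ⁻¹' ((fun y => w + y) ⁻¹' T) := rfl
  rw [h1, Real.volume_preimage_mul_left hε.ne', measure_preimage_add, abs_of_pos (inv_pos.2 hε),
    one_div]

theorem taskSAP : TaskSAP := by
  intro W ε κ a b m A B hε hκ hB hA hex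
  have h := taskResample ℤ (fun _ => ℝ) (fun _ => U) m
  have hu : Measurable (fun p : (ℤ → ℝ) × ℝ => Function.update p.1 m p.2) :=
    measurable_upd (X := fun _ : ℤ => ℝ) m
  have h1 : PZ B = ∫⁻ x, U {s : ℝ | Function.update x m s ∈ B} ∂PZ := by
    have : PZ B = (PZ.prod U) ((fun p : (ℤ → ℝ) × ℝ => Function.update p.1 m p.2) ⁻¹' B) := by
      rw [← Measure.map_apply hu hB]
      unfold PZ
      rw [h]
    rw [this, Measure.prod_apply (hu hB)]
    rfl
  rw [h1]
  refine lintegral_mono fun x => ?_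
  set T : Set ℝ := {t : ℝ | ∃ E ∈ A x, ∃ ψ,
    IsEig (Function.update (fun n => W n + ε * x n) m t) a b E ψ ∧ κ ≤ ψ m ^ 2} with hT
  have hsub : {s : ℝ | Function.update x m s ∈ B} ⊆ {s : ℝ | W m + ε * s ∈ T} := by
    intro s hs
    obtain ⟨E, hE, ψ, h2, h3⟩ := hex _ hs
    rw [hA] at hE
    refine ⟨E, hE, ψ, ?_, h3⟩
    have : (fun n => W n + ε * Function.update x m s n) =
        Function.update (fun n => W n + ε * x n) m (W m + ε * s) := by
      funext n
      by_cases hn : n = m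
      · subst hn; simp
      · simp [Function.update_of_ne hn]
    rw [← this]
    exact h2
  calc U {s : ℝ | Function.update x m s ∈ B} ≤ U {s : ℝ | W m + ε * s ∈ T} := measure_mono hsub
    _ ≤ ENNReal.ofReal (1 / 2) * volume {s : ℝ | W m + ε * s ∈ T} := U_le _
    _ = ENNReal.ofReal (1 / 2) * (ENNReal.ofReal (1 / ε) * volume T) := by
        rw [vol_affine T (W m) ε hε]
    _ ≤ ENNReal.ofReal (1 / 2) * (ENNReal.ofReal (1 / ε) *
          (ENNReal.ofReal (1 / κ) * volume (A x))) := by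
        gcongr
        exact taskSA _ a b m (A x) κ hκ
    _ = _ := by
        rw [← mul_assoc, ← mul_assoc, ← ENNReal.ofReal_mul (by positivity),
          ← ENNReal.ofReal_mul (by positivity)]
        congr 2
        field_simp

end Q235.PP
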