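import Pool.Agent.Q235.PP.FE
import Pool.Agent.Q235.PP.SA
import Pool.Agent.Q235.PP.Closed

/-!
# The probability of the first bad event (TaskG1) and the transfer of laws (TaskTransfer)
-/

set_option autoImplicit false

open scoped BigOperators ENNReal
open MeasureTheory

namespace Q235.PP

open Pool.Agent.H695R3.PP Pool.Agent.H853R3.PP.Resample

theorem eig_bound {V : ℤ → ℝ} {a b : ℤ} {E R : ℝ} {ψ : ℤ → ℝ} (h : IsEig V a b E ψ)
    (hV : ∀ n, a ≤ n → n ≤ b → |V n| ≤ R) : |E| ≤ R + 2 := by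
  have hne : (Finset.Icc a b).Nonempty := by
    rw [Finset.nonempty_iff_ne_empty]
    intro h0
    have := h.2.1
    unfold nsq at this
    rw [h0] at this
    simp at this
  obtain ⟨n, hn, hmax⟩ := Finset.exists_max_image (Finset.Icc a b) (fun n => |ψ n|) hne
  have hall : ∀ k, |ψ k| ≤ |ψ n| := by
    intro k
    by_cases hk : k ∈ Finset.Icc a b
    · exact hmax k hk
    · rw [Finset.mem_Icc] at hk
      rw [h.1 k (by omega), abs_zero]
      exact abs_nonneg _
  have hpos : 0 < |ψ n| := by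
    rcases (abs_nonneg (ψ n)).eq_or_lt with h0 | h0
    · exfalso
      have h1 := h.2.1
      unfold nsq at h1
      have : ∑ k ∈ Finset.Icc a b, ψ k ^ 2 = 0 := by
        refine Finset.sum_eq_zero fun k _ => ?_
        have := hall k
        rw [← h0] at this
        have : ψ k = 0 := abs_eq_zero.1 (le_antisymm this (abs_nonneg _))
        rw [this]; norm_num
      rw [this] at h1
      norm_num at h1
    · exact h0
  rw [Finset.mem_Icc] at hn
  have he := h.2.2 n hn.1 hn.2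
  have h1 : |E| * |ψ n| ≤ (R + 2) * |ψ n| := by
    rw [← abs_mul, ← he]
    calc |ψ (n + 1) + ψ (n - 1) + V n * ψ n| ≤ |ψ (n + 1)| + |ψ (n - 1)| + |V n * ψ n| :=
          (abs_add_le _ _).trans (by gcongr; exact abs_add_le _ _)
      _ ≤ |ψ n| + |ψ n| + R * |ψ n| := by
          rw [abs_mul]
          exact add_le_add (add_le_add (hall _) (hall _))
            (mul_le_mul_of_nonneg_right (hV n hn.1 hn.2) (abs_nonneg _))
      _ = (R + 2) * |ψ n| := by ring
  exact le_of_mul_le_mul_right h1 hpos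

/-- The eigenvector is a multiple of the solution from the right end. -/
theorem eig_rsol {V : ℤ → ℝ} {a b : ℤ} {E : ℝ} {ψ : ℤ → ℝ} (h : IsEig V a b E ψ) (j : ℕ)
    (hj : a ≤ b - j + 1) :
    ψ (b - j) = ψ b * (rsol V E b j).1 ∧ ψ (b - j + 1) = ψ b * (rsol V E b j).2 := by
  induction j with
  | zero =>
    simp only [rsol, Nat.cast_zero, sub_zero, mul_one, mul_zero, true_and]
    exact h.1 _ (Or.inr (by omega))
  | succ j ih =>
    obtain ⟨h1, h2⟩ := ih (by push_cast at hj; omega)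
    have he := h.2.2 (b - j) (by push_cast at hj; omega) (by omega)
    have e1 : b - ((j + 1 : ℕ) : ℤ) = b - j - 1 := by push_cast; ring
    have e2 : b - ((j + 1 : ℕ) : ℤ) + 1 = b - j := by push_cast; ring
    rw [e2, e1]
    refine ⟨?_, ?_⟩
    · rw [rsol]
      simp only
      rw [h1, h2] at he
      linear_combination he
    · rw [rsol]
      exact h1

theorem rsol_congr {V V' : ℤ → ℝ} (E : ℝ) (b : ℤ) (j : ℕ)
    (h : ∀ n, n ≤ b → b - j < n → V n = V' n) : rsol V E b j = rsol V' E b j := by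
  rw [rsol_eq, rsol_eq]
  exact gsol_congr E b (1, 0) j h

/-- One half of the bad event. -/
def HB (L : ℕ) (a τ : ℝ) (V : ℤ → ℝ) : Prop :=
  ∃ E ψ, IsEig V (-(L : ℤ)) L E ψ ∧ a ≤ |ψ 0| ∧ τ ≤ |ψ L|

theorem measurable_HB (L : ℕ) (a τ : ℝ) : MeasurableSet {V : ℤ → ℝ | HB L a τ V} := by
  have : {V : ℤ → ℝ | HB L a τ V} = ⋃ R : ℕ, {V : ℤ → ℝ | ∃ E ψ, |E| ≤ (R : ℝ) ∧
      IsEig V (-(L : ℤ)) L E ψ ∧ ((E, ψ), V) ∈ {q : (ℝ × (ℤ → ℝ)) × (ℤ → ℝ) |
        a ≤ |q.1.2 0| ∧ τ ≤ |q.1.2 L|}} := by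
    ext V
    simp only [Set.mem_iUnion, Set.mem_ofPred_eq]
    constructor
    · rintro ⟨E, ψ, h1, h2, h3⟩
      obtain ⟨R, hR⟩ := exists_nat_ge |E|
      exact ⟨R, E, ψ, hR, h1, h2, h3⟩
    · rintro ⟨R, E, ψ, -, h1, h2, h3⟩
      exact ⟨E, ψ, h1, h2, h3⟩
  rw [this]
  refine MeasurableSet.iUnion fun R => (taskClosed _ _ _ _ ?_).measurableSet
  have hc : ∀ n : ℤ, Continuous fun q : (ℝ × (ℤ → ℝ)) × (ℤ → ℝ) => |q.1.2 n| := fun n =>
    ((continuous_apply n).comp (continuous_snd.comp continuous_fst)).abs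
  exact (isClosed_le continuous_const (hc 0)).inter (isClosed_le continuous_const (hc L))

theorem continuous_pot (W : ℤ → ℝ) (ε : ℝ) :
    Continuous fun x : ℤ → ℝ => fun n => W n + ε * x n := by
  refine continuous_pi fun n => ?_
  exact continuous_const.add (continuous_const.mul (continuous_apply n))

theorem x_bound : ∀ᵐ x ∂PZ, ∀ n, |x n| ≤ 1 := by
  rw [ae_all_iff]
  intro n
  have h1 : Measure.map (fun x : ℤ → ℝ => x n) PZ = U := by
    unfold PZ
    exact Measure.infinitePi_map_eval (fun _ : ℤ => U) n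
  have h2 : ∀ᵐ s ∂(Measure.map (fun x : ℤ → ℝ => x n) PZ), |s| ≤ 1 := by
    rw [h1]
    filter_upwards [U_compl] with s hs
    exact abs_le.2 hs
  exact ae_of_ae_map (measurable_pi_apply n).aemeasurable h2

theorem half {c C : ℝ} (hc0 : 0 < c) (hc1 : c ≤ 1 / 2) (hC : 0 < C)
    (hFE : ∀ (ε R E t : ℝ) (W : ℤ → ℝ) (L : ℕ),
      0 < ε → ε ≤ 1 → 1 ≤ R → |E| ≤ R → (∀ n, |W n| ≤ R) → 0 < t → 1 ≤ L →
      PZ {x | |(rsol (fun n => W n + ε * x n) E L L).1| ≤ t} ≤
        ENNReal.ofReal (C * R / ε ^ 2 * t * (1 - c * ε ^ 2) ^ L))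
    {ε R a τ : ℝ} {W : ℤ → ℝ} {L : ℕ} (hε : 0 < ε) (hε1 : ε ≤ 1) (hR : 1 ≤ R)
    (hW : ∀ n, |W n| ≤ R) (ha : 0 < a) (hτ : 0 < τ) (hL : 1 ≤ L) :
    PZ {x | HB L a τ (fun n => W n + ε * x n)} ≤
      ENNReal.ofReal (16 * C * R ^ 2 / (ε ^ 3 * a ^ 2 * τ) * (1 - c * ε ^ 2) ^ L) := by
  have he2 : ε ^ 2 ≤ 1 := pow_le_one₀ hε.le hε1
  have he0 : 0 < ε ^ 2 := by positivity
  have hr : 1 / 2 ≤ 1 - c * ε ^ 2 := by nlinarith
  set A : (ℤ → ℝ) → Set ℝ := fun x => {E | |E| ≤ R + 3 ∧
    |(rsol (fun n => W n + ε * x n) E L L).1| ≤ 1 / τ} with hA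
  set B : Set (ℤ → ℝ) := {x | HB L a τ (fun n => W n + ε * x n)} ∩ {x | ∀ n ∈ Finset.Icc
    (-(L : ℤ)) L, |x n| ≤ 1} with hB
  have hBm : MeasurableSet B := by
    refine (measurable_HB L a τ |>.preimage (continuous_pot W ε).measurable).inter ?_
    have : {x : ℤ → ℝ | ∀ n ∈ Finset.Icc (-(L : ℤ)) L, |x n| ≤ 1} =
        ⋂ n ∈ Finset.Icc (-(L : ℤ)) L, {x | |x n| ≤ 1} := by ext; simp
    rw [this]
    exact Finset.measurableSet_biInter _ fun n _ =>
      (isClosed_le (continuous_apply n).abs continuous_const).measurableSet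
  have h0 : PZ {x | HB L a τ (fun n => W n + ε * x n)} ≤ PZ B := by
    refine measure_mono_ae ?_
    filter_upwards [x_bound] with x hx h
    exact ⟨h, fun n _ => hx n⟩
  refine h0.trans ?_
  have h1 := taskSAP W ε (a ^ 2) (-(L : ℤ)) L 0 A B hε (by positivity) hBm ?_ ?_
  · refine h1.trans ?_
    have hmeas : MeasurableSet {q : (ℤ → ℝ) × ℝ | q.2 ∈ A q.1} := by
      have : {q : (ℤ → ℝ) × ℝ | q.2 ∈ A q.1} = {q | |q.2| ≤ R + 3} ∩
          {q | |(gsol (fun n => W n + ε * q.1 n) q.2 L (1, 0) L).1| ≤ 1 / τ} := by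
        ext q
        simp only [hA, Set.mem_ofPred_eq, Set.mem_inter_iff, rsol_eq]
      rw [this]
      exact ((isClosed_le continuous_snd.abs continuous_const).inter
        (isClosed_le (continuous_fst.comp (continuous_gsol W ε L (1, 0) L)).abs
          continuous_const)).measurableSet
    have h2 : ∫⁻ x, volume (A x) ∂PZ = ∫⁻ E, PZ {x | E ∈ A x} := by
      have e1 := Measure.prod_apply (μ := PZ) (ν := (volume : Measure ℝ)) hmeas
      have e2 := Measure.prod_apply_symm (μ := PZ) (ν := (volume : Measure ℝ)) hmeas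
      rw [e2] at e1
      exact e1.symm
    have h3 : ∀ E : ℝ, PZ {x | E ∈ A x} ≤ (Set.Icc (-(R + 3)) (R + 3)).indicator
        (fun _ => ENNReal.ofReal (C * (R + 3) / ε ^ 2 * (1 / τ) * (1 - c * ε ^ 2) ^ L)) E := by
      intro E
      by_cases hE : E ∈ Set.Icc (-(R + 3)) (R + 3)
      · rw [Set.indicator_of_mem hE]
        refine (measure_mono ?_).trans (hFE ε (R + 3) E (1 / τ) W L hε hε1 (by linarith)
          (abs_le.2 hE) (fun n => (hW n).trans (by linarith)) (by positivity) hL)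
        intro x hx
        exact hx.2
      · rw [Set.indicator_of_notMem hE]
        have : {x | E ∈ A x} = ∅ := by
          ext x
          simp only [Set.mem_ofPred_eq, Set.mem_empty_iff_false, iff_false]
          intro h
          exact hE (abs_le.1 h.1)
        rw [this, measure_empty]
    have hmx : Measurable fun x => volume (A x) := measurable_measure_prodMk_left hmeas
    rw [lintegral_const_mul _ hmx, h2]
    refine (mul_le_mul' le_rfl (lintegral_mono h3)).trans ?_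
    rw [lintegral_indicator_const measurableSet_Icc, Real.volume_Icc,
      ← ENNReal.ofReal_mul (by positivity), ← ENNReal.ofReal_mul (by positivity)]
    refine ENNReal.ofReal_le_ofReal ?_
    have h4 : (R + 3) * (R + 3) ≤ 16 * R ^ 2 := by nlinarith
    have h5 : 0 ≤ C / (ε ^ 3 * a ^ 2 * τ) * (1 - c * ε ^ 2) ^ L := by positivity
    calc 1 / (2 * ε * a ^ 2) * (C * (R + 3) / ε ^ 2 * (1 / τ) * (1 - c * ε ^ 2) ^ L *
          (R + 3 - -(R + 3)))
        = (R + 3) * (R + 3) * (C / (ε ^ 3 * a ^ 2 * τ) * (1 - c * ε ^ 2) ^ L) := by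
          field_simp
          ring
      _ ≤ 16 * R ^ 2 * (C / (ε ^ 3 * a ^ 2 * τ) * (1 - c * ε ^ 2) ^ L) := by gcongr
      _ = _ := by ring
  · intro x s
    rw [hA]
    ext E
    simp only [Set.mem_ofPred_eq]
    have : rsol (fun n => W n + ε * Function.update x 0 s n) E L L =
        rsol (fun n => W n + ε * x n) E L L := by
      refine rsol_congr _ _ _ fun n _ hn => ?_
      rw [Function.update_of_ne (by omega)]
    rw [this]
  · rintro x ⟨⟨E, ψ, h2, h3, h4⟩, hx⟩
    have hE : |E| ≤ R + 3 := by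
      have := eig_bound h2 (R := R + 1) ?_
      · linarith
      · intro n hn1 hn2
        calc |W n + ε * x n| ≤ |W n| + |ε * x n| := abs_add_le _ _
          _ ≤ R + 1 := by
              rw [abs_mul, abs_of_pos hε]
              have := hx n (Finset.mem_Icc.2 ⟨hn1, hn2⟩)
              have := hW n
              nlinarith [abs_nonneg (x n)]
    refine ⟨E, ⟨hE, ?_⟩, ψ, h2, ?_⟩
    · have h5 := (eig_rsol h2 L (by omega)).1
      rw [sub_self] at h5
      have h6 : |ψ L| * |(rsol (fun n => W n + ε * x n) E L L).1| ≤ 1 := by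
        rw [← abs_mul, ← h5]
        exact eig_abs_le_one h2 0
      rw [le_div_iff₀ hτ, mul_comm]
      exact (mul_le_mul_of_nonneg_right h4 (abs_nonneg _)).trans h6
    · rw [← sq_abs (ψ 0)]
      exact pow_le_pow_left₀ ha.le h3 2

theorem IsEig.refl {V : ℤ → ℝ} {L : ℕ} {E : ℝ} {ψ : ℤ → ℝ} (h : IsEig V (-(L : ℤ)) L E ψ) :
    IsEig (fun n => V (-n)) (-(L : ℤ)) L E (fun n => ψ (-n)) := by
  obtain ⟨h1, h2, h3⟩ := h
  refine ⟨fun n hn => h1 _ (by omega), ?_, fun n hn1 hn2 => ?_⟩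
  · unfold nsq at h2 ⊢
    rw [← h2]
    refine Finset.sum_bij' (fun n _ => -n) (fun n _ => -n) ?_ ?_ ?_ ?_ ?_
    · intro n hn; rw [Finset.mem_Icc] at hn ⊢; omega
    · intro n hn; rw [Finset.mem_Icc] at hn ⊢; omega
    · intro n _; simp
    · intro n _; simp
    · intro n _; simp
  · have := h3 (-n) (by omega) (by omega)
    have e1 : -(n + 1) = -n - 1 := by ring
    have e2 : -(n - 1) = -n + 1 := by ring
    simp only [e1, e2]
    linear_combination this

theorem PZ_refl (B : Set (ℤ → ℝ)) (hB : MeasurableSet B) :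
    PZ {x | (fun n => x (-n)) ∈ B} = PZ B := by
  have h := Measure.map_infinitePi_infinitePi_of_inj (P := fun _ : ℤ => U)
    (f := fun n : ℤ => -n) neg_injective
  have hm : Measurable fun x : ℤ → ℝ => fun n : ℤ => x (-n) :=
    measurable_pi_lambda _ fun n => measurable_pi_apply _
  calc PZ {x | (fun n => x (-n)) ∈ B} = Measure.map (fun x : ℤ → ℝ => fun n : ℤ => x (-n)) PZ B := by
        rw [Measure.map_apply hm hB]; rfl
    _ = PZ B := by
        unfold PZ
        rw [h]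

theorem taskG1 : TaskG1 := by
  obtain ⟨c, C, hc0, hc1, hC, hFE⟩ := taskFE
  refine ⟨c, 32 * C, hc0, hc1, by positivity, ?_⟩
  intro ε R a τ W L hε hε1 hR hW ha hτ hL
  have hsub : {x : ℤ → ℝ | Bad1 L a τ (fun n => W n + ε * x n)} ⊆
      {x : ℤ → ℝ | HB L a τ (fun n => W n + ε * x n)} ∪
        {x : ℤ → ℝ | (fun n => x (-n)) ∈
          {x : ℤ → ℝ | HB L a τ (fun n => W (-n) + ε * x n)}} := by
    rintro x ⟨E, ψ, h1, h2, h3 | h3⟩
    · exact Or.inl ⟨E, ψ, h1, h2, h3⟩
    · refine Or.inr ⟨E, fun n => ψ (-n), IsEig.refl h1, ?_, ?_⟩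
      · simpa using h2
      · exact h3
  have hm : MeasurableSet {x : ℤ → ℝ | HB L a τ (fun n => W (-n) + ε * x n)} :=
    (measurable_HB L a τ).preimage (continuous_pot (fun n => W (-n)) ε).measurable
  have h1 := half hc0 hc1 hC hFE (a := a) (τ := τ) (W := W) hε hε1 hR hW ha hτ hL
  have h2 := half hc0 hc1 hC hFE (a := a) (τ := τ) (W := fun n => W (-n)) hε hε1 hR
    (fun n => hW _) ha hτ hL
  have he2 : ε ^ 2 ≤ 1 := pow_le_one₀ hε.le hε1
  have hr : 0 ≤ 1 - c * ε ^ 2 := by nlinarith [sq_nonneg ε]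
  calc PZ {x | Bad1 L a τ (fun n => W n + ε * x n)} ≤ PZ _ := measure_mono hsub
    _ ≤ _ := measure_union_le _ _
    _ ≤ ENNReal.ofReal (16 * C * R ^ 2 / (ε ^ 3 * a ^ 2 * τ) * (1 - c * ε ^ 2) ^ L) +
        ENNReal.ofReal (16 * C * R ^ 2 / (ε ^ 3 * a ^ 2 * τ) * (1 - c * ε ^ 2) ^ L) := by
        refine add_le_add h1 ?_
        rw [PZ_refl _ hm]
        exact h2
    _ = _ := by
        rw [← ENNReal.ofReal_add (by positivity) (by positivity)]
        congr 1
        ring

theorem taskTransfer : TaskTransfer := by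
  intro Q _ q L W ε B hq hB hdep
  set I : Type := {n : ℤ // n ∈ Set.Icc (-(L : ℤ)) L} with hI
  set ext : (I → ℝ) → ℤ → ℝ := fun y n =>
    if h : n ∈ Set.Icc (-(L : ℤ)) L then W n + ε * y ⟨n, h⟩ else 0 with hext
  have hextm : Measurable ext := by
    refine measurable_pi_lambda _ fun n => ?_
    by_cases h : n ∈ Set.Icc (-(L : ℤ)) L
    · simp only [hext, h, dite_true]
      exact measurable_const.add (measurable_const.mul (measurable_pi_apply _))
    · simp only [hext, h, dite_false]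
      exact measurable_const
  set B' : Set (I → ℝ) := ext ⁻¹' B with hB'
  have hB'm : MeasurableSet B' := hextm hB
  have hinj1 : Function.Injective (fun i : I => q i.1) := by
    intro i j hij
    exact Subtype.ext (hq i.2 j.2 hij)
  have hinj2 : Function.Injective (fun i : I => i.1) := Subtype.val_injective
  have e1 := Measure.map_infinitePi_infinitePi_of_inj (P := fun _ : Q => U) hinj1
  have e2 := Measure.map_infinitePi_infinitePi_of_inj (P := fun _ : ℤ => U) hinj2
  have m1 : Measurable fun η : Q → ℝ => fun i : I => η (q i.1) :=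
    measurable_pi_lambda _ fun i => measurable_pi_apply _
  have m2 : Measurable fun x : ℤ → ℝ => fun i : I => x i.1 :=
    measurable_pi_lambda _ fun i => measurable_pi_apply _
  have s1 : {η : Q → ℝ | (fun n => W n + ε * η (q n)) ∈ B} =
      (fun η : Q → ℝ => fun i : I => η (q i.1)) ⁻¹' B' := by
    ext η
    simp only [hB', Set.mem_preimage, Set.mem_ofPred_eq]
    refine hdep _ _ fun n hn1 hn2 => ?_
    have h : n ∈ Set.Icc (-(L : ℤ)) L := ⟨hn1, hn2⟩
    simp only [hext, h, dite_true]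
  have s2 : {x : ℤ → ℝ | (fun n => W n + ε * x n) ∈ B} =
      (fun x : ℤ → ℝ => fun i : I => x i.1) ⁻¹' B' := by
    ext x
    simp only [hB', Set.mem_preimage, Set.mem_ofPred_eq]
    refine hdep _ _ fun n hn1 hn2 => ?_
    have h : n ∈ Set.Icc (-(L : ℤ)) L := ⟨hn1, hn2⟩
    simp only [hext, h, dite_true]
  rw [← Measure.infinitePi_eq_pi, s1, s2, ← Measure.map_apply m1 hB'm, e1]
  unfold PZ
  rw [← Measure.map_apply m2 hB'm, e2]

end Q235.PP
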