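import Pool.Agent.Q235.PP.Box
import Pool.Agent.Q235.PP.G1

/-!
# Level spacing (TaskSplit, TaskG2)
-/

set_option autoImplicit false

open scoped BigOperators ENNReal
open MeasureTheory

namespace Q235.PP

open Pool.Agent.H695R3.PP

theorem eig_left_ne {V : ℤ → ℝ} {a b : ℤ} {E : ℝ} {ψ : ℤ → ℝ} (h : IsEig V a b E ψ) :
    ψ a ≠ 0 := by
  intro h0
  have key : ∀ k : ℕ, a + k ≤ b + 1 → ψ (a + k) = 0 ∧ ψ (a + k - 1) = 0 := by
    intro k
    induction k with
    | zero =>
      intro _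
      refine ⟨by simpa using h0, ?_⟩
      exact h.1 _ (Or.inl (by push_cast; omega))
    | succ k ih =>
      intro hk
      obtain ⟨h1, h2⟩ := ih (by push_cast at hk; omega)
      have he := h.2.2 (a + k) (by omega) (by push_cast at hk; omega)
      have e1 : a + ((k + 1 : ℕ) : ℤ) = a + k + 1 := by push_cast; ring
      have e2 : a + ((k + 1 : ℕ) : ℤ) - 1 = a + k := by push_cast; ring
      rw [e2, e1]
      rw [h1, h2, mul_zero, mul_zero, add_zero, add_zero] at he
      exact ⟨he, h1⟩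
  have h1 := h.2.1
  have h2 : nsq a b ψ = 0 := by
    unfold nsq
    refine Finset.sum_eq_zero fun n hn => ?_
    rw [Finset.mem_Icc] at hn
    have := (key (n - a).toNat (by omega)).1
    have e : a + ((n - a).toNat : ℤ) = n := by omega
    rw [e] at this
    rw [this]; norm_num
  rw [h2] at h1
  norm_num at h1

theorem split_left {V : ℤ → ℝ} {a b m : ℤ} {E E' : ℝ} {ψ ψ' : ℤ → ℝ} (ham : a < m) (hmb : m ≤ b)
    (h : IsEig V a b E ψ) (h' : IsEig V a b E' ψ') (hne : E ≠ E')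
    (hS : ψ m * ψ' m * ∑ n ∈ Finset.Icc a (m - 1), ψ n * ψ' n ≤ 0) :
    ∃ lam φ, IsEig V a (m - 1) lam φ ∧ |lam - (E + E') / 2| ≤ |E - E'| / 2 := by
  by_cases hdeg : ψ m = 0 ∧ ψ' m = 0
  · obtain ⟨hd1, -⟩ := hdeg
    refine taskApprox V a (m - 1) ((E + E') / 2) (|E - E'| / 2) (cut a (m - 1) ψ) (by positivity)
      (cut_zero a (m - 1) ψ) ?_ ?_
    · rw [nsq_cut]
      unfold nsq
      refine lt_of_lt_of_le (sq_pos_of_ne_zero (eig_left_ne h))
        (Finset.single_le_sum (f := fun n => ψ n ^ 2) (fun i _ => sq_nonneg _) ?_)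
      rw [Finset.mem_Icc]; omega
    · rw [nsq_cut]
      unfold nsq
      rw [Finset.mul_sum]
      refine le_of_eq (Finset.sum_congr rfl fun n hn => ?_)
      have hn' := Finset.mem_Icc.1 hn
      have e1 : cut a (m - 1) ψ (n + 1) = ψ (n + 1) := by
        by_cases h1 : n + 1 ∈ Finset.Icc a (m - 1)
        · exact cut_mem _ _ _ _ h1
        · have : n + 1 = m := by rw [Finset.mem_Icc] at h1; omega
          rw [this, hd1]
          exact cut_zero _ _ _ _ (Or.inr (by omega))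
      have e2 : cut a (m - 1) ψ (n - 1) = ψ (n - 1) := by
        by_cases h1 : n - 1 ∈ Finset.Icc a (m - 1)
        · exact cut_mem _ _ _ _ h1
        · have h2 : n - 1 < a := by rw [Finset.mem_Icc] at h1; omega
          rw [h.1 _ (Or.inl h2)]
          exact cut_zero _ _ _ _ (Or.inl h2)
      rw [e1, e2, cut_mem _ _ _ _ hn, h.2.2 n hn'.1 (by omega), div_pow, sq_abs]
      ring
  · set F : ℤ → ℝ := fun n => ψ' m * ψ n - ψ m * ψ' n with hF
    have hFm : F m = 0 := by rw [hF]; ring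
    have hFa : ∀ n, n < a → F n = 0 := by
      intro n hn
      rw [hF]
      simp only
      rw [h.1 n (Or.inl hn), h'.1 n (Or.inl hn)]
      ring
    have hc : ∀ n ∈ Finset.Icc a (m - 1), cut a (m - 1) F (n + 1) = F (n + 1) ∧
        cut a (m - 1) F (n - 1) = F (n - 1) ∧ cut a (m - 1) F n = F n := by
      intro n hn
      have hn' := Finset.mem_Icc.1 hn
      refine ⟨?_, ?_, cut_mem _ _ _ _ hn⟩
      · by_cases h1 : n + 1 ∈ Finset.Icc a (m - 1)
        · exact cut_mem _ _ _ _ h1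
        · have : n + 1 = m := by rw [Finset.mem_Icc] at h1; omega
          rw [this, hFm]
          exact cut_zero _ _ _ _ (Or.inr (by omega))
      · by_cases h1 : n - 1 ∈ Finset.Icc a (m - 1)
        · exact cut_mem _ _ _ _ h1
        · have h2 : n - 1 < a := by rw [Finset.mem_Icc] at h1; omega
          rw [hFa _ h2]
          exact cut_zero _ _ _ _ (Or.inl h2)
    have hop : ∀ n ∈ Finset.Icc a (m - 1), F (n + 1) + F (n - 1) + V n * F n =
        E * (ψ' m * ψ n) - E' * (ψ m * ψ' n) := by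
      intro n hn
      have hn' := Finset.mem_Icc.1 hn
      have h1 := h.2.2 n hn'.1 (by omega)
      have h2 := h'.2.2 n hn'.1 (by omega)
      rw [hF]
      simp only
      linear_combination ψ' m * h1 - ψ m * h2
    refine taskApprox V a (m - 1) ((E + E') / 2) (|E - E'| / 2) (cut a (m - 1) F) (by positivity)
      (cut_zero a (m - 1) F) ?_ ?_
    · rw [nsq_cut]
      by_contra hn
      have h0 : nsq a (m - 1) F = 0 := by
        refine le_antisymm (not_lt.1 hn) ?_
        exact Finset.sum_nonneg fun n _ => sq_nonneg _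
      unfold nsq at h0
      rw [Finset.sum_eq_zero_iff_of_nonneg (fun n _ => sq_nonneg _)] at h0
      have hz : ∀ n, a - 1 ≤ n → n ≤ m → F n = 0 := by
        intro n h1 h2
        rcases lt_or_ge n a with h3 | h3
        · exact hFa n h3
        · rcases eq_or_lt_of_le h2 with h4 | h4
          · rw [h4, hFm]
          · exact pow_eq_zero_iff two_ne_zero |>.1 (h0 n (Finset.mem_Icc.2 ⟨h3, by omega⟩))
      have ha : a ∈ Finset.Icc a (m - 1) := Finset.mem_Icc.2 ⟨le_rfl, by omega⟩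
      have h1 := hop a ha
      rw [hz (a + 1) (by omega) (by omega), hz (a - 1) (by omega) (by omega),
        hz a (by omega) (by omega), mul_zero, add_zero, add_zero] at h1
      have h2 : ψ' m * ψ a = ψ m * ψ' a := by
        have := hz a (by omega) (by omega)
        rw [hF] at this
        simp only at this
        linarith
      have h3 : (E - E') * (ψ' m * ψ a) = 0 := by
        rw [← h2] at h1
        linarith
      have h4 : ψ' m * ψ a = 0 := by
        rcases mul_eq_zero.1 h3 with h5 | h5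
        · exact absurd (sub_eq_zero.1 h5) hne
        · exact h5
      apply hdeg
      constructor
      · rw [h4] at h2
        rcases mul_eq_zero.1 h2.symm with h5 | h5
        · exact h5
        · exact absurd h5 (eig_left_ne h')
      · rcases mul_eq_zero.1 h4 with h5 | h5
        · exact h5
        · exact absurd h5 (eig_left_ne h)
    · rw [nsq_cut]
      have e1 : ∀ n ∈ Finset.Icc a (m - 1), (cut a (m - 1) F (n + 1) + cut a (m - 1) F (n - 1) +
          V n * cut a (m - 1) F n - (E + E') / 2 * cut a (m - 1) F n) ^ 2 =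
          (|E - E'| / 2) ^ 2 * (F n ^ 2 + 4 * (ψ m * ψ' m * (ψ n * ψ' n))) := by
        intro n hn
        obtain ⟨c1, c2, c3⟩ := hc n hn
        rw [c1, c2, c3, hop n hn, div_pow, sq_abs, hF]
        ring
      rw [Finset.sum_congr rfl e1, ← Finset.mul_sum]
      refine mul_le_mul_of_nonneg_left ?_ (sq_nonneg _)
      unfold nsq
      rw [Finset.sum_add_distrib]
      have e2 : ∑ n ∈ Finset.Icc a (m - 1), 4 * (ψ m * ψ' m * (ψ n * ψ' n)) =
          4 * (ψ m * ψ' m * ∑ n ∈ Finset.Icc a (m - 1), ψ n * ψ' n) := by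
        rw [Finset.mul_sum, Finset.mul_sum]
      rw [e2]
      linarith

theorem eig_refl {V : ℤ → ℝ} {a b : ℤ} {E : ℝ} {ψ : ℤ → ℝ} (h : IsEig V a b E ψ) :
    IsEig (fun n => V (-n)) (-b) (-a) E (fun n => ψ (-n)) := by
  obtain ⟨h1, h2, h3⟩ := h
  refine ⟨fun n hn => h1 _ (by omega), ?_, fun n hn1 hn2 => ?_⟩
  · unfold nsq at h2 ⊢
    rw [← h2]
    refine Finset.sum_bij' (fun n _ => -n) (fun n _ => -n) ?_ ?_ ?_ ?_ ?_
    · intro n hn; rw [Finset.mem_Icc] at hn ⊢; omega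
    · intro n hn; rw [Finset.mem_Icc] at hn ⊢; omega
    · intro n _; simp
    · intro n _; simp
    · intro n _; simp
  · have := h3 (-n) (by omega) (by omega)
    have e1 : -(n + 1) = -n - 1 := by ring
    have e2 : -(n - 1) = -n + 1 := by ring
    simp only [e1, e2]
    linear_combination this

theorem split_right {V : ℤ → ℝ} {a b m : ℤ} {E E' : ℝ} {ψ ψ' : ℤ → ℝ} (ham : a < m) (hmb : m ≤ b)
    (h : IsEig V a b E ψ) (h' : IsEig V a b E' ψ') (hne : E ≠ E')
    (hS : ψ (m - 1) * ψ' (m - 1) * ∑ n ∈ Finset.Icc m b, ψ n * ψ' n ≤ 0) :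
    ∃ lam φ, IsEig V m b lam φ ∧ |lam - (E + E') / 2| ≤ |E - E'| / 2 := by
  obtain ⟨lam, φ, h1, h2⟩ := split_left (m := 1 - m) (by omega) (by omega) (eig_refl h)
    (eig_refl h') hne (by
      have e1 : -(1 - m) = m - 1 := by ring
      have e2 : 1 - m - 1 = -m := by ring
      simp only [e1, e2]
      refine le_trans (le_of_eq ?_) hS
      congr 1
      refine Finset.sum_bij' (fun n _ => -n) (fun n _ => -n) ?_ ?_ ?_ ?_ ?_
      · intro n hn; rw [Finset.mem_Icc] at hn ⊢; omega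
      · intro n hn; rw [Finset.mem_Icc] at hn ⊢; omega
      · intro n _; simp
      · intro n _; simp
      · intro n _; simp)
  refine ⟨lam, fun n => φ (-n), ?_, h2⟩
  have h3 := eig_refl h1
  have e1 : -(1 - m - 1) = m := by ring
  rw [e1, neg_neg] at h3
  simpa using h3

theorem taskSplit : TaskSplit := by
  intro V a b E E' d ψ ψ' hab h h' hne hd
  have hab' : a < b := by
    rcases eq_or_lt_of_le hab with h0 | h0
    · exfalso
      subst h0
      have h1 := h.2.2 a le_rfl le_rfl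
      have h2 := h'.2.2 a le_rfl le_rfl
      rw [h.1 (a + 1) (Or.inr (by omega)), h.1 (a - 1) (Or.inl (by omega)), zero_add,
        zero_add] at h1
      rw [h'.1 (a + 1) (Or.inr (by omega)), h'.1 (a - 1) (Or.inl (by omega)), zero_add,
        zero_add] at h2
      have h3 := mul_right_cancel₀ (eig_left_ne h) h1
      have h4 := mul_right_cancel₀ (eig_left_ne h') h2
      exact hne (h3.symm.trans h4)
    · exact h0
  set S : ℤ → ℝ := fun m => ∑ n ∈ Finset.Icc a (m - 1), ψ n * ψ' n with hSdef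
  have hSa : S a = 0 := by
    rw [hSdef]
    simp only
    rw [Finset.Icc_eq_empty (by omega), Finset.sum_empty]
  have horth : ∑ n ∈ Finset.Icc a b, ψ n * ψ' n = 0 := by
    have := green_eig h h'
    simp only [sub_self, zero_mul, Finset.sum_const_zero] at this
    rcases mul_eq_zero.1 this with h1 | h1
    · exact absurd (sub_eq_zero.1 h1) hne
    · exact h1
  have hSb : S (b + 1) = 0 := by
    rw [hSdef]
    simp only
    rw [add_sub_cancel_right]
    exact horth
  have hstep : ∀ m, a ≤ m → S (m + 1) = S m + ψ m * ψ' m := by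
    intro m hm
    rw [hSdef]
    simp only
    have e : m + 1 - 1 = (m - 1) + 1 := by ring
    rw [e, Icc_succ_right a (m - 1) (by omega), Finset.sum_insert (by
      rw [Finset.mem_Icc]; omega)]
    have e2 : m - 1 + 1 = m := by ring
    rw [e2]
    ring
  obtain ⟨m, hm, hmax⟩ := Finset.exists_max_image (Finset.Icc (a + 1) b) (fun m => S m ^ 2)
    (Finset.nonempty_Icc.2 (by omega))
  have hm' := Finset.mem_Icc.1 hm
  have hle : ∀ k, a ≤ k → k ≤ b + 1 → S k ^ 2 ≤ S m ^ 2 := by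
    intro k h1 h2
    rcases eq_or_lt_of_le h1 with h3 | h3
    · rw [← h3, hSa]; nlinarith [sq_nonneg (S m)]
    · rcases eq_or_lt_of_le h2 with h4 | h4
      · rw [h4, hSb]; nlinarith [sq_nonneg (S m)]
      · exact hmax k (Finset.mem_Icc.2 ⟨by omega, by omega⟩)
  have h1 : ψ m * ψ' m * S m ≤ 0 := by
    have := hle (m + 1) (by omega) (by omega)
    rw [hstep m (by omega)] at this
    nlinarith [sq_nonneg (ψ m * ψ' m)]
  have h2 : 0 ≤ ψ (m - 1) * ψ' (m - 1) * S m := by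
    have h3 := hle (m - 1) (by omega) (by omega)
    have h4 := hstep (m - 1) (by omega)
    have e : m - 1 + 1 = m := by ring
    rw [e] at h4
    have h5 : S (m - 1) = S m - ψ (m - 1) * ψ' (m - 1) := by linarith
    rw [h5] at h3
    nlinarith [sq_nonneg (ψ (m - 1) * ψ' (m - 1))]
  have h3 : ∑ n ∈ Finset.Icc m b, ψ n * ψ' n = -S m := by
    have h4 : Finset.Icc a b = Finset.Icc a (m - 1) ∪ Finset.Icc m b := by
      ext n
      simp only [Finset.mem_union, Finset.mem_Icc]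
      omega
    have h5 : Disjoint (Finset.Icc a (m - 1)) (Finset.Icc m b) := by
      rw [Finset.disjoint_left]
      intro n hn
      rw [Finset.mem_Icc] at hn ⊢
      omega
    rw [h4, Finset.sum_union h5] at horth
    have : S m = ∑ n ∈ Finset.Icc a (m - 1), ψ n * ψ' n := rfl
    linarith
  obtain ⟨lam, φ, g1, g2⟩ := split_left (by omega) hm'.2 h h' hne h1
  obtain ⟨lam', φ', g3, g4⟩ := split_right (by omega) hm'.2 h h' hne (by
    rw [h3]; linarith)
  refine ⟨m, by omega, hm'.2, lam, φ, lam', φ', g1, g3, ?_⟩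
  have h6 : |lam - lam'| ≤ |lam - (E + E') / 2| + |lam' - (E + E') / 2| := by
    rw [abs_sub_comm lam' _]
    exact abs_sub_le _ _ _
  have h7 := abs_nonneg (E - E')
  linarith

/-- The bad event at a pair of boxes, with large weight at the site `n₀`. -/
def PB (a m b n₀ : ℤ) (κ δ : ℝ) (V : ℤ → ℝ) : Prop :=
  ∃ E ψ E' ψ', IsEig V a (m - 1) E ψ ∧ IsEig V m b E' ψ' ∧ κ ≤ ψ n₀ ^ 2 ∧ |E - E'| ≤ δ

theorem measurable_PB (a m b n₀ : ℤ) (κ δ : ℝ) :
    MeasurableSet {V : ℤ → ℝ | PB a m b n₀ κ δ V} := by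
  have : {V : ℤ → ℝ | PB a m b n₀ κ δ V} = ⋃ R : ℕ, {V : ℤ → ℝ | ∃ E ψ E' ψ',
      |E| ≤ (R : ℝ) ∧ |E'| ≤ (R : ℝ) ∧ IsEig V a (m - 1) E ψ ∧ IsEig V m b E' ψ' ∧
      ((E, ψ), (E', ψ')) ∈ {q : (ℝ × (ℤ → ℝ)) × (ℝ × (ℤ → ℝ)) |
        κ ≤ q.1.2 n₀ ^ 2 ∧ |q.1.1 - q.2.1| ≤ δ}} := by
    ext V
    simp only [Set.mem_iUnion, Set.mem_ofPred_eq]
    constructor
    · rintro ⟨E, ψ, E', ψ', h1, h2, h3, h4⟩
      obtain ⟨R, hR⟩ := exists_nat_ge (max |E| |E'|)
      exact ⟨R, E, ψ, E', ψ', (le_max_left _ _).trans hR, (le_max_right _ _).trans hR,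
        h1, h2, h3, h4⟩
    · rintro ⟨R, E, ψ, E', ψ', -, -, h1, h2, h3, h4⟩
      exact ⟨E, ψ, E', ψ', h1, h2, h3, h4⟩
  rw [this]
  refine MeasurableSet.iUnion fun R => (taskClosed2 _ _ _ _ _ _ ?_).measurableSet
  have hc : Continuous fun q : (ℝ × (ℤ → ℝ)) × (ℝ × (ℤ → ℝ)) => |q.1.1 - q.2.1| := by
    fun_prop
  have hc2 : Continuous fun q : (ℝ × (ℤ → ℝ)) × (ℝ × (ℤ → ℝ)) => q.1.2 n₀ ^ 2 :=
    ((continuous_apply n₀).comp (continuous_snd.comp continuous_fst)).pow 2
  exact (isClosed_le continuous_const hc2).inter (isClosed_le hc continuous_const)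

theorem eig_congr {V V' : ℤ → ℝ} {a b : ℤ} {E : ℝ} {ψ : ℤ → ℝ} (h : IsEig V a b E ψ)
    (hV : ∀ n, a ≤ n → n ≤ b → V n = V' n) : IsEig V' a b E ψ := by
  refine ⟨h.1, h.2.1, fun n h1 h2 => ?_⟩
  rw [← hV n h1 h2]
  exact h.2.2 n h1 h2

theorem PB_prob {ε κ δ : ℝ} (W : ℤ → ℝ) {a m b n₀ : ℤ} (hn : n₀ < m) (hmb : m ≤ b) (hε : 0 < ε)
    (hκ : 0 < κ) (hδ : 0 < δ) :
    PZ {x | PB a m b n₀ κ δ (fun n => W n + ε * x n)} ≤
      ENNReal.ofReal (((b - m + 1 : ℤ) : ℝ) * δ / (ε * κ)) := by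
  set A : (ℤ → ℝ) → Set ℝ := fun x => {E | ∃ E' ψ', IsEig (fun n => W n + ε * x n) m b E' ψ' ∧
    |E - E'| ≤ δ} with hA
  have hm := (measurable_PB a m b n₀ κ δ).preimage (continuous_pot W ε).measurable
  refine (taskSAP W ε κ a (m - 1) n₀ A _ hε hκ hm ?_ ?_).trans ?_
  · intro x s
    rw [hA]
    ext E
    simp only [Set.mem_ofPred_eq]
    have hu : ∀ n, m ≤ n → n ≤ b → W n + ε * Function.update x n₀ s n = W n + ε * x n := by
      intro n h1 _
      rw [Function.update_of_ne (by omega)]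
    constructor
    · rintro ⟨E', ψ', h1, h2⟩
      exact ⟨E', ψ', eig_congr h1 hu, h2⟩
    · rintro ⟨E', ψ', h1, h2⟩
      exact ⟨E', ψ', eig_congr h1 fun n a1 a2 => (hu n a1 a2).symm, h2⟩
  · rintro x ⟨E, ψ, E', ψ', h1, h2, h3, h4⟩
    exact ⟨E, ⟨E', ψ', h2, h4⟩, ψ, h1, h3⟩
  · have hvol : ∀ x, volume (A x) ≤ ENNReal.ofReal (((b - m + 1 : ℤ) : ℝ) * (2 * δ)) := by
      intro x
      obtain ⟨F, hF1, hF2⟩ := taskCard (fun n => W n + ε * x n) m b hmb
      have hsub : A x ⊆ ⋃ e ∈ F, Metric.closedBall e δ := by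
        rintro E ⟨E', ψ', h1, h2⟩
        simp only [Set.mem_iUnion]
        exact ⟨E', hF2 E' ψ' h1, by rw [Metric.mem_closedBall, Real.dist_eq]; exact h2⟩
      calc volume (A x) ≤ volume (⋃ e ∈ F, Metric.closedBall e δ) := measure_mono hsub
        _ ≤ ∑ e ∈ F, volume (Metric.closedBall e δ) := measure_biUnion_finset_le _ _
        _ = ENNReal.ofReal ((F.card : ℝ) * (2 * δ)) := by
            simp only [Real.volume_closedBall, Finset.sum_const, nsmul_eq_mul]
            rw [ENNReal.ofReal_mul (Nat.cast_nonneg F.card), ENNReal.ofReal_natCast]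
        _ ≤ _ := by
            refine ENNReal.ofReal_le_ofReal ?_
            have : (F.card : ℝ) ≤ ((b - m + 1 : ℤ) : ℝ) := by exact_mod_cast hF1
            gcongr
    refine (lintegral_mono fun x => mul_le_mul' le_rfl (hvol x)).trans ?_
    rw [lintegral_const, measure_univ, mul_one, ← ENNReal.ofReal_mul (by positivity)]
    refine ENNReal.ofReal_le_ofReal (le_of_eq ?_)
    field_simp

theorem taskG2 : TaskG2 := by
  refine ⟨48, by norm_num, ?_⟩
  intro ε d W L hε hd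
  set κ : ℝ := 1 / (2 * (L : ℝ) + 1) with hκ
  have hκ0 : 0 < κ := by positivity
  set I : Finset (ℤ × ℤ) := (Finset.Icc (-(L : ℤ) + 1) L) ×ˢ (Finset.Icc (-(L : ℤ)) L) with hI
  have hsub : {x : ℤ → ℝ | Bad2 L d (fun n => W n + ε * x n)} ⊆
      ⋃ p ∈ I, {x : ℤ → ℝ | p.2 < p.1 ∧
        PB (-(L : ℤ)) p.1 L p.2 κ (3 * d) (fun n => W n + ε * x n)} := by
    rintro x ⟨E, ψ, E', ψ', h1, h2, h3, h4⟩
    obtain ⟨m, hm1, hm2, lam, φ, lam', φ', g1, g2, g3⟩ :=
      taskSplit _ _ _ E E' d ψ ψ' (by omega) h1 h2 h3 h4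
    obtain ⟨n₀, hn0, hk⟩ : ∃ n₀ ∈ Finset.Icc (-(L : ℤ)) (m - 1), κ ≤ φ n₀ ^ 2 := by
      by_contra hn
      push Not at hn
      have hne : (Finset.Icc (-(L : ℤ)) (m - 1)).Nonempty := Finset.nonempty_Icc.2 (by omega)
      have h5 := Finset.sum_lt_sum_of_nonempty hne hn
      have h6 := g1.2.1
      unfold nsq at h6
      rw [h6, Finset.sum_const, Int.card_Icc, nsmul_eq_mul] at h5
      have h7 : (((m - 1 + 1 - -(L : ℤ)).toNat : ℕ) : ℝ) ≤ 2 * (L : ℝ) + 1 := by
        have : (m - 1 + 1 - -(L : ℤ)).toNat ≤ 2 * L + 1 := by omega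
        exact_mod_cast this
      have h8 : (((m - 1 + 1 - -(L : ℤ)).toNat : ℕ) : ℝ) * κ ≤ 1 := by
        calc (((m - 1 + 1 - -(L : ℤ)).toNat : ℕ) : ℝ) * κ ≤ (2 * (L : ℝ) + 1) * κ := by gcongr
          _ = 1 := by rw [hκ]; field_simp
      linarith
    have hn0' := Finset.mem_Icc.1 hn0
    simp only [Set.mem_iUnion]
    refine ⟨(m, n₀), ?_, ?_⟩
    · rw [hI, Finset.mem_product, Finset.mem_Icc, Finset.mem_Icc]
      simp only
      omega
    · refine ⟨by simp only; omega, lam, φ, lam', φ', g1, g2, hk, g3⟩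
  have hone : ∀ p ∈ I, PZ {x : ℤ → ℝ | p.2 < p.1 ∧
      PB (-(L : ℤ)) p.1 L p.2 κ (3 * d) (fun n => W n + ε * x n)} ≤
        ENNReal.ofReal (3 * (2 * (L : ℝ) + 1) ^ 2 * d / ε) := by
    intro p hp
    rw [hI, Finset.mem_product, Finset.mem_Icc, Finset.mem_Icc] at hp
    by_cases hlt : p.2 < p.1
    · refine (measure_mono (fun x hx => hx.2)).trans ((PB_prob W hlt hp.1.2 hε hκ0
        (by positivity)).trans (ENNReal.ofReal_le_ofReal ?_))
      have h1 : ((L - p.1 + 1 : ℤ) : ℝ) ≤ 2 * (L : ℝ) + 1 := by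
        have : (L : ℤ) - p.1 + 1 ≤ 2 * L + 1 := by omega
        exact_mod_cast this
      calc ((L - p.1 + 1 : ℤ) : ℝ) * (3 * d) / (ε * κ)
          ≤ (2 * (L : ℝ) + 1) * (3 * d) / (ε * κ) := by gcongr
        _ = _ := by rw [hκ]; field_simp
    · have : {x : ℤ → ℝ | p.2 < p.1 ∧
          PB (-(L : ℤ)) p.1 L p.2 κ (3 * d) (fun n => W n + ε * x n)} = ∅ := by
        ext x
        simp [hlt]
      rw [this, measure_empty]
      exact bot_le
  calc PZ {x : ℤ → ℝ | Bad2 L d (fun n => W n + ε * x n)} ≤ _ := measure_mono hsub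
    _ ≤ ∑ p ∈ I, PZ {x : ℤ → ℝ | p.2 < p.1 ∧
        PB (-(L : ℤ)) p.1 L p.2 κ (3 * d) (fun n => W n + ε * x n)} :=
        measure_biUnion_finset_le _ _
    _ ≤ ∑ p ∈ I, ENNReal.ofReal (3 * (2 * (L : ℝ) + 1) ^ 2 * d / ε) :=
        Finset.sum_le_sum hone
    _ = ENNReal.ofReal ((I.card : ℝ) * (3 * (2 * (L : ℝ) + 1) ^ 2 * d / ε)) := by
        rw [Finset.sum_const, nsmul_eq_mul, ENNReal.ofReal_mul (by positivity),
          ENNReal.ofReal_natCast]
    _ ≤ _ := by
        refine ENNReal.ofReal_le_ofReal ?_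
        have h1 : (I.card : ℝ) ≤ (2 * (L : ℝ) + 1) ^ 2 := by
          rw [hI, Finset.card_product, Int.card_Icc, Int.card_Icc]
          have e1 : ((L : ℤ) + 1 - (-(L : ℤ) + 1)).toNat ≤ 2 * L + 1 := by omega
          have e2 : ((L : ℤ) + 1 - -(L : ℤ)).toNat ≤ 2 * L + 1 := by omega
          have e3 := Nat.mul_le_mul e1 e2
          calc ((((L : ℤ) + 1 - (-(L : ℤ) + 1)).toNat * ((L : ℤ) + 1 - -(L : ℤ)).toNat : ℕ) : ℝ)
              ≤ (((2 * L + 1) * (2 * L + 1) : ℕ) : ℝ) := by exact_mod_cast e3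
            _ = _ := by push_cast; ring
        have h2 : (2 * (L : ℝ) + 1) ^ 2 ≤ 4 * ((L : ℝ) + 1) ^ 2 := by
          have : (0 : ℝ) ≤ L := Nat.cast_nonneg L
          nlinarith
        calc (I.card : ℝ) * (3 * (2 * (L : ℝ) + 1) ^ 2 * d / ε)
            ≤ (4 * ((L : ℝ) + 1) ^ 2) * (3 * (4 * ((L : ℝ) + 1) ^ 2) * d / ε) := by
              gcongr
              exact h1.trans h2
          _ = _ := by ring

end Q235.PP
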