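import Pool.Agent.Q235.PP.Numer
import Pool.Agent.Q235.PP.Split
import Pool.Agent.Q235.PP.Delta

/-!
# Almost sure pure point spectrum for a dense set: the construction
-/

set_option autoImplicit false

open scoped BigOperators ENNReal
open MeasureTheory Filter

set_option linter.unusedSectionVars false

namespace Q235.PP

open Pool.Agent.H695R3.PP Pool.Agent.H853R3.PP.Resample

/-- Clamp to `[-1, 1]`. -/
noncomputable def cl (t : ℝ) : ℝ := max (-1) (min 1 t)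

theorem cl_cont : Continuous cl := continuous_const.max (continuous_const.min continuous_id)

theorem cl_abs (t : ℝ) : |cl t| ≤ 1 := by
  unfold cl
  rw [abs_le]
  exact ⟨le_max_left _ _, max_le (by norm_num) (min_le_left _ _)⟩

theorem cl_eq {t : ℝ} (ht : |t| ≤ 1) : cl t = t := by
  unfold cl
  rw [abs_le] at ht
  rw [min_eq_right ht.2, max_eq_right ht.1]

theorem sε_sum (ε : ℝ) : Summable (sε ε) ∧ ∑' k, sε ε k = ε := by
  have h : HasSum (sε ε) ε := by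
    have h1 := hasSum_geometric_two' ε
    have e : (fun n : ℕ => ε / 2 / 2 ^ n) = sε ε := by
      funext k
      unfold sε
      rw [pow_succ]
      field_simp
    rwa [e] at h1
  exact ⟨h.summable, h.tsum_eq⟩

section

variable {Ω : Type} [AddCommGroup Ω] [TopologicalSpace Ω] [IsTopologicalAddGroup Ω]
  [CompactSpace Ω] [MeasurableSpace Ω] [BorelSpace Ω]

variable (H : ℕ → AddSubgroup Ω) [∀ k, Fintype (Ω ⧸ H k)]

/-- The random data. -/
abbrev Th := (k : ℕ) → (Ω ⧸ H k) → ℝ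

/-- The law of the data of one scale. -/
noncomputable def Pk (k : ℕ) : Measure ((Ω ⧸ H k) → ℝ) := Measure.pi fun _ => U

instance (k : ℕ) : IsProbabilityMeasure (Pk H k) := by unfold Pk; infer_instance

/-- The law of all data. -/
noncomputable def PT : Measure (Th H) := Measure.infinitePi (Pk H)

instance : IsProbabilityMeasure (PT H) := by unfold PT; infer_instance

/-- One term of the series. -/
noncomputable def tm (ε : ℝ) (η : Th H) (k : ℕ) (ω : Ω) : ℝ :=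
  sε ε k * cl (η k (QuotientAddGroup.mk ω))

variable {H}

theorem tm_le {ε : ℝ} (hε : 0 < ε) (η : Th H) (k : ℕ) (ω : Ω) : |tm H ε η k ω| ≤ sε ε k := by
  unfold tm
  rw [abs_mul, abs_of_pos (sε_pos hε k)]
  have := cl_abs (η k (QuotientAddGroup.mk ω))
  have := sε_pos hε k
  nlinarith

theorem tm_summable {ε : ℝ} (hε : 0 < ε) (η : Th H) (ω : Ω) :
    Summable fun k => tm H ε η k ω :=
  Summable.of_norm_bounded (sε_sum ε).1 fun k => tm_le hε η k ω

theorem tm_cont (hH : ∀ k, IsOpen (H k : Set Ω)) (ε : ℝ) (η : Th H) (k : ℕ) :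
    Continuous (tm H ε η k) := by
  unfold tm
  have := QuotientAddGroup.discreteTopology (hH k)
  have h1 : Continuous (η k) := continuous_of_discreteTopology
  exact continuous_const.mul (cl_cont.comp (h1.comp QuotientAddGroup.continuous_mk))

/-- The perturbed function. -/
noncomputable def pert (hH : ∀ k, IsOpen (H k : Set Ω)) (f₀ : C(Ω, ℝ)) {ε : ℝ} (hε : 0 < ε)
    (η : Th H) : C(Ω, ℝ) where
  toFun ω := f₀ ω + ∑' k, tm H ε η k ω
  continuous_toFun := f₀.continuous.add (continuous_tsum (tm_cont hH ε η) (sε_sum ε).1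
    fun k ω => tm_le hε η k ω)

theorem tsum_tm_le {ε : ℝ} (hε : 0 < ε) (η : Th H) (ω : Ω) : |∑' k, tm H ε η k ω| ≤ ε := by
  have h := tsum_of_norm_bounded (f := fun k => tm H ε η k ω) (sε_sum ε).1.hasSum
    fun k => tm_le hε η k ω
  rw [(sε_sum ε).2] at h
  exact h

theorem pert_dist (hH : ∀ k, IsOpen (H k : Set Ω)) (f₀ : C(Ω, ℝ)) {ε : ℝ} (hε : 0 < ε)
    (η : Th H) : dist (pert hH f₀ hε η) f₀ ≤ ε := by
  rw [ContinuousMap.dist_le hε.le]
  intro ω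
  rw [Real.dist_eq]
  have : pert hH f₀ hε η ω - f₀ ω = ∑' k, tm H ε η k ω := by
    show f₀ ω + ∑' k, tm H ε η k ω - f₀ ω = _
    ring
  rw [this]
  exact tsum_tm_le hε η ω

/-- The potential. -/
noncomputable def pot (α : Ω) (hH : ∀ k, IsOpen (H k : Set Ω)) (f₀ : C(Ω, ℝ)) {ε : ℝ}
    (hε : 0 < ε) (η : Th H) (ω : Ω) (n : ℤ) : ℝ := pert hH f₀ hε η (ω + n • α)

theorem measurable_tm (hH : ∀ k, IsOpen (H k : Set Ω)) (ε : ℝ) (k : ℕ) :
    Measurable fun p : Th H × Ω => tm H ε p.1 k p.2 := by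
  classical
  have e : (fun p : Th H × Ω => tm H ε p.1 k p.2) = fun p => sε ε k *
      cl (∑ x : Ω ⧸ H k, ({ω : Ω | (QuotientAddGroup.mk ω : Ω ⧸ H k) = x}.indicator
        (fun _ => (1 : ℝ)) p.2) * p.1 k x) := by
    funext p
    unfold tm
    congr 2
    rw [Finset.sum_eq_single (QuotientAddGroup.mk p.2)]
    · rw [Set.indicator_of_mem (by rfl), one_mul]
    · intro x _ hx
      rw [Set.indicator_of_notMem, zero_mul]
      intro h
      exact hx h.symm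
    · intro h
      exact absurd (Finset.mem_univ _) h
  rw [e]
  refine measurable_const.mul (cl_cont.measurable.comp (Finset.measurable_sum _ fun x _ => ?_))
  refine Measurable.mul ?_ ?_
  · have := QuotientAddGroup.discreteTopology (hH k)
    have h1 : IsOpen {ω : Ω | (QuotientAddGroup.mk ω : Ω ⧸ H k) = x} :=
      (isOpen_discrete {x}).preimage QuotientAddGroup.continuous_mk
    exact (measurable_const.indicator h1.measurableSet).comp measurable_snd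
  · exact (measurable_pi_apply x).comp ((measurable_pi_apply k).comp measurable_fst)

theorem measurable_pot (α : Ω) (hH : ∀ k, IsOpen (H k : Set Ω)) (f₀ : C(Ω, ℝ)) {ε : ℝ}
    (hε : 0 < ε) : Measurable fun p : Th H × Ω => pot α hH f₀ hε p.1 p.2 := by
  refine measurable_pi_lambda _ fun n => ?_
  have hsh : Measurable fun p : Th H × Ω => ((p.1, p.2 + n • α) : Th H × Ω) :=
    measurable_fst.prodMk ((continuous_add_const (n • α)).measurable.comp measurable_snd)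
  have h1 : Measurable fun p : Th H × Ω => ∑' k, tm H ε p.1 k p.2 := by
    refine measurable_of_tendsto_metrizable (f := fun N (p : Th H × Ω) =>
      ∑ k ∈ Finset.range N, tm H ε p.1 k p.2) (fun N => Finset.measurable_sum _ fun k _ =>
        measurable_tm hH ε k) ?_
    rw [tendsto_pi_nhds]
    intro p
    exact (tm_summable hε p.1 p.2).hasSum.tendsto_sum_nat
  have h2 : Measurable fun p : Th H × Ω => f₀ p.2 + ∑' k, tm H ε p.1 k p.2 :=
    (f₀.continuous.measurable.comp measurable_snd).add h1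
  exact h2.comp hsh

theorem pot_update (α : Ω) (hH : ∀ k, IsOpen (H k : Set Ω)) (f₀ : C(Ω, ℝ)) {ε : ℝ}
    (hε : 0 < ε) (η : Th H) (ω : Ω) (k : ℕ) :
    ∃ W : ℤ → ℝ, (∀ n, |W n| ≤ ‖f₀‖ + ε) ∧ ∀ ζ : (Ω ⧸ H k) → ℝ,
      pot α hH f₀ hε (Function.update η k ζ) ω =
        fun n => W n + sε ε k * cl (ζ (QuotientAddGroup.mk (ω + n • α))) := by
  refine ⟨fun n => f₀ (ω + n • α) + ∑' j, if j = k then 0 else tm H ε η j (ω + n • α),
    fun n => ?_, fun ζ => ?_⟩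
  · refine (abs_add_le _ _).trans (add_le_add (f₀.norm_coe_le_norm _) ?_)
    have hb : ∀ j, ‖(if j = k then (0 : ℝ) else tm H ε η j (ω + n • α))‖ ≤ sε ε j := by
      intro j
      split_ifs
      · rw [norm_zero]; exact (sε_pos hε j).le
      · exact tm_le hε η j _
    have h := tsum_of_norm_bounded (sε_sum ε).1.hasSum hb
    rw [(sε_sum ε).2] at h
    exact h
  · funext n
    show f₀ (ω + n • α) + ∑' j, tm H ε (Function.update η k ζ) j (ω + n • α) = _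
    rw [(tm_summable hε (Function.update η k ζ) (ω + n • α)).tsum_eq_add_tsum_ite k]
    have e1 : tm H ε (Function.update η k ζ) k (ω + n • α) =
        sε ε k * cl (ζ (QuotientAddGroup.mk (ω + n • α))) := by
      unfold tm
      rw [Function.update_self]
    have e2 : (∑' j, if j = k then 0 else tm H ε (Function.update η k ζ) j (ω + n • α)) =
        ∑' j, if j = k then 0 else tm H ε η j (ω + n • α) := by
      refine tsum_congr fun j => ?_
      split_ifs with hj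
      · rfl
      · unfold tm
        rw [Function.update_of_ne hj]
    rw [e1, e2]
    ring

theorem Pk_bound (k : ℕ) : ∀ᵐ ζ ∂(Pk H k), ∀ x, |ζ x| ≤ 1 := by
  rw [ae_all_iff]
  intro x
  have h1 : Measure.map (fun ζ : (Ω ⧸ H k) → ℝ => ζ x) (Pk H k) = U := by
    unfold Pk
    rw [← Measure.infinitePi_eq_pi]
    exact Measure.infinitePi_map_eval (fun _ : Ω ⧸ H k => U) x
  have h2 : ∀ᵐ s ∂(Measure.map (fun ζ : (Ω ⧸ H k) → ℝ => ζ x) (Pk H k)), |s| ≤ 1 := by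
    rw [h1]
    filter_upwards [U_compl] with s hs
    exact abs_le.2 hs
  exact ae_of_ae_map (measurable_pi_apply x).aemeasurable h2

/-- The probability of an event which depends on a window, conditionally on the other scales. -/
theorem prob_le (α : Ω) (hH : ∀ k, IsOpen (H k : Set Ω)) (f₀ : C(Ω, ℝ)) {ε : ℝ}
    (hε : 0 < ε) (ω : Ω) (k L : ℕ) (hinj : ∀ j : ℤ, j ≠ 0 → |j| ≤ 2 * L → j • α ∉ H k)
    (B : Set (ℤ → ℝ)) (hB : MeasurableSet B)
    (hdep : ∀ V V' : ℤ → ℝ, (∀ n, -(L : ℤ) ≤ n → n ≤ L → V n = V' n) → (V ∈ B ↔ V' ∈ B))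
    (p : ℝ≥0∞) (hp : ∀ W : ℤ → ℝ, (∀ n, |W n| ≤ ‖f₀‖ + ε) →
      PZ {x | (fun n => W n + sε ε k * x n) ∈ B} ≤ p) :
    PT H {η | pot α hH f₀ hε η ω ∈ B} ≤ p := by
  have h := taskResample ℕ (fun k => (Ω ⧸ H k) → ℝ) (Pk H) k
  have hu : Measurable (fun q : Th H × ((Ω ⧸ H k) → ℝ) => Function.update q.1 k q.2) :=
    measurable_upd (X := fun k => (Ω ⧸ H k) → ℝ) k
  have hω : Measurable fun η : Th H => pot α hH f₀ hε η ω :=
    (measurable_pot α hH f₀ hε).comp (measurable_id.prodMk measurable_const)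
  have hBm : MeasurableSet {η : Th H | pot α hH f₀ hε η ω ∈ B} := hω hB
  have h1 : PT H {η | pot α hH f₀ hε η ω ∈ B} = ∫⁻ η, Pk H k {ζ |
      pot α hH f₀ hε (Function.update η k ζ) ω ∈ B} ∂(PT H) := by
    have : PT H {η | pot α hH f₀ hε η ω ∈ B} = ((PT H).prod (Pk H k))
        ((fun q : Th H × ((Ω ⧸ H k) → ℝ) => Function.update q.1 k q.2) ⁻¹'
          {η | pot α hH f₀ hε η ω ∈ B}) := by
      rw [← Measure.map_apply hu hBm]
      unfold PT
      rw [h]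
    rw [this, Measure.prod_apply (hu hBm)]
    rfl
  rw [h1]
  have h2 : ∀ η : Th H, Pk H k {ζ | pot α hH f₀ hε (Function.update η k ζ) ω ∈ B} ≤ p := by
    intro η
    obtain ⟨W, hW1, hW2⟩ := pot_update α hH f₀ hε η ω k
    have e1 : Pk H k {ζ | pot α hH f₀ hε (Function.update η k ζ) ω ∈ B} =
        Pk H k {ζ | (fun n : ℤ => W n + sε ε k * ζ (QuotientAddGroup.mk (ω + n • α))) ∈ B} := by
      refine measure_congr ?_
      filter_upwards [Pk_bound (H := H) k] with ζ hζ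
      have : (fun n : ℤ => W n + sε ε k * cl (ζ (QuotientAddGroup.mk (ω + n • α)))) =
          fun n : ℤ => W n + sε ε k * ζ (QuotientAddGroup.mk (ω + n • α)) := by
        funext n
        rw [cl_eq (hζ _)]
      show (pot α hH f₀ hε (Function.update η k ζ) ω ∈ B) = (_ ∈ B)
      rw [hW2 ζ, this]
    rw [e1]
    have hq : Set.InjOn (fun n : ℤ => (QuotientAddGroup.mk (ω + n • α) : Ω ⧸ H k))
        (Set.Icc (-(L : ℤ)) L) := by
      intro n hn m hm hnm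
      by_contra hne
      have h3 : (n - m) • α ∈ H k := by
        have h4 : (QuotientAddGroup.mk (ω + m • α) : Ω ⧸ H k) = QuotientAddGroup.mk (ω + n • α) :=
          hnm.symm
        rw [QuotientAddGroup.eq] at h4
        have h5 : -(ω + m • α) + (ω + n • α) = (n - m) • α := by
          rw [sub_zsmul]; abel
        rw [h5] at h4
        exact h4
      refine hinj (n - m) (sub_ne_zero.2 hne) ?_ h3
      rw [abs_le]
      obtain ⟨a1, a2⟩ := hn
      obtain ⟨b1, b2⟩ := hm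
      constructor <;> omega
    have e2 := taskTransfer (Ω ⧸ H k) (fun n : ℤ => (QuotientAddGroup.mk (ω + n • α) : Ω ⧸ H k)) L W
      (sε ε k) B hq hB hdep
    unfold Pk
    rw [e2]
    exact hp W hW1
  calc ∫⁻ η, Pk H k {ζ | pot α hH f₀ hε (Function.update η k ζ) ω ∈ B} ∂(PT H)
      ≤ ∫⁻ _, p ∂(PT H) := lintegral_mono h2
    _ = p := by rw [lintegral_const, measure_univ, mul_one]

theorem bad1_dep (L : ℕ) (a τ : ℝ) (V V' : ℤ → ℝ)
    (h : ∀ n, -(L : ℤ) ≤ n → n ≤ L → V n = V' n) :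
    (V ∈ {V : ℤ → ℝ | Bad1 L a τ V} ↔ V' ∈ {V : ℤ → ℝ | Bad1 L a τ V}) := by
  constructor
  · rintro ⟨E, ψ, h1, h2⟩
    exact ⟨E, ψ, eig_congr h1 h, h2⟩
  · rintro ⟨E, ψ, h1, h2⟩
    exact ⟨E, ψ, eig_congr h1 fun n a b => (h n a b).symm, h2⟩

theorem bad2_dep (L : ℕ) (d : ℝ) (V V' : ℤ → ℝ)
    (h : ∀ n, -(L : ℤ) ≤ n → n ≤ L → V n = V' n) :
    (V ∈ {V : ℤ → ℝ | Bad2 L d V} ↔ V' ∈ {V : ℤ → ℝ | Bad2 L d V}) := by
  constructor
  · rintro ⟨E, ψ, E', ψ', h1, h2, h3⟩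
    exact ⟨E, ψ, E', ψ', eig_congr h1 h, eig_congr h2 h, h3⟩
  · rintro ⟨E, ψ, E', ψ', h1, h2, h3⟩
    have h' : ∀ n, -(L : ℤ) ≤ n → n ≤ L → V' n = V n := fun n a b => (h n a b).symm
    exact ⟨E, ψ, E', ψ', eig_congr h1 h', eig_congr h2 h', h3⟩

/-- The good potentials. -/
def Gd (κ : ℝ) (V : ℤ → ℝ) : Prop :=
  (∀ᶠ k in atTop, ¬ Bad1 (sL k) (sa k) (sτ κ k) V) ∧ ∀ᶠ k in atTop, ¬ Bad2 (sL k) (sd k) V

theorem measurable_Gd (κ : ℝ) : MeasurableSet {V : ℤ → ℝ | Gd κ V} := by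
  have h1 : {V : ℤ → ℝ | Gd κ V} =
      (⋃ K : ℕ, ⋂ k : ℕ, ⋂ _ : K ≤ k, {V : ℤ → ℝ | Bad1 (sL k) (sa k) (sτ κ k) V}ᶜ) ∩
      (⋃ K : ℕ, ⋂ k : ℕ, ⋂ _ : K ≤ k, {V : ℤ → ℝ | Bad2 (sL k) (sd k) V}ᶜ) := by
    ext V
    simp only [Gd, eventually_atTop, Set.mem_inter_iff, Set.mem_iUnion, Set.mem_iInter,
      Set.mem_compl_iff, Set.mem_ofPred_eq]
  rw [h1]
  refine MeasurableSet.inter ?_ ?_
  · exact MeasurableSet.iUnion fun K => MeasurableSet.iInter fun k => MeasurableSet.iInter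
      fun _ => (taskMeas.1 _ _ _).compl
  · exact MeasurableSet.iUnion fun K => MeasurableSet.iInter fun k => MeasurableSet.iInter
      fun _ => (taskMeas.2 _ _).compl

theorem good_delta {κ : ℝ} (hκ : 0 < κ) {V : ℤ → ℝ} (h : Gd κ V) :
    lp.single 2 (0 : ℤ) (1 : ℂ) ∈ (EigSpan V).topologicalClosure := by
  refine taskDelta V sL sa (sτ κ) sd sL_mono (fun k => ⟨sa_pos k, sτ_pos κ k, sd_pos k⟩) h.1 ?_
    (f3 hκ) (f4 hκ) (f5 hκ) (f6 hκ) f7 (f8 hκ)
  exact (tendsto_add_atTop_nat 1).eventually h.2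

theorem ae_good (α : Ω) (hH : ∀ k, IsOpen (H k : Set Ω)) (f₀ : C(Ω, ℝ)) {ε : ℝ}
    (hε : 0 < ε) (hε1 : ε ≤ 1)
    (hinj : ∀ (k : ℕ) (j : ℤ), j ≠ 0 → |j| ≤ 2 * (sL k : ℤ) → j • α ∉ H k) :
    ∃ κ : ℝ, 0 < κ ∧ ∀ ω : Ω, ∀ᵐ η ∂(PT H), Gd κ (pot α hH f₀ hε η ω) := by
  obtain ⟨c, C, hc0, hc1, hC, hG1⟩ := taskG1
  obtain ⟨C', hC', hG2⟩ := taskG2
  refine ⟨c * ε ^ 2 / 8, by positivity, fun ω => ?_⟩
  set R : ℝ := ‖f₀‖ + 1 with hR
  have hR1 : 1 ≤ R := by rw [hR]; linarith [norm_nonneg f₀]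
  have hsL : ∀ k, 1 ≤ sL k := fun k => Nat.one_le_pow _ _ (by norm_num)
  have b1 : ∀ k, PT H {η | pot α hH f₀ hε η ω ∈
      {V : ℤ → ℝ | Bad1 (sL k) (sa k) (sτ (c * ε ^ 2 / 8) k) V}} ≤
      ENNReal.ofReal (C * R ^ 2 / (sε ε k ^ 3 * sa k ^ 2 * sτ (c * ε ^ 2 / 8) k) *
        (1 - c * sε ε k ^ 2) ^ sL k) := by
    intro k
    refine prob_le α hH f₀ hε ω k (sL k) (hinj k) _ (taskMeas.1 _ _ _) (bad1_dep _ _ _) _ ?_
    intro W hW
    exact hG1 (sε ε k) R (sa k) (sτ (c * ε ^ 2 / 8) k) W (sL k) (sε_pos hε k)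
      (sε_le hε hε1 k) hR1 (fun n => (hW n).trans (by rw [hR]; linarith)) (sa_pos k) (sτ_pos _ k)
      (hsL k)
  have b2 : ∀ k, PT H {η | pot α hH f₀ hε η ω ∈ {V : ℤ → ℝ | Bad2 (sL k) (sd k) V}} ≤
      ENNReal.ofReal (C' * ((sL k : ℝ) + 1) ^ 4 * sd k / sε ε k) := by
    intro k
    refine prob_le α hH f₀ hε ω k (sL k) (hinj k) _ (taskMeas.2 _ _) (bad2_dep _ _) _ ?_
    intro W _
    exact hG2 (sε ε k) (sd k) W (sL k) (sε_pos hε k) (sd_pos k)
  have s1 : ∑' k, PT H {η | pot α hH f₀ hε η ω ∈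
      {V : ℤ → ℝ | Bad1 (sL k) (sa k) (sτ (c * ε ^ 2 / 8) k) V}} ≠ ⊤ :=
    ne_top_of_le_ne_top (f9 (R := R) hc0 hc1 hC (by linarith) hε hε1).tsum_ofReal_ne_top
      (ENNReal.tsum_le_tsum b1)
  have s2 : ∑' k, PT H {η | pot α hH f₀ hε η ω ∈ {V : ℤ → ℝ | Bad2 (sL k) (sd k) V}} ≠ ⊤ :=
    ne_top_of_le_ne_top (f10 hC' hε).tsum_ofReal_ne_top (ENNReal.tsum_le_tsum b2)
  filter_upwards [ae_eventually_notMem s1, ae_eventually_notMem s2] with η h1 h2
  exact ⟨h1, h2⟩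

theorem construct [Infinite Ω] (μ : Measure Ω) [SFinite μ] (α : Ω)
    (hH : ∀ k, IsOpen (H k : Set Ω)) (f₀ : C(Ω, ℝ)) {ε : ℝ} (hε : 0 < ε) (hε1 : ε ≤ 1)
    (hinj : ∀ (k : ℕ) (j : ℤ), j ≠ 0 → |j| ≤ 2 * (sL k : ℤ) → j • α ∉ H k) :
    ∃ f : C(Ω, ℝ), dist f f₀ ≤ ε ∧
      ∀ᵐ ω ∂μ, (EigSpan fun n => f (ω + n • α)).topologicalClosure = ⊤ := by
  obtain ⟨κ, hκ, hae⟩ := ae_good α hH f₀ hε hε1 hinj
  have hm : ∀ m : ℤ, ∀ᵐ η ∂(PT H), ∀ᵐ ω ∂μ, Gd κ (pot α hH f₀ hε η (ω + m • α)) := by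
    intro m
    have hmeas : MeasurableSet {q : Th H × Ω | Gd κ (pot α hH f₀ hε q.1 (q.2 + m • α))} := by
      have hsh : Measurable fun p : Th H × Ω => ((p.1, p.2 + m • α) : Th H × Ω) :=
        measurable_fst.prodMk ((continuous_add_const (m • α)).measurable.comp measurable_snd)
      exact ((measurable_pot α hH f₀ hε).comp hsh) (measurable_Gd κ)
    rw [Measure.ae_ae_comm (p := fun η ω => Gd κ (pot α hH f₀ hε η (ω + m • α))) hmeas]
    exact Eventually.of_forall fun ω => hae (ω + m • α)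
  have hall : ∀ᵐ η ∂(PT H), ∀ m : ℤ, ∀ᵐ ω ∂μ, Gd κ (pot α hH f₀ hε η (ω + m • α)) :=
    ae_all_iff.2 hm
  obtain ⟨η, hη⟩ := hall.exists
  refine ⟨pert hH f₀ hε η, pert_dist hH f₀ hε η, ?_⟩
  have h2 : ∀ᵐ ω ∂μ, ∀ m : ℤ, Gd κ (pot α hH f₀ hε η (ω + m • α)) := ae_all_iff.2 hη
  filter_upwards [h2] with ω hω
  refine taskTop _ fun m => ?_
  have h3 := good_delta hκ (hω m)
  have e : pot α hH f₀ hε η (ω + m • α) = fun n : ℤ => pert hH f₀ hε η (ω + (m + n) • α) := by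
    funext n
    show pert hH f₀ hε η (ω + m • α + n • α) = _
    rw [add_zsmul, add_assoc]
  rw [e] at h3
  exact h3

end

theorem main (Ω : Type) [AddCommGroup Ω] [TopologicalSpace Ω] [IsTopologicalAddGroup Ω]
    [CompactSpace Ω] [T2Space Ω] [TotallyDisconnectedSpace Ω] [Infinite Ω]
    [MeasurableSpace Ω] [BorelSpace Ω] (μ : Measure Ω) [SFinite μ] (α : Ω)
    (hα : Dense (Set.range (fun n : ℤ => n • α))) :
    ∃ D : Set C(Ω, ℝ), Dense D ∧ ∀ f ∈ D, ∀ᵐ ω ∂μ,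
      (EigSpan fun n => f (ω + n • α)).topologicalClosure = ⊤ := by
  refine ⟨{f | ∀ᵐ ω ∂μ, (EigSpan fun n => f (ω + n • α)).topologicalClosure = ⊤}, ?_,
    fun f hf => hf⟩
  have hex : ∀ k : ℕ, ∃ H : AddSubgroup Ω, IsOpen (H : Set Ω) ∧ Finite (Ω ⧸ H) ∧
      ∀ j : ℤ, j ≠ 0 → |j| ≤ 2 * (sL k : ℤ) → j • α ∉ H := by
    intro k
    obtain ⟨H, h1, h2, h3⟩ := taskGroup Ω α hα (2 * sL k)
    exact ⟨H, h1, h2, fun j hj hj2 => h3 j hj (by push_cast; exact hj2)⟩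
  choose H hH1 hH2 hH3 using hex
  have : ∀ k, Fintype (Ω ⧸ H k) := fun k => Fintype.ofFinite _
  intro f₀
  rw [Metric.mem_closure_iff]
  intro r hr
  set ε : ℝ := min (r / 2) 1 with hε
  have hε0 : 0 < ε := lt_min (by linarith) zero_lt_one
  have hε1 : ε ≤ 1 := min_le_right _ _
  obtain ⟨f, hf1, hf2⟩ := construct (H := H) μ α hH1 f₀ hε0 hε1 hH3
  refine ⟨f, hf2, ?_⟩
  rw [dist_comm]
  have : ε ≤ r / 2 := min_le_left _ _
  linarith

end Q235.PP
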