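import Pool.Agent.H695R3.PP.Stmts

/-!
# Small open subgroups (TaskGroup) and the numerical facts (TaskNum)
-/

set_option autoImplicit false

open scoped BigOperators ENNReal
open MeasureTheory

namespace Q235.PP

open Pool.Agent.H695R3.PP

theorem taskGroup : TaskGroup := by
  intro Ω _ _ _ _ _ _ _ α hd N
  have hne : ∀ j : ℤ, j ≠ 0 → j • α ≠ 0 := by
    intro j hj h0
    have hfin : (Set.range (fun n : ℤ => n • α)).Finite := by
      have hsub : Set.range (fun n : ℤ => n • α) ⊆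
          (fun n : ℤ => n • α) '' (Set.Ico 0 |j|) := by
        rintro _ ⟨n, rfl⟩
        refine ⟨n % j, ⟨Int.emod_nonneg _ hj, Int.emod_lt_abs _ hj⟩, ?_⟩
        have h1 : n = n % j + (n / j) * j := by rw [mul_comm]; exact (Int.emod_add_mul_ediv n j).symm
        have h2 : n • α = (n % j) • α + ((n / j) * j) • α := by
          rw [← add_zsmul, ← h1]
        have h3 : ((n / j) * j) • α = 0 := by rw [mul_zsmul, h0, zsmul_zero]
        simp only
        rw [h2, h3, add_zero]
      exact ((Set.finite_Ico _ _).image _).subset hsub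
    have hcl : closure (Set.range (fun n : ℤ => n • α)) = Set.range (fun n : ℤ => n • α) :=
      hfin.isClosed.closure_eq
    rw [hd.closure_eq] at hcl
    exact Set.infinite_univ (hcl ▸ hfin)
  set F : Set Ω := (fun j : ℤ => j • α) '' {j : ℤ | j ≠ 0 ∧ |j| ≤ N} with hF
  have hFfin : F.Finite := by
    refine Set.Finite.image _ ?_
    refine (Set.finite_Icc (-(N : ℤ)) N).subset ?_
    rintro j ⟨-, hj⟩
    exact abs_le.1 hj
  have hopen : IsOpen (Fᶜ) := hFfin.isClosed.isOpen_compl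
  have h0 : (0 : Ω) ∈ Fᶜ := by
    rintro ⟨j, ⟨hj, -⟩, h⟩
    exact hne j hj h
  obtain ⟨H, hH⟩ := ProfiniteGrp.exist_openNormalAddSubgroup_sub_open_nhds_of_zero hopen h0
  refine ⟨H.toAddSubgroup, H.isOpen', AddSubgroup.quotient_finite_of_isOpen _ H.isOpen', ?_⟩
  intro j hj hjN hmem
  exact hH hmem ⟨j, ⟨hj, hjN⟩, rfl⟩

theorem exp_bound (κ : ℝ) (hκ : 0 < κ) (m k : ℕ) :
    Real.exp (-(κ * 4 ^ k)) ≤ (m.factorial / κ ^ m) * (((4 : ℝ) ^ m)⁻¹) ^ k := by
  have hpos : 0 < κ * 4 ^ k := by positivity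
  have h1 := Real.pow_div_factorial_le_exp (κ * 4 ^ k) hpos.le m
  rw [Real.exp_neg]
  have h2 : 0 < (κ * 4 ^ k) ^ m / (m.factorial : ℝ) := by positivity
  calc (Real.exp (κ * 4 ^ k))⁻¹ ≤ ((κ * 4 ^ k) ^ m / (m.factorial : ℝ))⁻¹ :=
        inv_anti₀ h2 h1
    _ = (m.factorial / κ ^ m) * (((4 : ℝ) ^ m)⁻¹) ^ k := by
        rw [mul_pow, inv_div, inv_pow, ← pow_mul, ← pow_mul, mul_comm k m]
        field_simp

theorem taskNum : TaskNum := by
  intro κ A hκ hA
  obtain ⟨m, hm⟩ := pow_unbounded_of_one_lt (2 * A) (by norm_num : (1 : ℝ) < 4)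
  obtain ⟨C, hC⟩ : ∃ C : ℝ, C = m.factorial / κ ^ m := ⟨_, rfl⟩
  have hC0 : 0 < C := by rw [hC]; positivity
  obtain ⟨q, hq⟩ : ∃ q : ℝ, q = ((4 : ℝ) ^ m)⁻¹ := ⟨_, rfl⟩
  have hq0 : 0 < q := by rw [hq]; positivity
  have hA0 : 0 < A := by linarith
  have hqA : A * q ≤ 1 / 2 := by
    rw [hq, ← div_eq_mul_inv, div_le_iff₀ (by positivity)]
    linarith
  have hq1 : q ≤ 1 / 2 := by nlinarith
  have hb : ∀ k, Real.exp (-(κ * 4 ^ k)) ≤ C * q ^ k := fun k => by
    rw [hC, hq]; exact exp_bound κ hκ m k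
  have hAq : ∀ k, A ^ k * q ^ k ≤ (1 / 2) ^ k := fun k => by
    rw [← mul_pow]
    exact pow_le_pow_left₀ (by positivity) hqA k
  have hgeo : Summable fun k : ℕ => (1 / 2 : ℝ) ^ k :=
    summable_geometric_of_lt_one (by norm_num) (by norm_num)
  have hgq : Summable fun k : ℕ => q ^ k :=
    summable_geometric_of_lt_one hq0.le (by linarith)
  constructor
  · refine Summable.of_nonneg_of_le (fun k => by positivity) (fun k => ?_) (hgeo.mul_left C)
    calc A ^ k * Real.exp (-(κ * 4 ^ k)) ≤ A ^ k * (C * q ^ k) :=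
          mul_le_mul_of_nonneg_left (hb k) (by positivity)
      _ = C * (A ^ k * q ^ k) := by ring
      _ ≤ C * (1 / 2) ^ k := mul_le_mul_of_nonneg_left (hAq k) hC0.le
  · have hlim : Filter.Tendsto (fun k : ℕ => (2 * C) * (1 / 2 : ℝ) ^ k) Filter.atTop (nhds 0) := by
      have := (tendsto_pow_atTop_nhds_zero_of_lt_one (by norm_num : (0 : ℝ) ≤ 1 / 2)
        (by norm_num)).const_mul (2 * C)
      simpa using this
    refine squeeze_zero (fun k => ?_) (fun k => ?_) hlim
    · exact mul_nonneg (by positivity) (tsum_nonneg fun j => (Real.exp_pos _).le)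
    · have hs1 : Summable fun j : ℕ => C * q ^ (k + j) := by
        simp only [pow_add, ← mul_assoc]
        exact hgq.mul_left _
      have hs2 : Summable fun j : ℕ => Real.exp (-(κ * 4 ^ (k + j))) :=
        Summable.of_nonneg_of_le (fun j => (Real.exp_pos _).le) (fun j => hb (k + j)) hs1
      have h1 : ∑' j : ℕ, Real.exp (-(κ * 4 ^ (k + j))) ≤ ∑' j : ℕ, C * q ^ (k + j) :=
        Summable.tsum_le_tsum (fun j => hb (k + j)) hs2 hs1
      have h2 : ∑' j : ℕ, C * q ^ (k + j) = C * q ^ k * (1 - q)⁻¹ := by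
        have : (fun j : ℕ => C * q ^ (k + j)) = fun j => (C * q ^ k) * q ^ j := by
          funext j; rw [pow_add]; ring
        rw [this, tsum_mul_left, tsum_geometric_of_lt_one hq0.le (by linarith)]
      have h3 : (1 - q)⁻¹ ≤ 2 := by
        rw [inv_le_comm₀ (by linarith) (by norm_num)]
        linarith
      calc A ^ k * ∑' j : ℕ, Real.exp (-(κ * 4 ^ (k + j))) ≤ A ^ k * (C * q ^ k * (1 - q)⁻¹) := by
            rw [← h2]; exact mul_le_mul_of_nonneg_left h1 (by positivity)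
        _ ≤ A ^ k * (C * q ^ k * 2) := by
            refine mul_le_mul_of_nonneg_left (mul_le_mul_of_nonneg_left h3 (by positivity)) (by positivity)
        _ = (2 * C) * (A ^ k * q ^ k) := by ring
        _ ≤ (2 * C) * (1 / 2) ^ k := mul_le_mul_of_nonneg_left (hAq k) (by positivity)

end Q235.PP
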