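import Pool.Agent.Q235.PP.Contr
import Pool.Agent.H853R3.PP.TaskResample

/-!
# The first negative moment of the length decays exponentially (TaskJ)
-/

set_option autoImplicit false

open scoped BigOperators ENNReal
open MeasureTheory

namespace Q235.PP

open Pool.Agent.H695R3.PP Pool.Agent.H853R3.PP.Resample

/-- Resampling as an identity for integrals. -/
theorem resample_lintegral (m : ℤ) {F : (ℤ → ℝ) → ℝ≥0∞} (hF : Measurable F) :
    ∫⁻ x, F x ∂PZ = ∫⁻ s, (∫⁻ x, F (Function.update x m s) ∂PZ) ∂U := by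
  have h := taskResample ℤ (fun _ => ℝ) (fun _ => U) m
  have hu : Measurable (fun p : (ℤ → ℝ) × ℝ => Function.update p.1 m p.2) :=
    measurable_upd (X := fun _ : ℤ => ℝ) m
  calc ∫⁻ x, F x ∂PZ
      = ∫⁻ x, F x ∂(Measure.map (fun p : (ℤ → ℝ) × ℝ => Function.update p.1 m p.2)
          (PZ.prod U)) := by
        unfold PZ
        rw [h]
    _ = ∫⁻ p : (ℤ → ℝ) × ℝ, F (Function.update p.1 m p.2) ∂(PZ.prod U) := lintegral_map hF hu
    _ = _ := lintegral_prod_symm' _ (hF.comp hu)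

/-- One step of the recursion. -/
def step (E v : ℝ) (p : ℝ × ℝ) : ℝ × ℝ := ((E - v) * p.1 - p.2, p.1)

/-- The length. -/
noncomputable def nrm (p : ℝ × ℝ) : ℝ := Real.sqrt (p.1 ^ 2 + p.2 ^ 2)

/-- The solution with a general initial vector. -/
noncomputable def gsol (V : ℤ → ℝ) (E : ℝ) (b : ℤ) (v : ℝ × ℝ) : ℕ → ℝ × ℝ
  | 0 => v
  | (j + 1) => step E (V (b - j)) (gsol V E b v j)

theorem rsol_eq (V : ℤ → ℝ) (E : ℝ) (b : ℤ) (j : ℕ) : rsol V E b j = gsol V E b (1, 0) j := by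
  induction j with
  | zero => rfl
  | succ j ih =>
    rw [rsol, gsol, ih]
    rfl

theorem rlen_eq (V : ℤ → ℝ) (E : ℝ) (b : ℤ) (j : ℕ) :
    rlen V E b j = nrm (gsol V E b (1, 0) j) := by
  unfold rlen nrm
  rw [rsol_eq]

theorem gsol_succ (V : ℤ → ℝ) (E : ℝ) (b : ℤ) (v : ℝ × ℝ) (j : ℕ) :
    gsol V E b v (j + 1) = gsol V E (b - 1) (step E (V b) v) j := by
  induction j with
  | zero =>
    simp [gsol]
  | succ j ih =>
    rw [gsol, ih, gsol]
    congr 2
    push_cast
    ring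

theorem gsol_congr {V V' : ℤ → ℝ} (E : ℝ) (b : ℤ) (v : ℝ × ℝ) (j : ℕ)
    (h : ∀ n, n ≤ b → b - j < n → V n = V' n) : gsol V E b v j = gsol V' E b v j := by
  induction j with
  | zero => rfl
  | succ j ih =>
    rw [gsol, gsol, ih (fun n h1 h2 => h n h1 (by push_cast; omega)),
      h (b - j) (by omega) (by push_cast; omega)]

theorem continuous_gsol (W : ℤ → ℝ) (ε : ℝ) (b : ℤ) (v : ℝ × ℝ) (j : ℕ) :
    Continuous fun q : (ℤ → ℝ) × ℝ => gsol (fun n => W n + ε * q.1 n) q.2 b v j := by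
  induction j with
  | zero => exact continuous_const
  | succ j ih =>
    have e : (fun q : (ℤ → ℝ) × ℝ => gsol (fun n => W n + ε * q.1 n) q.2 b v (j + 1)) =
        fun q => ((q.2 - (W (b - j) + ε * q.1 (b - j))) *
          (gsol (fun n => W n + ε * q.1 n) q.2 b v j).1 -
          (gsol (fun n => W n + ε * q.1 n) q.2 b v j).2,
          (gsol (fun n => W n + ε * q.1 n) q.2 b v j).1) := rfl
    rw [e]
    have h1 := continuous_fst.comp ih
    have h2 := continuous_snd.comp ih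
    have h3 : Continuous fun q : (ℤ → ℝ) × ℝ => q.1 (b - j) :=
      (continuous_apply _).comp continuous_fst
    exact (((continuous_snd.sub (continuous_const.add (continuous_const.mul h3))).mul h1).sub
      h2).prodMk h1

theorem continuous_gsol' (W : ℤ → ℝ) (ε E : ℝ) (b : ℤ) (v : ℝ × ℝ) (j : ℕ) :
    Continuous fun x : ℤ → ℝ => gsol (fun n => W n + ε * x n) E b v j :=
  (continuous_gsol W ε b v j).comp (continuous_id.prodMk continuous_const)

theorem continuous_nrm : Continuous nrm := by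
  unfold nrm
  exact ((continuous_fst.pow 2).add (continuous_snd.pow 2)).sqrt

theorem measurable_inv_nrm : Measurable fun p : ℝ × ℝ => ENNReal.ofReal (1 / nrm p) :=
  (measurable_const.div continuous_nrm.measurable).ennreal_ofReal

/-- The expected inverse length as a function of the initial vector. -/
noncomputable def Phi (ε E : ℝ) (W : ℤ → ℝ) : ℕ → ℤ → ℝ × ℝ → ℝ≥0∞
  | 0, _ => fun v => ENNReal.ofReal (1 / nrm v)
  | (L + 1), b => fun v => ∫⁻ s, Phi ε E W L (b - 1) (step E (W b + ε * s) v) ∂U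

theorem continuous_step (E w ε : ℝ) :
    Continuous fun q : (ℝ × ℝ) × ℝ => step E (w + ε * q.2) q.1 := by
  unfold step
  fun_prop

theorem measurable_Phi (ε E : ℝ) (W : ℤ → ℝ) (L : ℕ) (b : ℤ) : Measurable (Phi ε E W L b) := by
  induction L generalizing b with
  | zero => exact measurable_inv_nrm
  | succ L ih =>
    have h : Measurable fun q : (ℝ × ℝ) × ℝ =>
        Phi ε E W L (b - 1) (step E (W b + ε * q.2) q.1) :=
      (ih (b - 1)).comp (continuous_step E (W b) ε).measurable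
    exact h.lintegral_prod_right'

theorem expect_eq (ε E : ℝ) (W : ℤ → ℝ) (L : ℕ) (b : ℤ) (v : ℝ × ℝ) :
    ∫⁻ x, ENNReal.ofReal (1 / nrm (gsol (fun n => W n + ε * x n) E b v L)) ∂PZ =
      Phi ε E W L b v := by
  induction L generalizing b v with
  | zero =>
    simp only [gsol, Phi, lintegral_const, measure_univ, mul_one]
  | succ L ih =>
    rw [resample_lintegral b (F := fun x : ℤ → ℝ =>
      ENNReal.ofReal (1 / nrm (gsol (fun n => W n + ε * x n) E b v (L + 1))))
      (measurable_inv_nrm.comp (continuous_gsol' W ε E b v (L + 1)).measurable)]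
    show _ = ∫⁻ s, Phi ε E W L (b - 1) (step E (W b + ε * s) v) ∂U
    refine lintegral_congr fun s => ?_
    rw [← ih]
    refine lintegral_congr fun x => ?_
    rw [gsol_succ]
    congr 3
    simp only [Function.update_self]
    refine gsol_congr _ _ _ _ fun n hn _ => ?_
    rw [Function.update_of_ne (by omega)]

theorem Phi_smul (ε E : ℝ) (W : ℤ → ℝ) (L : ℕ) (b : ℤ) (t p q : ℝ) :
    Phi ε E W L b (t * p, t * q) = ENNReal.ofReal |t|⁻¹ * Phi ε E W L b (p, q) := by
  induction L generalizing b p q with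
  | zero =>
    simp only [Phi, nrm]
    rw [← ENNReal.ofReal_mul (by positivity)]
    congr 1
    have : (t * p) ^ 2 + (t * q) ^ 2 = t ^ 2 * (p ^ 2 + q ^ 2) := by ring
    rw [this, Real.sqrt_mul (sq_nonneg t), Real.sqrt_sq_eq_abs, one_div, one_div, mul_inv]
  | succ L ih =>
    show ∫⁻ s, Phi ε E W L (b - 1) (step E (W b + ε * s) (t * p, t * q)) ∂U =
      ENNReal.ofReal |t|⁻¹ * ∫⁻ s, Phi ε E W L (b - 1) (step E (W b + ε * s) (p, q)) ∂U
    rw [← lintegral_const_mul]
    · refine lintegral_congr fun s => ?_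
      have : step E (W b + ε * s) (t * p, t * q) =
          (t * (step E (W b + ε * s) (p, q)).1, t * (step E (W b + ε * s) (p, q)).2) := by
        simp only [step]
        ext <;> simp only <;> ring
      rw [this, ih]
    · exact (measurable_Phi ε E W L (b - 1)).comp
        ((continuous_step E (W b) ε).measurable.comp (measurable_const.prodMk measurable_id))

/-- The functions of the Kunz-Souillard recursion. -/
noncomputable def ff (ε E : ℝ) (W : ℤ → ℝ) : ℕ → ℤ → ℝ → ℝ≥0∞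
  | 0, _ => fun x => ENNReal.ofReal (1 / Real.sqrt (1 + x ^ 2))
  | (L + 1), b => UR (E - W b) (avg ε (ff ε E W L (b - 1)))

theorem measurable_ff (ε E : ℝ) (W : ℤ → ℝ) (L : ℕ) (b : ℤ) : Measurable (ff ε E W L b) := by
  induction L generalizing b with
  | zero =>
    have : Continuous fun x : ℝ => Real.sqrt (1 + x ^ 2) := by fun_prop
    exact (measurable_const.div this.measurable).ennreal_ofReal
  | succ L ih => exact measurable_UR (measurable_avg (ih _) ε) _

theorem U_ac : U ≪ (volume : Measure ℝ) := by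
  unfold U
  exact Measure.smul_absolutelyContinuous.trans Measure.restrict_le_self.absolutelyContinuous

theorem U_ne (c ε : ℝ) (hε : 0 < ε) : ∀ᵐ s ∂U, c - ε * s ≠ 0 := by
  have key : ∀ᵐ s ∂(volume : Measure ℝ), c - ε * s ≠ 0 := ?_
  · exact U_ac.ae_le key
  have : {s : ℝ | ¬ (c - ε * s ≠ 0)} = {c / ε} := by
    ext s
    simp only [ne_eq, not_not, Set.mem_ofPred_eq, Set.mem_singleton_iff]
    rw [eq_div_iff hε.ne']
    constructor <;> intro h <;> linarith
  rw [ae_iff, this]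
  exact measure_singleton _

theorem U_neg (f : ℝ → ℝ≥0∞) : ∫⁻ s, f (-s) ∂U = ∫⁻ s, f s ∂U := by
  rw [U_apply, U_apply]
  congr 1
  rw [← lintegral_indicator measurableSet_Icc, ← lintegral_indicator measurableSet_Icc,
    ← lintegral_neg_eq_self ((Set.Icc (-1 : ℝ) 1).indicator f)]
  refine lintegral_congr fun s => ?_
  by_cases hs : s ∈ Set.Icc (-1 : ℝ) 1
  · rw [Set.indicator_of_mem hs, Set.indicator_of_mem]
    exact ⟨by linarith [hs.2], by linarith [hs.1]⟩
  · rw [Set.indicator_of_notMem hs, Set.indicator_of_notMem]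
    intro h
    exact hs ⟨by linarith [h.2], by linarith [h.1]⟩

theorem avg_neg (ε c : ℝ) (g : ℝ → ℝ≥0∞) : ∫⁻ s, g (c - ε * s) ∂U = avg ε g c := by
  unfold avg
  rw [← U_neg]
  refine lintegral_congr fun s => ?_
  congr 1
  ring

theorem Phi_le (ε E : ℝ) (W : ℤ → ℝ) (hε : 0 < ε) (L : ℕ) (b : ℤ) (z : ℝ) (hz : z ≠ 0) :
    Phi ε E W L b (z, 1) ≤ ff ε E W L b z := by
  induction L generalizing b z with
  | zero =>
    simp only [Phi, ff, nrm]
    refine le_of_eq ?_
    congr 3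
    ring
  | succ L ih =>
    show ∫⁻ s, Phi ε E W L (b - 1) (step E (W b + ε * s) (z, 1)) ∂U ≤
      ENNReal.ofReal |z|⁻¹ * avg ε (ff ε E W L (b - 1)) (E - W b - z⁻¹)
    have e : ∀ s, Phi ε E W L (b - 1) (step E (W b + ε * s) (z, 1)) =
        ENNReal.ofReal |z|⁻¹ * Phi ε E W L (b - 1) (E - W b - z⁻¹ - ε * s, 1) := by
      intro s
      rw [← Phi_smul]
      congr 1
      simp only [step]
      ext
      · simp only
        field_simp
        ring
      · simp
    rw [lintegral_congr e, lintegral_const_mul, ← avg_neg]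
    · refine mul_le_mul' le_rfl ?_
      refine lintegral_mono_ae ?_
      filter_upwards [U_ne (E - W b - z⁻¹) ε hε] with s hs
      exact ih (b - 1) _ hs
    · exact (measurable_Phi ε E W L (b - 1)).comp
        ((measurable_const.sub (measurable_const.mul measurable_id)).prodMk measurable_const)

theorem nsqL_ff_zero (ε E : ℝ) (W : ℤ → ℝ) (b : ℤ) :
    nsqL (ff ε E W 0 b) ≤ ENNReal.ofReal Real.pi := by
  unfold nsqL ff
  have h : ∀ x : ℝ, ENNReal.ofReal (1 / Real.sqrt (1 + x ^ 2)) ^ 2 =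
      ENNReal.ofReal ((1 + x ^ 2)⁻¹) := by
    intro x
    rw [← ENNReal.ofReal_pow (by positivity), div_pow, Real.sq_sqrt (by positivity), one_pow,
      one_div]
  rw [lintegral_congr h, ← ofReal_integral_eq_lintegral_ofReal integrable_inv_one_add_sq
    (Filter.Eventually.of_forall fun x => by positivity), integral_univ_inv_one_add_sq]

theorem nsqL_ff_succ (ε E : ℝ) (W : ℤ → ℝ) (L : ℕ) (b : ℤ) :
    nsqL (ff ε E W (L + 1) b) ≤ nsqL (ff ε E W L (b - 1)) := by
  have hm := measurable_ff ε E W L (b - 1)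
  have := (taskIso (E - W b) (avg ε (ff ε E W L (b - 1))) (measurable_avg hm ε)).1
  show nsqL (UR (E - W b) (avg ε (ff ε E W L (b - 1)))) ≤ _
  rw [this]
  exact nsqL_avg_le hm ε

theorem nsqL_ff_two {c : ℝ} (hc : ∀ (ε c₁ : ℝ) (g : ℝ → ℝ≥0∞), 0 < ε → ε ≤ 1 → Measurable g →
      nsqL (avg ε (UR c₁ (avg ε g))) ≤ ENNReal.ofReal (1 - c * ε ^ 2) * nsqL g)
    (ε E : ℝ) (W : ℤ → ℝ) (hε : 0 < ε) (hε1 : ε ≤ 1) (L : ℕ) (b : ℤ) :
    nsqL (ff ε E W (L + 2) b) ≤
      ENNReal.ofReal (1 - c * ε ^ 2) * nsqL (ff ε E W L (b - 1 - 1)) := by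
  have hm := measurable_ff ε E W (L + 1) (b - 1)
  have h1 := (taskIso (E - W b) (avg ε (ff ε E W (L + 1) (b - 1))) (measurable_avg hm ε)).1
  show nsqL (UR (E - W b) (avg ε (ff ε E W (L + 1) (b - 1)))) ≤ _
  rw [h1]
  exact hc ε (E - W (b - 1)) (ff ε E W L (b - 1 - 1)) hε hε1 (measurable_ff ε E W L _)

theorem nsqL_ff_le {c : ℝ} (hc0 : 0 < c) (hc1 : c ≤ 1 / 2)
    (hc : ∀ (ε c₁ : ℝ) (g : ℝ → ℝ≥0∞), 0 < ε → ε ≤ 1 → Measurable g →
      nsqL (avg ε (UR c₁ (avg ε g))) ≤ ENNReal.ofReal (1 - c * ε ^ 2) * nsqL g)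
    (ε E : ℝ) (W : ℤ → ℝ) (hε : 0 < ε) (hε1 : ε ≤ 1) (L : ℕ) (b : ℤ) :
    nsqL (ff ε E W L b) ≤ ENNReal.ofReal (2 * Real.pi * (1 - c / 2 * ε ^ 2) ^ L) := by
  have he2 : ε ^ 2 ≤ 1 := pow_le_one₀ hε.le hε1
  have he0 : 0 < ε ^ 2 := by positivity
  have hr : 3 / 4 ≤ 1 - c / 2 * ε ^ 2 := by nlinarith
  have hr1 : 1 - c * ε ^ 2 ≤ (1 - c / 2 * ε ^ 2) ^ 2 := by nlinarith [sq_nonneg (c / 2 * ε ^ 2)]
  have hpi := Real.pi_pos
  induction L using Nat.twoStepInduction generalizing b with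
  | zero =>
    refine (nsqL_ff_zero ε E W b).trans (ENNReal.ofReal_le_ofReal ?_)
    rw [pow_zero]; linarith
  | one =>
    refine (nsqL_ff_succ ε E W 0 b).trans ((nsqL_ff_zero ε E W _).trans
      (ENNReal.ofReal_le_ofReal ?_))
    rw [pow_one]; nlinarith
  | more L ih _ =>
    refine (nsqL_ff_two hc ε E W hε hε1 L b).trans ?_
    calc ENNReal.ofReal (1 - c * ε ^ 2) * nsqL (ff ε E W L (b - 1 - 1))
        ≤ ENNReal.ofReal ((1 - c / 2 * ε ^ 2) ^ 2) *
          ENNReal.ofReal (2 * Real.pi * (1 - c / 2 * ε ^ 2) ^ L) := by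
          gcongr
          exact ih _
      _ = _ := by
          rw [← ENNReal.ofReal_mul (by positivity)]
          congr 1
          ring

theorem taskJ : TaskJ := by
  obtain ⟨c, hc0, hc1, hc⟩ := taskContr
  refine ⟨c / 4, 8, by positivity, by linarith, by norm_num, ?_⟩
  intro ε E W b L hε hε1
  have he2 : ε ^ 2 ≤ 1 := pow_le_one₀ hε.le hε1
  have he0 : 0 < ε ^ 2 := by positivity
  have hr : 1 / 2 ≤ 1 - c / 4 * ε ^ 2 := by nlinarith
  have e1 : ∀ x : ℤ → ℝ, rlen (fun n => W n + ε * x n) E b L =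
      nrm (gsol (fun n => W n + ε * x n) E b (1, 0) L) := fun x => rlen_eq _ _ _ _
  simp only [e1]
  rw [expect_eq]
  cases L with
  | zero =>
    simp only [Phi, nrm]
    refine ENNReal.ofReal_le_ofReal ?_
    have : Real.sqrt ((1 : ℝ) ^ 2 + 0 ^ 2) = 1 := by simp
    rw [this, pow_zero, mul_one, div_one, le_div_iff₀ hε]
    linarith
  | succ L =>
    have h1 : Phi ε E W (L + 1) b (1, 0) ≤ avg ε (ff ε E W L (b - 1)) (E - W b) := by
      show ∫⁻ s, Phi ε E W L (b - 1) (step E (W b + ε * s) (1, 0)) ∂U ≤ _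
      rw [← avg_neg]
      refine lintegral_mono_ae ?_
      filter_upwards [U_ne (E - W b) ε hε] with s hs
      have e : step E (W b + ε * s) (1, 0) = (E - W b - ε * s, 1) := by
        simp only [step]
        ext <;> simp only <;> ring
      rw [e]
      exact Phi_le ε E W hε L (b - 1) _ hs
    refine h1.trans ?_
    refine ((taskAvg ε _ hε hε1 (measurable_ff ε E W L (b - 1))).2.2.2 _).trans ?_
    have h2 : nsqL (ff ε E W L (b - 1)) ^ (1 / 2 : ℝ) ≤
        ENNReal.ofReal (3 * (1 - c / 4 * ε ^ 2) ^ L) := by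
      have h3 : nsqL (ff ε E W L (b - 1)) ≤
          ENNReal.ofReal ((3 * (1 - c / 4 * ε ^ 2) ^ L) ^ 2) := by
        refine (nsqL_ff_le hc0 hc1 hc ε E W hε hε1 L (b - 1)).trans (ENNReal.ofReal_le_ofReal ?_)
        have h4 : 1 - c / 2 * ε ^ 2 ≤ (1 - c / 4 * ε ^ 2) ^ 2 := by
          nlinarith [sq_nonneg (c / 4 * ε ^ 2)]
        have h5 : (1 - c / 2 * ε ^ 2) ^ L ≤ ((1 - c / 4 * ε ^ 2) ^ 2) ^ L :=
          pow_le_pow_left₀ (by nlinarith) h4 L
        have h6 : (3 * (1 - c / 4 * ε ^ 2) ^ L) ^ 2 = 9 * ((1 - c / 4 * ε ^ 2) ^ 2) ^ L := by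
          rw [mul_pow, ← pow_mul, ← pow_mul, mul_comm L 2]; norm_num
        rw [h6]
        have h7 : 0 ≤ ((1 - c / 4 * ε ^ 2) ^ 2) ^ L := by positivity
        have h8 : 2 * Real.pi ≤ 9 := by linarith [Real.pi_le_four]
        calc 2 * Real.pi * (1 - c / 2 * ε ^ 2) ^ L ≤ 2 * Real.pi * ((1 - c / 4 * ε ^ 2) ^ 2) ^ L := by
              gcongr
          _ ≤ 9 * ((1 - c / 4 * ε ^ 2) ^ 2) ^ L := by gcongr
      calc nsqL (ff ε E W L (b - 1)) ^ (1 / 2 : ℝ)
          ≤ (ENNReal.ofReal ((3 * (1 - c / 4 * ε ^ 2) ^ L) ^ 2)) ^ (1 / 2 : ℝ) :=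
            ENNReal.rpow_le_rpow h3 (by norm_num)
        _ = ENNReal.ofReal (3 * (1 - c / 4 * ε ^ 2) ^ L) := by
            rw [ENNReal.ofReal_rpow_of_nonneg (by positivity) (by norm_num)]
            congr 1
            rw [← Real.sqrt_eq_rpow, Real.sqrt_sq (by positivity)]
    calc ENNReal.ofReal (1 / Real.sqrt ε) * nsqL (ff ε E W L (b - 1)) ^ (1 / 2 : ℝ)
        ≤ ENNReal.ofReal (1 / ε) * ENNReal.ofReal (3 * (1 - c / 4 * ε ^ 2) ^ L) := by
          gcongr
          rw [Real.le_sqrt hε.le hε.le]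
          nlinarith
      _ ≤ _ := by
          rw [← ENNReal.ofReal_mul (by positivity)]
          refine ENNReal.ofReal_le_ofReal ?_
          have h9 : (1 - c / 4 * ε ^ 2) ^ L ≤ 2 * (1 - c / 4 * ε ^ 2) ^ (L + 1) := by
            rw [pow_succ (1 - c / 4 * ε ^ 2) L]
            have : 0 ≤ (1 - c / 4 * ε ^ 2) ^ L := by positivity
            nlinarith
          have h10 : 0 ≤ (1 - c / 4 * ε ^ 2) ^ (L + 1) := by positivity
          calc 1 / ε * (3 * (1 - c / 4 * ε ^ 2) ^ L)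
              ≤ 1 / ε * (8 * (1 - c / 4 * ε ^ 2) ^ (L + 1)) := by
                gcongr ?_ * ?_
                linarith
            _ = 8 / ε * (1 - c / 4 * ε ^ 2) ^ (L + 1) := by ring

end Q235.PP
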