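import Pool.Agent.Q235.PP.Group

/-!
# The choice of the scales: numerical facts
-/

set_option autoImplicit false

open scoped BigOperators ENNReal
open MeasureTheory Filter

namespace Q235.PP

open Pool.Agent.H695R3.PP

/-- The sizes of the boxes. -/
def sL (k : ℕ) : ℕ := 16 ^ k

/-- The threshold for the value at `0`. -/
noncomputable def sa (k : ℕ) : ℝ := (1 / 8) ^ k

/-- The threshold at the ends. -/
noncomputable def sτ (κ : ℝ) (k : ℕ) : ℝ := Real.exp (-(κ * 4 ^ k))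

/-- The level spacing. -/
noncomputable def sd (k : ℕ) : ℝ := (1 / 2 ^ 18) ^ k

/-- The amplitudes. -/
noncomputable def sε (ε : ℝ) (k : ℕ) : ℝ := ε / 2 ^ (k + 1)

theorem sL_mono : StrictMono sL := by
  unfold sL
  exact pow_right_strictMono₀ (by norm_num)

theorem sa_pos (k : ℕ) : 0 < sa k := by unfold sa; positivity
theorem sτ_pos (κ : ℝ) (k : ℕ) : 0 < sτ κ k := Real.exp_pos _
theorem sd_pos (k : ℕ) : 0 < sd k := by unfold sd; positivity
theorem sε_pos {ε : ℝ} (hε : 0 < ε) (k : ℕ) : 0 < sε ε k := by unfold sε; positivity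
theorem sε_le {ε : ℝ} (hε : 0 < ε) (hε1 : ε ≤ 1) (k : ℕ) : sε ε k ≤ 1 := by
  unfold sε
  rw [div_le_one (by positivity)]
  exact hε1.trans (one_le_pow₀ (by norm_num))

theorem num_sum {κ : ℝ} (hκ : 0 < κ) {A : ℝ} (hA : 1 ≤ A) :
    Summable fun k : ℕ => A ^ k * Real.exp (-(κ * 4 ^ k)) := (taskNum κ A hκ hA).1

theorem num_tend {κ : ℝ} (hκ : 0 < κ) {A : ℝ} (hA : 1 ≤ A) (B : ℝ) :
    Tendsto (fun k : ℕ => B * (A ^ k * Real.exp (-(κ * 4 ^ k)))) atTop (nhds 0) := by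
  have := (num_sum hκ hA).tendsto_atTop_zero.const_mul B
  simpa using this

theorem ratio_eq (κ : ℝ) (k : ℕ) :
    sτ κ k / sd (k + 1) = 2 ^ 18 * ((2 ^ 18) ^ k * Real.exp (-(κ * 4 ^ k))) := by
  unfold sτ sd
  rw [one_div, inv_pow, div_inv_eq_mul, pow_succ]
  ring

theorem f3 {κ : ℝ} (hκ : 0 < κ) : ∀ᶠ k in atTop, 4 * sτ κ k ≤ sd (k + 1) := by
  have h := (num_tend hκ (A := 2 ^ 18) (by norm_num) (4 * 2 ^ 18)).eventually
    (gt_mem_nhds zero_lt_one)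
  filter_upwards [h] with k hk
  have h1 := ratio_eq κ k
  have h2 : 4 * (sτ κ k / sd (k + 1)) ≤ 1 := by rw [h1]; linarith
  rw [← mul_div_assoc, div_le_one (sd_pos _)] at h2
  exact h2

theorem f4 {κ : ℝ} (hκ : 0 < κ) :
    ∀ᶠ k in atTop, sa (k + 1) + 4 * sτ κ k / sd (k + 1) ≤ sa k := by
  have h := (num_tend hκ (A := 8 * 2 ^ 18) (by norm_num) (4 * 2 ^ 18)).eventually
    (gt_mem_nhds (show (0 : ℝ) < 7 / 8 by norm_num))
  filter_upwards [h] with k hk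
  have h1 := ratio_eq κ k
  rw [mul_div_assoc, h1]
  unfold sa
  have h8 : (0 : ℝ) < (1 / 8) ^ k := by positivity
  have h9 : ((1 : ℝ) / 8) ^ k * 8 ^ k = 1 := by rw [← mul_pow]; norm_num
  have h2 : 4 * (2 ^ 18 * ((2 ^ 18) ^ k * Real.exp (-(κ * 4 ^ k)))) =
      (1 / 8) ^ k * (4 * 2 ^ 18 * ((8 * 2 ^ 18) ^ k * Real.exp (-(κ * 4 ^ k)))) := by
    rw [mul_pow]
    calc 4 * (2 ^ 18 * ((2 ^ 18) ^ k * Real.exp (-(κ * 4 ^ k))))
        = (((1 : ℝ) / 8) ^ k * 8 ^ k) * (4 * 2 ^ 18 * ((2 ^ 18) ^ k *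
          Real.exp (-(κ * 4 ^ k)))) := by rw [h9]; ring
      _ = _ := by ring
  rw [h2, pow_succ]
  nlinarith

theorem f5 {κ : ℝ} (hκ : 0 < κ) : Summable fun k => sτ κ k / sd (k + 1) := by
  refine ((num_sum hκ (A := 2 ^ 18) (by norm_num)).mul_left (2 ^ 18)).congr fun k => ?_
  rw [ratio_eq]

theorem f6 {κ : ℝ} (hκ : 0 < κ) : Summable (sτ κ) := by
  refine (num_sum hκ (A := 1) le_rfl).congr fun k => ?_
  rw [one_pow, one_mul]
  rfl

theorem f7 : Tendsto (fun k => (2 * (sL k : ℝ) + 1) * sa k ^ 2) atTop (nhds 0) := by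
  have h1 : Tendsto (fun k : ℕ => 3 * (1 / 4 : ℝ) ^ k) atTop (nhds 0) := by
    have := (tendsto_pow_atTop_nhds_zero_of_lt_one (r := (1 / 4 : ℝ)) (by norm_num)
      (by norm_num)).const_mul 3
    simpa using this
  refine squeeze_zero (fun k => by positivity) (fun k => ?_) h1
  unfold sL sa
  push_cast
  have h2 : (1 : ℝ) ≤ 16 ^ k := one_le_pow₀ (by norm_num)
  have h3 : ((1 : ℝ) / 8) ^ k ^ 1 = (1 / 8) ^ k := by rw [pow_one]
  have h4 : ((16 : ℝ)) ^ k * ((1 / 8) ^ k) ^ 2 = (1 / 4) ^ k := by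
    rw [← pow_mul, mul_comm k 2, pow_mul, ← mul_pow]
    norm_num
  have h5 : (0 : ℝ) ≤ ((1 / 8) ^ k) ^ 2 := by positivity
  calc (2 * (16 : ℝ) ^ k + 1) * ((1 / 8) ^ k) ^ 2 ≤ (3 * 16 ^ k) * ((1 / 8) ^ k) ^ 2 := by
        gcongr; linarith
    _ = 3 * (1 / 4) ^ k := by rw [mul_assoc, h4]

theorem f8 {κ : ℝ} (hκ : 0 < κ) :
    Tendsto (fun k => (2 * (sL k : ℝ) + 1) * ∑' j, sτ κ (k + j) / sd (k + j + 1)) atTop
      (nhds 0) := by
  obtain ⟨K, hK⟩ : ∃ K : ℝ, ∀ m : ℕ, 2 ^ 18 * ((2 ^ 18) ^ m * Real.exp (-(κ / 2 * 4 ^ m))) ≤ K := by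
    have h := num_tend (half_pos hκ) (A := 2 ^ 18) (by norm_num) (2 ^ 18)
    obtain ⟨K, hK⟩ := h.bddAbove_range
    exact ⟨K, fun m => hK ⟨m, rfl⟩⟩
  have hle : ∀ m : ℕ, sτ κ m / sd (m + 1) ≤ K * Real.exp (-(κ / 2 * 4 ^ m)) := by
    intro m
    rw [ratio_eq]
    have h1 : Real.exp (-(κ * 4 ^ m)) = Real.exp (-(κ / 2 * 4 ^ m)) *
        Real.exp (-(κ / 2 * 4 ^ m)) := by
      rw [← Real.exp_add]
      congr 1
      ring
    rw [h1]
    calc 2 ^ 18 * ((2 ^ 18) ^ m * (Real.exp (-(κ / 2 * 4 ^ m)) * Real.exp (-(κ / 2 * 4 ^ m))))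
        = (2 ^ 18 * ((2 ^ 18) ^ m * Real.exp (-(κ / 2 * 4 ^ m)))) *
          Real.exp (-(κ / 2 * 4 ^ m)) := by ring
      _ ≤ K * Real.exp (-(κ / 2 * 4 ^ m)) := by
          gcongr
          exact hK m
  have hs : Summable fun m : ℕ => Real.exp (-(κ / 2 * 4 ^ m)) := by
    refine (num_sum (half_pos hκ) (A := 1) le_rfl).congr fun k => ?_
    rw [one_pow, one_mul]
  have hs' : ∀ k : ℕ, Summable fun j : ℕ => Real.exp (-(κ / 2 * 4 ^ (k + j))) := by
    intro k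
    refine ((summable_nat_add_iff k).2 hs).congr fun j => ?_
    rw [add_comm j k]
  have hsr : ∀ k : ℕ, Summable fun j : ℕ => sτ κ (k + j) / sd (k + j + 1) := by
    intro k
    refine ((summable_nat_add_iff k).2 (f5 hκ)).congr fun j => ?_
    rw [add_comm j k]
  have h2 := ((taskNum (κ / 2) 16 (half_pos hκ) (by norm_num)).2).const_mul (3 * K)
  rw [mul_zero] at h2
  refine squeeze_zero (fun k => ?_) (fun k => ?_) h2
  · refine mul_nonneg (by positivity) (tsum_nonneg fun j => ?_)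
    exact div_nonneg (sτ_pos _ _).le (sd_pos _).le
  · have h3 : ∑' j, sτ κ (k + j) / sd (k + j + 1) ≤
        K * ∑' j : ℕ, Real.exp (-(κ / 2 * 4 ^ (k + j))) := by
      rw [← tsum_mul_left]
      exact (hsr k).tsum_le_tsum (fun j => hle (k + j)) ((hs' k).mul_left K)
    have h4 : (2 * (sL k : ℝ) + 1) ≤ 3 * 16 ^ k := by
      unfold sL
      push_cast
      have : (1 : ℝ) ≤ 16 ^ k := one_le_pow₀ (by norm_num)
      linarith
    have h5 : 0 ≤ ∑' j, sτ κ (k + j) / sd (k + j + 1) := tsum_nonneg fun j =>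
      div_nonneg (sτ_pos _ _).le (sd_pos _).le
    calc (2 * (sL k : ℝ) + 1) * ∑' j, sτ κ (k + j) / sd (k + j + 1)
        ≤ (3 * 16 ^ k) * (K * ∑' j : ℕ, Real.exp (-(κ / 2 * 4 ^ (k + j)))) :=
          mul_le_mul h4 h3 h5 (by positivity)
      _ = _ := by ring

theorem f9 {c C R ε : ℝ} (hc : 0 < c) (hc1 : c ≤ 1 / 2) (hC : 0 < C) (hR : 0 < R) (hε : 0 < ε)
    (hε1 : ε ≤ 1) :
    Summable fun k => C * R ^ 2 / (sε ε k ^ 3 * sa k ^ 2 * sτ (c * ε ^ 2 / 8) k) *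
      (1 - c * sε ε k ^ 2) ^ sL k := by
  have hκ : 0 < c * ε ^ 2 / 8 := by positivity
  have hs := (num_sum hκ (A := 512) (by norm_num)).mul_left (8 * C * R ^ 2 / ε ^ 3)
  have hnn : ∀ k, 0 ≤ 1 - c * sε ε k ^ 2 := by
    intro k
    have h1 := sε_le hε hε1 k
    have h2 := sε_pos hε k
    have : sε ε k ^ 2 ≤ 1 := pow_le_one₀ h2.le h1
    nlinarith
  refine Summable.of_nonneg_of_le (fun k => ?_) (fun k => ?_) hs
  · have h1 := sε_pos hε k
    have h2 := sa_pos k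
    have h3 := sτ_pos (c * ε ^ 2 / 8) k
    exact mul_nonneg (by positivity) (pow_nonneg (hnn k) _)
  · have h1 : (1 - c * sε ε k ^ 2) ^ sL k ≤ Real.exp (-(2 * (c * ε ^ 2 / 8) * 4 ^ k)) := by
      calc (1 - c * sε ε k ^ 2) ^ sL k ≤ (Real.exp (-(c * sε ε k ^ 2))) ^ sL k :=
            pow_le_pow_left₀ (hnn k) (Real.one_sub_le_exp_neg _) _
        _ = Real.exp (-(2 * (c * ε ^ 2 / 8) * 4 ^ k)) := by
            rw [← Real.exp_nat_mul]
            congr 1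
            unfold sε sL
            push_cast
            have e : ((16 : ℝ)) ^ k = 4 ^ k * (2 ^ k * 2 ^ k) := by
              rw [← mul_pow, ← mul_pow]; norm_num
            rw [e, div_pow, pow_succ]
            field_simp
            ring
    have e1 : sε ε k ^ 3 * sa k ^ 2 = ε ^ 3 / (8 * 512 ^ k) := by
      unfold sε sa
      have e : ((512 : ℝ)) ^ k = (2 ^ k) ^ 3 * (8 ^ k) ^ 2 := by
        rw [← pow_mul, ← pow_mul, mul_comm k 3, mul_comm k 2, pow_mul, pow_mul, ← mul_pow]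
        norm_num
      rw [e, div_pow, pow_succ, one_div, inv_pow]
      field_simp
      ring
    have e2 : (sτ (c * ε ^ 2 / 8) k)⁻¹ = Real.exp (c * ε ^ 2 / 8 * 4 ^ k) := by
      unfold sτ
      rw [← Real.exp_neg, neg_neg]
    have e3 : Real.exp (c * ε ^ 2 / 8 * 4 ^ k) * Real.exp (-(2 * (c * ε ^ 2 / 8) * 4 ^ k)) =
        Real.exp (-(c * ε ^ 2 / 8 * 4 ^ k)) := by
      rw [← Real.exp_add]
      congr 1
      ring
    have h3 := sτ_pos (c * ε ^ 2 / 8) k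
    calc C * R ^ 2 / (sε ε k ^ 3 * sa k ^ 2 * sτ (c * ε ^ 2 / 8) k) * (1 - c * sε ε k ^ 2) ^ sL k
        ≤ C * R ^ 2 / (sε ε k ^ 3 * sa k ^ 2 * sτ (c * ε ^ 2 / 8) k) *
          Real.exp (-(2 * (c * ε ^ 2 / 8) * 4 ^ k)) := by
          have h1' := sε_pos hε k
          have h2 := sa_pos k
          gcongr
      _ = 8 * C * R ^ 2 / ε ^ 3 * (512 ^ k * ((sτ (c * ε ^ 2 / 8) k)⁻¹ *
            Real.exp (-(2 * (c * ε ^ 2 / 8) * 4 ^ k)))) := by
          rw [e1]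
          field_simp
      _ = _ := by rw [e2, e3]

theorem f10 {C ε : ℝ} (hC : 0 < C) (hε : 0 < ε) :
    Summable fun k => C * ((sL k : ℝ) + 1) ^ 4 * sd k / sε ε k := by
  have hs : Summable fun k : ℕ => (32 * C / ε) * (1 / 2 : ℝ) ^ k :=
    (summable_geometric_of_lt_one (by norm_num) (by norm_num)).mul_left _
  refine Summable.of_nonneg_of_le (fun k => ?_) (fun k => ?_) hs
  · have h1 := sε_pos hε k
    have h2 := sd_pos k
    positivity
  · have h1 : ((sL k : ℝ) + 1) ^ 4 ≤ (2 * 16 ^ k) ^ 4 := by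
      unfold sL
      push_cast
      have : (1 : ℝ) ≤ 16 ^ k := one_le_pow₀ (by norm_num)
      gcongr
      linarith
    have h2 := sε_pos hε k
    have h3 := sd_pos k
    calc C * ((sL k : ℝ) + 1) ^ 4 * sd k / sε ε k ≤ C * (2 * 16 ^ k) ^ 4 * sd k / sε ε k := by
          gcongr
      _ = (32 * C / ε) * (1 / 2) ^ k := by
          unfold sd sε
          have e : (((2 : ℝ) ^ 18)) ^ k = (16 ^ k) ^ 4 * (2 ^ k * 2 ^ k) := by
            rw [← pow_mul 16 k 4, mul_comm k 4, pow_mul 16 4 k, ← mul_pow, ← mul_pow]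
            norm_num
          rw [one_div, inv_pow, e, one_div, inv_pow, pow_succ]
          field_simp
          ring

end Q235.PP
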